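import Pool.Agent.H789R2.CapDefs

set_option autoImplicit false

namespace Pool.Agent.H789R2.Cap

open MeasureTheory Filter Topology Set Metric
open scoped ENNReal ContDiff InnerProductSpace Laplacian

/-- standard basis vector -/
noncomputable def e (i : Fin 3) : E3 := EuclideanSpace.single i 1

lemma norm_e (i : Fin 3) : ‖e i‖ = 1 := by simp [e]

section
variable {F : Type*} [NormedAddCommGroup F] [NormedSpace ℝ F]

/-- partial derivative -/
noncomputable def pd (i : Fin 3) (f : E3 → F) (x : E3) : F := fderiv ℝ f x (e i)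

lemma lap_eq (f : E3 → F) (x : E3) : (Δ f) x = ∑ i, iteratedFDeriv ℝ 2 f x ![e i, e i] := by
  rw [InnerProductSpace.laplacian_eq_iteratedFDeriv_orthonormalBasis f
    (EuclideanSpace.basisFun (Fin 3) ℝ)]
  simp [e]

lemma norm_lap_le (f : E3 → F) (x : E3) : ‖(Δ f) x‖ ≤ 3 * ‖iteratedFDeriv ℝ 2 f x‖ := by
  rw [lap_eq]
  refine (norm_sum_le _ _).trans ?_
  have : ∀ i ∈ Finset.univ, ‖iteratedFDeriv ℝ 2 f x ![e i, e i]‖ ≤ ‖iteratedFDeriv ℝ 2 f x‖ := by
    intro i _
    refine (ContinuousMultilinearMap.le_opNorm _ _).trans ?_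
    simp [Fin.prod_univ_two, norm_e]
  refine (Finset.sum_le_sum this).trans ?_
  simp

lemma contDiff_pd {f : E3 → F} {m n : WithTop ℕ∞} (hf : ContDiff ℝ n f) (hn : m + 1 ≤ n)
    (i : Fin 3) : ContDiff ℝ m (pd i f) :=
  (hf.fderiv_right (m := m) hn).clm_apply contDiff_const

lemma lap_eq_pd {f : E3 → F} {n : WithTop ℕ∞} (hf : ContDiff ℝ n f) (hn : 2 ≤ n) (x : E3) :
    (Δ f) x = ∑ i, pd i (pd i f) x := by
  rw [lap_eq]
  refine Finset.sum_congr rfl fun i _ => ?_
  rw [iteratedFDeriv_two_apply]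
  have h1 : DifferentiableAt ℝ (fderiv ℝ f) x :=
    (hf.fderiv_right (m := 1) (by exact hn)).differentiable one_ne_zero x
  show _ = fderiv ℝ (fun y => fderiv ℝ f y (e i)) x (e i)
  rw [fderiv_clm_apply h1 (differentiableAt_const _)]
  simp

lemma continuous_lap {f : E3 → F} {n : WithTop ℕ∞} (hf : ContDiff ℝ n f) (hn : 2 ≤ n) :
    Continuous (Δ f) := by
  have : (Δ f) = fun x => ∑ i, pd i (pd i f) x := funext fun x => lap_eq_pd hf hn x
  rw [this]
  refine continuous_finsetSum _ fun i _ => ?_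
  exact (contDiff_pd (m := 0) (contDiff_pd (m := 1) hf (by exact hn) i) (by simp) i).continuous

lemma hasCompactSupport_pd {f : E3 → F} (hf : HasCompactSupport f) (i : Fin 3) :
    HasCompactSupport (pd i f) := hf.fderiv_apply ℝ (e i)

lemma tsupport_lap_subset (f : E3 → F) : tsupport (Δ f) ⊆ tsupport f := by
  rw [tsupport]
  apply closure_minimal _ (isClosed_tsupport f)
  intro x hx
  by_contra h
  have h1 : f =ᶠ[𝓝 x] fun _ => 0 := notMem_tsupport_iff_eventuallyEq.mp h
  have h2 := (InnerProductSpace.laplacian_congr_nhds h1).eq_of_nhds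
  rw [InnerProductSpace.laplacian_const] at h2
  exact hx h2

lemma hasCompactSupport_lap {f : E3 → F} (hf : HasCompactSupport f) : HasCompactSupport (Δ f) :=
  hf.of_isClosed_subset (isClosed_tsupport _) (tsupport_lap_subset f)

end

/-- Green's identity -/
lemma green {F : Type*} [NormedAddCommGroup F] [NormedSpace ℝ F] {ψ : E3 → ℝ} {f : E3 → F}
    {n : WithTop ℕ∞} (hn : 2 ≤ n)
    (hψ : ContDiff ℝ n ψ) (hψc : HasCompactSupport ψ) (hf : ContDiff ℝ n f) :
    ∫ x, ψ x • (Δ f) x = ∫ x, (Δ ψ) x • f x := by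
  have hψ1 : ∀ i, ContDiff ℝ 1 (pd i ψ) := fun i => contDiff_pd hψ (by exact hn) i
  have hf1 : ∀ i, ContDiff ℝ 1 (pd i f) := fun i => contDiff_pd hf (by exact hn) i
  have hψ2 : ∀ i, Continuous (pd i (pd i ψ)) := fun i =>
    (contDiff_pd (m := 0) (hψ1 i) (by simp) i).continuous
  have hf2 : ∀ i, Continuous (pd i (pd i f)) := fun i =>
    (contDiff_pd (m := 0) (hf1 i) (by simp) i).continuous
  have hψc1 : ∀ i, HasCompactSupport (pd i ψ) := fun i => hasCompactSupport_pd hψc i
  have hψc2 : ∀ i, HasCompactSupport (pd i (pd i ψ)) := fun i => hasCompactSupport_pd (hψc1 i) i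
  have hint : ∀ {a : E3 → ℝ} {b : E3 → F}, Continuous a → Continuous b → HasCompactSupport a →
      Integrable (fun x => a x • b x) := by
    intro a b ha hb hc
    exact (ha.smul hb).integrable_of_hasCompactSupport hc.smul_right
  have hn1 : n ≠ 0 := by
    rintro rfl
    exact absurd hn (by norm_num)
  simp only [lap_eq_pd hψ hn, lap_eq_pd hf hn, Finset.smul_sum, Finset.sum_smul]
  rw [integral_finsetSum, integral_finsetSum]
  · refine Finset.sum_congr rfl fun i _ => ?_
    -- first integration by parts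
    have h1 : ∫ x, ψ x • fderiv ℝ (pd i f) x (e i) =
        -∫ x, fderiv ℝ ψ x (e i) • pd i f x := by
      apply integral_smul_fderiv_eq_neg_fderiv_smul_of_integrable
      · exact hint (hψ1 i).continuous (hf1 i).continuous (hψc1 i)
      · exact hint hψ.continuous (hf2 i) hψc
      · exact hint hψ.continuous (hf1 i).continuous hψc
      · intro x _
        exact hψ.differentiable hn1 x
      · intro x _
        exact (hf1 i).differentiable one_ne_zero x
    have h2 : ∫ x, pd i ψ x • fderiv ℝ f x (e i) =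
        -∫ x, fderiv ℝ (pd i ψ) x (e i) • f x := by
      apply integral_smul_fderiv_eq_neg_fderiv_smul_of_integrable
      · exact hint (hψ2 i) hf.continuous (hψc2 i)
      · exact hint (hψ1 i).continuous (hf1 i).continuous (hψc1 i)
      · exact hint (hψ1 i).continuous hf.continuous (hψc1 i)
      · intro x _
        exact (hψ1 i).differentiable one_ne_zero x
      · intro x _
        exact hf.differentiable hn1 x
    show ∫ x, ψ x • fderiv ℝ (pd i f) x (e i) = ∫ x, fderiv ℝ (pd i ψ) x (e i) • f x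
    rw [h1]
    show -∫ x, pd i ψ x • fderiv ℝ f x (e i) = _
    rw [h2, neg_neg]
  · intro i _
    exact hint (hψ2 i) hf.continuous (hψc2 i)
  · intro i _
    exact hint hψ.continuous (hf2 i) hψc

end Pool.Agent.H789R2.Cap
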