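import Pool.Agent.H789R2.CapA

set_option autoImplicit false

namespace Pool.Agent.H789R2.Cap

open MeasureTheory Filter Topology Set Metric
open scoped ENNReal ContDiff InnerProductSpace Laplacian

/-! ### the regularised fundamental solution -/

/-- `(‖y‖² + ε²)^p` -/
noncomputable def Fp (ε p : ℝ) (y : E3) : ℝ := (‖y‖ ^ 2 + ε ^ 2) ^ p

lemma base_pos {ε : ℝ} (hε : 0 < ε) (y : E3) : 0 < ‖y‖ ^ 2 + ε ^ 2 := by positivity

lemma contDiff_Fp {ε : ℝ} (hε : 0 < ε) (p : ℝ) : ContDiff ℝ ∞ (Fp ε p) := by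
  unfold Fp
  apply ContDiff.rpow_const_of_ne
  · exact (contDiff_norm_sq ℝ).add contDiff_const
  · intro y
    exact (base_pos hε y).ne'

lemma inner_e (y : E3) (i : Fin 3) : ⟪y, e i⟫_ℝ = y i := by
  simp [e, EuclideanSpace.inner_single_right]

lemma pd_Fp {ε : ℝ} (hε : 0 < ε) (p : ℝ) (i : Fin 3) (y : E3) :
    pd i (Fp ε p) y = 2 * p * (Fp ε (p - 1) y * y i) := by
  unfold pd Fp
  have h1 : HasFDerivAt (fun y : E3 => ‖y‖ ^ 2 + ε ^ 2) (2 • (innerSL ℝ y)) y :=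
    (hasStrictFDerivAt_norm_sq y).hasFDerivAt.add_const _
  have h2 := h1.rpow_const (p := p) (Or.inl (base_pos hε y).ne')
  rw [h2.fderiv]
  simp only [smul_apply, innerSL_apply_apply, inner_e, smul_eq_mul, nsmul_eq_mul]
  push_cast
  ring

lemma norm_sq_eq (y : E3) : ‖y‖ ^ 2 = ∑ i, y i ^ 2 := by
  rw [EuclideanSpace.norm_sq_eq]
  simp

lemma lap_Fp {ε : ℝ} (hε : 0 < ε) (y : E3) :
    (Δ (Fp ε (-1 / 2))) y = -(3 * ε ^ 2 * Fp ε (-5 / 2) y) := by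
  rw [lap_eq_pd (contDiff_Fp hε _) (by norm_cast)]
  have h1 : ∀ i, pd i (Fp ε (-1 / 2)) = fun y => 2 * (-1 / 2) * (Fp ε (-1 / 2 - 1) y * y i) :=
    fun i => funext fun y => pd_Fp hε _ i y
  have h2 : ∀ i, pd i (pd i (Fp ε (-1 / 2))) y =
      -(Fp ε (-1 / 2 - 1) y + 2 * (-1 / 2 - 1) * (Fp ε (-1 / 2 - 1 - 1) y * y i) * y i) := by
    intro i
    rw [h1 i]
    have hd1 : HasFDerivAt (Fp ε (-1 / 2 - 1)) (fderiv ℝ (Fp ε (-1 / 2 - 1)) y) y :=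
      ((contDiff_Fp hε _).differentiable (by norm_num) y).hasFDerivAt
    have hd2 : HasFDerivAt (fun y : E3 => y i) (EuclideanSpace.proj i : E3 →L[ℝ] ℝ) y :=
      (EuclideanSpace.proj i : E3 →L[ℝ] ℝ).hasFDerivAt
    have hd3 : HasFDerivAt (fun y : E3 => 2 * (-1 / 2) * (Fp ε (-1 / 2 - 1) y * y i)) _ y :=
      (hd1.mul hd2).const_mul (2 * (-1 / 2) : ℝ)
    have : pd i (fun y => 2 * (-1 / 2) * (Fp ε (-1 / 2 - 1) y * y i)) y =
        (fderiv ℝ (fun y : E3 => 2 * (-1 / 2) * (Fp ε (-1 / 2 - 1) y * y i)) y) (e i) := rfl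
    rw [this, hd3.fderiv]
    have h4 : (fderiv ℝ (Fp ε (-1 / 2 - 1)) y) (e i) = pd i (Fp ε (-1 / 2 - 1)) y := rfl
    simp only [smul_apply, _root_.add_apply, smul_eq_mul, h4, pd_Fp hε]
    simp [e]
    ring
  simp only [h2]
  have hb := base_pos hε y
  have h3 : Fp ε (-1 / 2 - 1) y = (‖y‖ ^ 2 + ε ^ 2) * Fp ε (-5 / 2) y := by
    unfold Fp
    rw [show (-1 / 2 - 1 : ℝ) = 1 + (-5 / 2) by norm_num, Real.rpow_add hb, Real.rpow_one]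
  have h4 : Fp ε (-1 / 2 - 1 - 1) y = Fp ε (-5 / 2) y := by
    rw [show (-1 / 2 - 1 - 1 : ℝ) = -5 / 2 by norm_num]
  rw [h3, h4, Fin.sum_univ_three]
  rw [norm_sq_eq, Fin.sum_univ_three]
  ring

/-! ### the total mass -/

lemma hasDerivAt_aux (r : ℝ) : HasDerivAt (fun r : ℝ => r ^ 3 * (1 + r ^ 2) ^ (-3 / 2 : ℝ) / 3)
    (r ^ 2 * (1 + r ^ 2) ^ (-5 / 2 : ℝ)) r := by
  have hb : 0 < 1 + r ^ 2 := by positivity
  have h1 : HasDerivAt (fun r : ℝ => 1 + r ^ 2) (2 * r) r := by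
    simpa using (hasDerivAt_pow 2 r).const_add 1
  have h2 := h1.rpow_const (p := (-3 / 2 : ℝ)) (Or.inl hb.ne')
  have h3 := ((hasDerivAt_pow 3 r).mul h2).div_const 3
  refine HasDerivAt.congr_deriv h3 ?_
  have h4 : (1 + r ^ 2) ^ (-3 / 2 : ℝ) = (1 + r ^ 2) * (1 + r ^ 2) ^ (-5 / 2 : ℝ) := by
    rw [show (-3 / 2 : ℝ) = 1 + (-5 / 2) by norm_num, Real.rpow_add hb, Real.rpow_one]
  have h5 : (1 + r ^ 2) ^ (-3 / 2 - 1 : ℝ) = (1 + r ^ 2) ^ (-5 / 2 : ℝ) := by norm_num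
  rw [h4, h5]
  push_cast
  ring

lemma tendsto_aux : Tendsto (fun r : ℝ => r ^ 3 * (1 + r ^ 2) ^ (-3 / 2 : ℝ) / 3) atTop
    (𝓝 (1 / 3)) := by
  have h1 : Tendsto (fun r : ℝ => (1 + (r ^ 2)⁻¹)) atTop (𝓝 (1 + 0)) :=
    tendsto_const_nhds.add (tendsto_inv_atTop_zero.comp (tendsto_pow_atTop two_ne_zero))
  have h2 : Tendsto (fun r : ℝ => (1 + (r ^ 2)⁻¹) ^ (-3 / 2 : ℝ) / 3) atTop
      (𝓝 ((1 + 0) ^ (-3 / 2 : ℝ) / 3)) :=
    (h1.rpow_const (Or.inl (by norm_num))).div_const 3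
  simp only [add_zero, Real.one_rpow] at h2
  refine h2.congr' ?_
  filter_upwards [eventually_gt_atTop 0] with r hr
  have h3 : r ^ 3 = (r ^ 2) ^ (3 / 2 : ℝ) := by
    rw [← Real.rpow_natCast r 2, ← Real.rpow_mul hr.le, ← Real.rpow_natCast r 3]
    norm_num
  have h4 : (r ^ 2) ^ (3 / 2 : ℝ) = (r ^ 2)⁻¹ ^ (-3 / 2 : ℝ) := by
    rw [Real.inv_rpow (by positivity), ← Real.rpow_neg (by positivity)]
    norm_num
  rw [h3, h4, ← Real.mul_rpow (by positivity) (by positivity)]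
  congr 2
  field_simp
  ring

lemma integral_aux : ∫ r in Ioi (0 : ℝ), r ^ 2 * (1 + r ^ 2) ^ (-5 / 2 : ℝ) = 1 / 3 := by
  have := integral_Ioi_of_hasDerivAt_of_nonneg (a := 0)
    (g := fun r : ℝ => r ^ 3 * (1 + r ^ 2) ^ (-3 / 2 : ℝ) / 3)
    (g' := fun r : ℝ => r ^ 2 * (1 + r ^ 2) ^ (-5 / 2 : ℝ)) (l := 1 / 3)
    (hasDerivAt_aux 0).continuousAt.continuousWithinAt (fun r _ => hasDerivAt_aux r)
    (fun r _ => by positivity) tendsto_aux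
  rw [this]
  norm_num

lemma mass : ∫ z : E3, (1 + ‖z‖ ^ 2) ^ (-5 / 2 : ℝ) = 4 * Real.pi / 3 := by
  rw [integral_fun_norm_addHaar volume (fun r : ℝ => (1 + r ^ 2) ^ (-5 / 2 : ℝ))]
  simp only [finrank_euclideanSpace, Fintype.card_fin, smul_eq_mul, nsmul_eq_mul]
  norm_num
  rw [show (∫ y in Ioi (0 : ℝ), y ^ 2 * (1 + y ^ 2) ^ (-(5 / 2) : ℝ)) = 1 / 3 by
    have := integral_aux
    rw [show (-5 / 2 : ℝ) = -(5 / 2) by norm_num] at this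
    exact this]
  rw [measureReal_def, EuclideanSpace.volume_ball_fin_three]
  simp
  rw [ENNReal.toReal_ofReal (by positivity)]
  ring

end Pool.Agent.H789R2.Cap
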