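import Pool.Agent.H789R2.CapB

set_option autoImplicit false

namespace Pool.Agent.H789R2.Cap

open MeasureTheory Filter Topology Set Metric
open scoped ENNReal ContDiff InnerProductSpace Laplacian

lemma integrableOn_inv_ball (R : ℝ) : IntegrableOn (fun y : E3 => ‖y‖⁻¹) (ball 0 R) := by
  rw [integrableOn_fun_norm_addHaar volume (f := fun r : ℝ => r⁻¹)]
  simp only [finrank_euclideanSpace, Fintype.card_fin, smul_eq_mul]
  have h1 : IntegrableOn (fun y : ℝ => y) (Ioo 0 R) :=
    (continuous_id.integrableOn_Icc (a := 0) (b := R)).mono_set Ioo_subset_Icc_self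
  refine h1.congr_fun (fun y hy => ?_) measurableSet_Ioo
  have := hy.1
  simp only
  field_simp

lemma locInt_inv : LocallyIntegrable (fun y : E3 => ‖y‖⁻¹) := by
  intro x
  exact ⟨ball 0 (‖x‖ + 1), isOpen_ball.mem_nhds (by simp), integrableOn_inv_ball _⟩

lemma integrable_inv_mul {g : E3 → ℝ} (hg : Continuous g) (hc : HasCompactSupport g) :
    Integrable (fun y => ‖y‖⁻¹ * g y) := by
  have := locInt_inv.integrable_smul_right_of_hasCompactSupport hg hc
  simpa using this

theorem fund {ψ : E3 → ℝ} (hψ : ContDiff ℝ ∞ ψ) (hc : HasCompactSupport ψ) :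
    ∫ y, ‖y‖⁻¹ * (Δ ψ) y = -(4 * Real.pi * ψ 0) := by
  have hn : (2 : WithTop ℕ∞) ≤ ((⊤ : ℕ∞) : WithTop ℕ∞) := by norm_cast
  have hlapc : Continuous (Δ ψ) := continuous_lap hψ hn
  have hlaps : HasCompactSupport (Δ ψ) := hasCompactSupport_lap hc
  set s : ℕ → ℝ := fun n => 1 / ((n : ℝ) + 1) with hs
  have hs0 : ∀ n, 0 < s n := fun n => by positivity
  have hslim : Tendsto s atTop (𝓝 0) := tendsto_one_div_add_atTop_nhds_zero_nat
  -- the left hand side
  have hL : Tendsto (fun n => ∫ y, Fp (s n) (-1 / 2) y * (Δ ψ) y) atTop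
      (𝓝 (∫ y, ‖y‖⁻¹ * (Δ ψ) y)) := by
    apply tendsto_integral_of_dominated_convergence (fun y => ‖‖y‖⁻¹ * (Δ ψ) y‖)
    · intro n
      exact ((contDiff_Fp (hs0 n) _).continuous.mul hlapc).aestronglyMeasurable
    · exact (integrable_inv_mul hlapc hlaps).norm
    · intro n
      have h0 : ∀ᵐ y : E3, y ≠ 0 := by
        rw [ae_iff]; simp
      filter_upwards [h0] with y hy
      rw [norm_mul, norm_mul]
      apply mul_le_mul_of_nonneg_right _ (norm_nonneg _)
      have hy' : 0 < ‖y‖ := norm_pos_iff.mpr hy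
      have hb := base_pos (hs0 n) y
      rw [Real.norm_of_nonneg (by unfold Fp; positivity), Real.norm_of_nonneg (by positivity)]
      have h1 : ‖y‖⁻¹ = (‖y‖ ^ 2) ^ (-1 / 2 : ℝ) := by
        rw [← Real.rpow_natCast ‖y‖ 2, ← Real.rpow_mul hy'.le, ← Real.rpow_neg_one]
        norm_num
      rw [h1]
      unfold Fp
      apply Real.rpow_le_rpow_of_nonpos (by positivity) _ (by norm_num)
      have := sq_nonneg (s n)
      linarith
    · have h0 : ∀ᵐ y : E3, y ≠ 0 := by
        rw [ae_iff]; simp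
      filter_upwards [h0] with y hy
      have hy' : 0 < ‖y‖ := norm_pos_iff.mpr hy
      apply Tendsto.mul_const
      have h1 : ‖y‖⁻¹ = (‖y‖ ^ 2 + 0 ^ 2) ^ (-1 / 2 : ℝ) := by
        rw [zero_pow two_ne_zero, add_zero, ← Real.rpow_natCast ‖y‖ 2, ← Real.rpow_mul hy'.le,
          ← Real.rpow_neg_one]
        norm_num
      rw [h1]
      unfold Fp
      apply Tendsto.rpow_const
      · exact tendsto_const_nhds.add (hslim.pow 2)
      · left
        positivity
  -- the right hand side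
  have hR : ∀ n, ∫ y, Fp (s n) (-1 / 2) y * (Δ ψ) y =
      -(3 * ∫ z : E3, (1 + ‖z‖ ^ 2) ^ (-5 / 2 : ℝ) * ψ (s n • z)) := by
    intro n
    have h1 := green hn hψ hc (contDiff_Fp (hs0 n) (-1 / 2))
    simp only [smul_eq_mul] at h1
    have h2 : ∫ y, Fp (s n) (-1 / 2) y * (Δ ψ) y = ∫ y, ψ y * (Δ (Fp (s n) (-1 / 2))) y := by
      rw [h1]
      exact integral_congr_ae (Eventually.of_forall fun y => mul_comm _ _)
    rw [h2]
    have h3 : ∀ y, ψ y * (Δ (Fp (s n) (-1 / 2))) y =
        -3 * (s n ^ 2 * Fp (s n) (-5 / 2) y * ψ y) := by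
      intro y
      rw [lap_Fp (hs0 n)]
      ring
    rw [integral_congr_ae (Eventually.of_forall h3), integral_const_mul]
    have h4 := Measure.integral_comp_smul_of_nonneg (volume : Measure E3)
      (fun y => s n ^ 2 * Fp (s n) (-5 / 2) y * ψ y) (s n) (hR := (hs0 n).le)
    simp only [finrank_euclideanSpace, Fintype.card_fin, smul_eq_mul] at h4
    have h5 : ∀ z : E3, s n ^ 2 * Fp (s n) (-5 / 2) (s n • z) * ψ (s n • z) =
        (s n ^ 3)⁻¹ * ((1 + ‖z‖ ^ 2) ^ (-5 / 2 : ℝ) * ψ (s n • z)) := by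
      intro z
      have hsn := hs0 n
      have h6 : Fp (s n) (-5 / 2) (s n • z) = (s n ^ 5)⁻¹ * (1 + ‖z‖ ^ 2) ^ (-5 / 2 : ℝ) := by
        unfold Fp
        have h7 : ‖s n • z‖ ^ 2 + s n ^ 2 = s n ^ 2 * (1 + ‖z‖ ^ 2) := by
          rw [norm_smul, Real.norm_of_nonneg hsn.le]; ring
        rw [h7, Real.mul_rpow (by positivity) (by positivity)]
        congr 1
        rw [← Real.rpow_natCast (s n) 2, ← Real.rpow_mul hsn.le, ← Real.rpow_natCast (s n) 5,
          ← Real.rpow_neg hsn.le]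
        norm_num
      rw [h6]
      field_simp
    rw [integral_congr_ae (Eventually.of_forall h5), integral_const_mul] at h4
    have hsn := hs0 n
    have h6 : (s n ^ 3)⁻¹ ≠ 0 := by positivity
    have h7 := mul_left_cancel₀ h6 h4
    rw [← h7]
    ring
  have hlim : Tendsto (fun n => ∫ z : E3, (1 + ‖z‖ ^ 2) ^ (-5 / 2 : ℝ) * ψ (s n • z)) atTop
      (𝓝 (∫ z : E3, (1 + ‖z‖ ^ 2) ^ (-5 / 2 : ℝ) * ψ 0)) := by
    obtain ⟨C, hC⟩ := hψ.continuous.bounded_above_of_compact_support hc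
    have hint : Integrable (fun z : E3 => (1 + ‖z‖ ^ 2) ^ (-5 / 2 : ℝ)) := by
      have := integrable_rpow_neg_one_add_norm_sq (E := E3) (μ := volume) (r := 5)
        (by simp; norm_num)
      simpa using this
    apply tendsto_integral_of_dominated_convergence
      (fun z : E3 => (1 + ‖z‖ ^ 2) ^ (-5 / 2 : ℝ) * C)
    · intro n
      exact hint.aestronglyMeasurable.mul
        (hψ.continuous.comp (continuous_const_smul (s n))).aestronglyMeasurable
    · exact hint.mul_const C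
    · intro n
      refine Eventually.of_forall fun z => ?_
      rw [norm_mul, Real.norm_of_nonneg (by positivity)]
      exact mul_le_mul_of_nonneg_left (hC _) (by positivity)
    · refine Eventually.of_forall fun z => ?_
      apply Tendsto.const_mul
      have h1 : Tendsto (fun n => s n • z) atTop (𝓝 ((0 : ℝ) • z)) := hslim.smul_const z
      rw [zero_smul] at h1
      exact (hψ.continuous.tendsto 0).comp h1
  have hR2 : Tendsto (fun n => ∫ y, Fp (s n) (-1 / 2) y * (Δ ψ) y) atTop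
      (𝓝 (-(3 * ∫ z : E3, (1 + ‖z‖ ^ 2) ^ (-5 / 2 : ℝ) * ψ 0))) := by
    simp only [hR]
    exact (hlim.const_mul 3).neg
  rw [tendsto_nhds_unique hL hR2, integral_mul_const, mass]
  ring

section
variable {F : Type*} [NormedAddCommGroup F] [NormedSpace ℝ F]

lemma pd_reflect {f : E3 → F} (x : E3) (i : Fin 3) (hf : Differentiable ℝ f) (y : E3) :
    pd i (fun y => f (x - y)) y = -pd i f (x - y) := by
  unfold pd
  have h1 : HasFDerivAt (fun y : E3 => x - y) (-ContinuousLinearMap.id ℝ E3) y := by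
    simpa using (hasFDerivAt_id y).const_sub x
  have h2 := (hf (x - y)).hasFDerivAt.comp y h1
  have h3 : fderiv ℝ (fun y => f (x - y)) y =
      (fderiv ℝ f (x - y)).comp (-ContinuousLinearMap.id ℝ E3) := h2.fderiv
  rw [h3]
  simp

lemma lap_reflect {f : E3 → F} (hf : ContDiff ℝ ∞ f) (x y : E3) :
    (Δ (fun y => f (x - y))) y = (Δ f) (x - y) := by
  have hn : (2 : WithTop ℕ∞) ≤ ((⊤ : ℕ∞) : WithTop ℕ∞) := by norm_cast
  have hf' : ContDiff ℝ ∞ (fun y => f (x - y)) := hf.comp (contDiff_const.sub contDiff_id)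
  rw [lap_eq_pd hf hn, lap_eq_pd hf' hn]
  refine Finset.sum_congr rfl fun i _ => ?_
  have h1 : pd i (fun y => f (x - y)) = fun y => -pd i f (x - y) :=
    funext fun y => pd_reflect x i (hf.differentiable (by norm_num)) y
  rw [h1]
  have hd : ContDiff ℝ ∞ (pd i f) := contDiff_pd hf (by norm_cast) i
  have h2 : pd i (fun y => -pd i f (x - y)) y = -pd i (fun y => pd i f (x - y)) y := by
    unfold pd
    rw [fderiv_fun_neg]
    simp
  rw [h2, pd_reflect x i (hd.differentiable (by norm_num)) y, neg_neg]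

end

/-- `Φ` is a fundamental solution of the Laplace operator: `Φ ∗ Δχ = χ`. -/
theorem conv_lap (𝕜 : Type) [RCLike 𝕜] {χ : E3 → ℝ} (hχ : ContDiff ℝ ∞ χ)
    (hc : HasCompactSupport χ) (x : E3) :
    conv 𝕜 (fun y => (((Δ χ) y : ℝ) : 𝕜)) x = ((χ x : ℝ) : 𝕜) := by
  unfold conv
  have h1 : ∀ y, Phi y • (((Δ χ) (x - y) : ℝ) : 𝕜) =
      ((-(1 / (4 * Real.pi)) * (‖y‖⁻¹ * (Δ (fun y => χ (x - y))) y) : ℝ) : 𝕜) := by
    intro y
    rw [lap_reflect hχ]
    unfold Phi
    rw [Algebra.smul_def]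
    rw [show (algebraMap ℝ 𝕜) (-(1 / (4 * Real.pi * ‖y‖))) =
      ((-(1 / (4 * Real.pi * ‖y‖)) : ℝ) : 𝕜) from rfl, ← RCLike.ofReal_mul]
    congr 1
    rw [one_div, mul_inv, one_div]
    ring
  rw [integral_congr_ae (Eventually.of_forall h1), integral_ofReal, integral_const_mul,
    fund (ψ := fun y => χ (x - y)) (hχ.comp (contDiff_const.sub contDiff_id)) ?_]
  · congr 1
    have := Real.pi_pos
    simp only [sub_zero]
    field_simp
  · have : (fun y => χ (x - y)) = χ ∘ (Homeomorph.subLeft x) := rfl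
    rw [this]
    exact hc.comp_homeomorph _

end Pool.Agent.H789R2.Cap
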