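import Pool.Agent.H789R2.CapC

set_option autoImplicit false

namespace Pool.Agent.H789R2.Cap

open MeasureTheory Filter Topology Set Metric
open scoped ENNReal ContDiff InnerProductSpace Laplacian

/-- the exponent `4/3` -/
noncomputable abbrev pq : ℝ≥0∞ := ENNReal.ofReal (4 / 3)

lemma pq_toReal : pq.toReal = 4 / 3 := ENNReal.toReal_ofReal (by norm_num)
lemma pq_ne_zero : pq ≠ 0 := by simp [pq]
lemma pq_ne_top : pq ≠ ⊤ := ENNReal.ofReal_ne_top
lemma one_le_pq : 1 ≤ pq := by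
  rw [pq, ← ENNReal.ofReal_one]
  exact ENNReal.ofReal_le_ofReal (by norm_num)

section
variable {F G : Type*} [NormedAddCommGroup F] [NormedAddCommGroup G]

lemma holder {μ : Measure E3} {f : E3 → F} {g : E3 → G} (hf : AEStronglyMeasurable f μ)
    (hg : AEStronglyMeasurable g μ) :
    ∫⁻ x, ‖f x‖ₑ * ‖g x‖ₑ ∂μ ≤ eLpNorm f pq μ * eLpNorm g 4 μ := by
  rw [eLpNorm_eq_lintegral_rpow_enorm_toReal pq_ne_zero pq_ne_top,
    eLpNorm_eq_lintegral_rpow_enorm_toReal (by norm_num) (by norm_num), pq_toReal]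
  have h : (4 / 3 : ℝ).HolderConjugate 4 := by
    rw [Real.holderConjugate_iff]; norm_num
  have := ENNReal.lintegral_mul_le_Lp_mul_Lq μ h hf.enorm hg.enorm
  simpa using this

lemma eLpNorm_le_sup {f : E3 → F} {A : Set E3} {M : ℝ} (hf : Function.support f ⊆ A)
    (hM : ∀ x, ‖f x‖ ≤ M) {p : ℝ≥0∞} :
    eLpNorm f p volume ≤ ENNReal.ofReal M * volume A ^ (p.toReal⁻¹) := by
  rw [← eLpNorm_restrict_eq_of_support_subset hf]
  have := eLpNorm_le_of_ae_bound (p := p) (μ := volume.restrict A)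
    (Eventually.of_forall hM)
  rw [Measure.restrict_apply_univ] at this
  rwa [mul_comm]

end

section
variable (𝕜 : Type) [RCLike 𝕜]

lemma locInt_Phi : LocallyIntegrable Phi := by
  have h : Phi = fun x => (-(1 / (4 * Real.pi))) • ‖x‖⁻¹ := by
    funext x
    unfold Phi
    rw [one_div, mul_inv, one_div, smul_eq_mul]
    ring
  rw [h]
  exact LocallyIntegrable.smul locInt_inv (-(1 / (4 * Real.pi)) : ℝ)

lemma contDiff_conv {φ : E3 → 𝕜} (hφ : ContDiff ℝ ∞ φ) (hc : HasCompactSupport φ) :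
    ContDiff ℝ ∞ (conv 𝕜 φ) := by
  have := hc.contDiff_convolution_right (ContinuousLinearMap.lsmul ℝ ℝ : ℝ →L[ℝ] 𝕜 →L[ℝ] 𝕜)
    (μ := volume) locInt_Phi (n := ⊤) hφ
  exact this

end

section
variable {F : Type*} [NormedAddCommGroup F] [NormedSpace ℝ F]

lemma pd_scale {f : E3 → F} (c : ℝ) (x : E3) (i : Fin 3) (hf : Differentiable ℝ f) (y : E3) :
    pd i (fun y => f (c • (y - x))) y = c • pd i f (c • (y - x)) := by
  unfold pd
  have h1 : HasFDerivAt (fun y : E3 => c • (y - x)) (c • ContinuousLinearMap.id ℝ E3) y :=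
    ((hasFDerivAt_id y).sub_const x).const_smul c
  have h2 := (hf (c • (y - x))).hasFDerivAt.comp y h1
  have h3 : fderiv ℝ (fun y => f (c • (y - x))) y =
      (fderiv ℝ f (c • (y - x))).comp (c • ContinuousLinearMap.id ℝ E3) := h2.fderiv
  rw [h3]
  simp

lemma lap_scale {f : E3 → F} (hf : ContDiff ℝ ∞ f) (c : ℝ) (x y : E3) :
    (Δ (fun y => f (c • (y - x)))) y = c ^ 2 • (Δ f) (c • (y - x)) := by
  have hn : (2 : WithTop ℕ∞) ≤ ((⊤ : ℕ∞) : WithTop ℕ∞) := by norm_cast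
  have hf' : ContDiff ℝ ∞ (fun y => f (c • (y - x))) :=
    hf.comp ((contDiff_id.sub contDiff_const).const_smul c)
  rw [lap_eq_pd hf hn, lap_eq_pd hf' hn, Finset.smul_sum]
  refine Finset.sum_congr rfl fun i _ => ?_
  have h1 : pd i (fun y => f (c • (y - x))) = fun y => c • pd i f (c • (y - x)) :=
    funext fun y => pd_scale c x i (hf.differentiable (by norm_num)) y
  rw [h1]
  have hd : ContDiff ℝ ∞ (pd i f) := contDiff_pd hf (by norm_cast) i
  have hd' : Differentiable ℝ (pd i f) := hd.differentiable (by norm_num)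
  have h2 : pd i (fun y => c • pd i f (c • (y - x))) y =
      c • pd i (fun y => pd i f (c • (y - x))) y := by
    unfold pd
    rw [fderiv_fun_const_smul]
    · simp
    · exact (hd.comp ((contDiff_id.sub contDiff_const).const_smul c)).differentiable
        (by norm_num) y
  rw [h2, pd_scale c x i hd' y, smul_smul, pow_two]

end

lemma contDiff_lap {f : E3 → ℝ} (hf : ContDiff ℝ ∞ f) : ContDiff ℝ ∞ (Δ f) := by
  have hn : (2 : WithTop ℕ∞) ≤ ((⊤ : ℕ∞) : WithTop ℕ∞) := by norm_cast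
  have : (Δ f) = fun x => ∑ i, pd i (pd i f) x := funext fun x => lap_eq_pd hf hn x
  rw [this]
  refine ContDiff.sum fun i _ => ?_
  exact contDiff_pd (m := ((⊤ : ℕ∞) : WithTop ℕ∞)) (contDiff_pd (m := ((⊤ : ℕ∞) : WithTop ℕ∞)) hf
    (by norm_cast) i) (by norm_cast) i

section
variable (𝕜 : Type) [RCLike 𝕜]

lemma contDiff_ofReal' {f : E3 → ℝ} (hf : ContDiff ℝ ∞ f) :
    ContDiff ℝ ∞ (fun y => ((f y : ℝ) : 𝕜)) :=
  (RCLike.ofRealCLM (K := 𝕜)).contDiff.comp hf

lemma hasCompactSupport_ofReal {f : E3 → ℝ} (hf : HasCompactSupport f) :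
    HasCompactSupport (fun y => ((f y : ℝ) : 𝕜)) :=
  hf.comp_left (g := fun t : ℝ => (t : 𝕜)) (by simp)

theorem upper_bound : ∃ C : ℝ, 0 < C ∧ ∀ (x : E3) (δ : ℝ), 0 < δ → ∀ (σ : Set E3), σ ⊆ ball x δ →
    cap 𝕜 σ ≤ ENNReal.ofReal (C * δ ^ (1 / 4 : ℝ)) := by
  let η : ContDiffBump (0 : E3) := ⟨1, 2, one_pos, one_lt_two⟩
  have hη : ContDiff ℝ ∞ (η : E3 → ℝ) := η.contDiff
  have hηc : HasCompactSupport (η : E3 → ℝ) := η.hasCompactSupport
  have hn : (2 : WithTop ℕ∞) ≤ ((⊤ : ℕ∞) : WithTop ℕ∞) := by norm_cast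
  obtain ⟨M, hM⟩ := (continuous_lap hη hn).bounded_above_of_compact_support
    (hasCompactSupport_lap hηc)
  have hM0 : 0 ≤ M := (norm_nonneg _).trans (hM 0)
  refine ⟨(M + 1) * (32 * Real.pi / 3) ^ (3 / 4 : ℝ), by positivity, ?_⟩
  intro x δ hδ σ hσ
  unfold cap
  refine iSup_le fun T => iSup_le fun u => iSup_le fun h => ?_
  obtain ⟨hT, ⟨L, hLσ, hL, hTL⟩, hu, hpot, hnorm⟩ := h
  set χ : E3 → ℝ := fun y => η (δ⁻¹ • (y - x)) with hχ
  have hχs : ContDiff ℝ ∞ χ := hη.comp ((contDiff_id.sub contDiff_const).const_smul δ⁻¹)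
  have hsupp : Function.support χ ⊆ closedBall x (2 * δ) := by
    intro y hy
    have h1 : δ⁻¹ • (y - x) ∈ Function.support (η : E3 → ℝ) := hy
    rw [η.support_eq] at h1
    have h2 : ‖δ⁻¹ • (y - x)‖ < 2 := by simpa using h1
    rw [norm_smul, norm_inv, Real.norm_of_nonneg hδ.le, inv_mul_lt_iff₀ hδ] at h2
    rw [mem_closedBall, dist_eq_norm]
    linarith
  have hχc : HasCompactSupport χ := HasCompactSupport.intro (isCompact_closedBall x (2 * δ))
    fun y hy => by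
      by_contra h
      exact hy (hsupp h)
  have hχ1 : ∀ y ∈ ball x δ, χ y = 1 := by
    intro y hy
    apply η.one_of_mem_closedBall
    rw [mem_closedBall, dist_zero_right, norm_smul, norm_inv, Real.norm_of_nonneg hδ.le,
      inv_mul_le_iff₀ hδ]
    rw [mem_ball, dist_eq_norm] at hy
    show ‖y - x‖ ≤ δ * 1
    linarith
  set φ : E3 → 𝕜 := fun y => (((Δ χ) y : ℝ) : 𝕜) with hφ
  have hlapc : HasCompactSupport (Δ χ) := hasCompactSupport_lap hχc
  have hφs : ContDiff ℝ ∞ φ := contDiff_ofReal' 𝕜 (contDiff_lap hχs)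
  have hφc : HasCompactSupport φ := hasCompactSupport_ofReal 𝕜 hlapc
  obtain ⟨ψ, hψ, hint⟩ := hpot φ hφs hφc
  have hψ2 : (ψ : E3 → 𝕜) = fun y => ((χ y : ℝ) : 𝕜) := by
    rw [hψ]
    funext y
    exact conv_lap 𝕜 hχs hχc y
  have hT1 : T (one 𝕜) = T ψ := by
    have h1 : T (one 𝕜 - ψ) = 0 := by
      apply hTL
      have h2 : ball x δ ∈ 𝓝ˢ L := isOpen_ball.mem_nhdsSet.mpr (hLσ.trans hσ)
      filter_upwards [h2] with y hy
      rw [Submodule.coe_sub, Pi.sub_apply, hψ2]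
      simp only [hχ1 y hy, one]
      simp
    rw [map_sub, sub_eq_zero] at h1
    exact h1
  rw [hT1, ← hint]
  have hum : AEStronglyMeasurable u volume := by
    have : ∀ n : ℕ, AEStronglyMeasurable u (volume.restrict (closedBall (0 : E3) n)) := fun n =>
      (hu _ (isCompact_closedBall 0 n)).1
    have h2 : AEStronglyMeasurable u (volume.restrict (⋃ n : ℕ, closedBall (0 : E3) n)) :=
      AEStronglyMeasurable.iUnion this
    rwa [iUnion_closedBall_nat, Measure.restrict_univ] at h2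
  have hlapsupp : Function.support φ ⊆ closedBall x (2 * δ) := by
    intro y hy
    have h1 : y ∈ Function.support (Δ χ) := by
      intro h
      apply hy
      simp [hφ, h]
    have h2 := tsupport_lap_subset χ (subset_tsupport _ h1)
    exact (closure_minimal hsupp isClosed_closedBall) h2
  have hφM : ∀ y, ‖φ y‖ ≤ (M + 1) * (δ ^ 2)⁻¹ := by
    intro y
    rw [hφ]
    simp only [RCLike.norm_ofReal]
    rw [hχ, lap_scale hη, smul_eq_mul, abs_mul, abs_of_nonneg (by positivity)]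
    have := hM (δ⁻¹ • (y - x))
    rw [Real.norm_eq_abs] at this
    rw [inv_pow, mul_comm]
    apply mul_le_mul_of_nonneg_right _ (by positivity)
    linarith
  calc ‖∫ y, φ y * u y‖ₑ ≤ ∫⁻ y, ‖φ y * u y‖ₑ := enorm_integral_le_lintegral_enorm _
    _ = ∫⁻ y, ‖φ y‖ₑ * ‖u y‖ₑ := by simp only [enorm_mul]
    _ ≤ eLpNorm φ pq volume * eLpNorm u 4 volume := holder hφs.continuous.aestronglyMeasurable hum
    _ ≤ eLpNorm φ pq volume * 1 := by gcongr
    _ = eLpNorm φ pq volume := mul_one _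
    _ ≤ ENNReal.ofReal ((M + 1) * (δ ^ 2)⁻¹) * volume (closedBall x (2 * δ)) ^ (pq.toReal⁻¹) :=
        eLpNorm_le_sup hlapsupp hφM
    _ = ENNReal.ofReal ((M + 1) * (32 * Real.pi / 3) ^ (3 / 4 : ℝ) * δ ^ (1 / 4 : ℝ)) := by
        rw [EuclideanSpace.volume_closedBall_fin_three, pq_toReal,
          ← ENNReal.ofReal_pow (by positivity), ← ENNReal.ofReal_mul (by positivity),
          ENNReal.ofReal_rpow_of_nonneg (by positivity) (by norm_num),
          ← ENNReal.ofReal_mul (by positivity)]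
        congr 1
        have h1 : (2 * δ) ^ 3 * (Real.pi * 4 / 3) = (32 * Real.pi / 3) * δ ^ 3 := by ring
        have h2 : (4 / 3 : ℝ)⁻¹ = 3 / 4 := by norm_num
        rw [h1, h2, Real.mul_rpow (by positivity) (by positivity)]
        have h3 : (δ ^ 3) ^ (3 / 4 : ℝ) = δ ^ 2 * δ ^ (1 / 4 : ℝ) := by
          rw [← Real.rpow_natCast δ 3, ← Real.rpow_natCast δ 2, ← Real.rpow_mul hδ.le,
            ← Real.rpow_add hδ]
          norm_num
        rw [h3]
        field_simp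

end

end Pool.Agent.H789R2.Cap
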