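import Mathlib

set_option autoImplicit false

namespace Pool.Agent.H789R2.Cap

open MeasureTheory Filter Topology Set Metric
open scoped ENNReal ContDiff InnerProductSpace Laplacian

/-- The Euclidean space `ℝ³`. -/
abbrev E3 : Type := EuclideanSpace ℝ (Fin 3)

/-- The fundamental solution `Φ(x) = -1/(4π|x|)` of the Laplace operator on `ℝ³`; it is homogeneous
of degree `-1 = p - n`. -/
noncomputable def Phi (x : E3) : ℝ := -(1 / (4 * Real.pi * ‖x‖))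

section Defs

variable (𝕜 : Type) [RCLike 𝕜]

/-- The space `C^∞(ℝ³)` of smooth `𝕜`-valued functions on `ℝ³`. -/
def Smooth : Submodule 𝕜 (E3 → 𝕜) where
  carrier := {φ | ContDiff ℝ ∞ φ}
  add_mem' := by
    intro a b ha hb
    simp only [mem_ofPred_eq] at *
    exact ha.add hb
  zero_mem' := by
    simp only [mem_ofPred_eq]
    exact contDiff_const
  smul_mem' := by
    intro c a ha
    simp only [mem_ofPred_eq] at *
    exact ha.const_smul c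

variable {𝕜} in
lemma mem_Smooth {φ : E3 → 𝕜} : φ ∈ Smooth 𝕜 ↔ ContDiff ℝ ∞ φ := by
  unfold Smooth
  rw [← SetLike.mem_coe]
  simp

/-- The constant function `1`. -/
def one : Smooth 𝕜 := ⟨fun _ => 1, mem_Smooth.mpr contDiff_const⟩

/-- `Φ ∗ φ`. -/
noncomputable def conv (φ : E3 → 𝕜) (x : E3) : 𝕜 := ∫ y, Phi y • φ (x - y)

variable {𝕜}

/-- `T` is a distribution with compact support on `ℝ³`: a linear functional on `C^∞(ℝ³)` which is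
continuous for the topology of uniform convergence of all derivatives on compact sets. -/
def IsDist (T : Smooth 𝕜 →ₗ[𝕜] 𝕜) : Prop :=
  ∃ (B : Set E3) (N : ℕ) (C : ℝ), IsCompact B ∧ ∀ (φ : Smooth 𝕜) (M : ℝ),
    (∀ k ≤ N, ∀ x ∈ B, ‖iteratedFDeriv ℝ k (φ : E3 → 𝕜) x‖ ≤ M) → ‖T φ‖ ≤ C * M

/-- The support of `T` is a compact subset of `σ`: there is a compact `L ⊆ σ` such that `T φ = 0`
whenever `φ` vanishes in a neighbourhood of `L`. -/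
def SuppIn (T : Smooth 𝕜 →ₗ[𝕜] 𝕜) (σ : Set E3) : Prop :=
  ∃ L ⊆ σ, IsCompact L ∧ ∀ φ : Smooth 𝕜, (∀ᶠ x in 𝓝ˢ L, (φ : E3 → 𝕜) x = 0) → T φ = 0

/-- `f ∈ L⁴_loc(ℝ³)`. -/
def InLoc (f : E3 → 𝕜) : Prop := ∀ B : Set E3, IsCompact B → MemLp f 4 (volume.restrict B)

/-- `f` belongs to the closure of `C^∞(ℝ³)` in `L⁴_loc(ℝ³)`. -/
def InLocTilde (f : E3 → 𝕜) : Prop :=
  InLoc f ∧ ∀ B : Set E3, IsCompact B → ∀ ε : ℝ≥0∞, 0 < ε →
    ∃ g : E3 → 𝕜, ContDiff ℝ ∞ g ∧ eLpNorm (f - g) 4 (volume.restrict B) < ε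

/-- `u = Φ ∗ T` in the sense of distributions: `⟨Φ ∗ T, φ⟩ = ⟨T, Φ ∗ φ⟩` for all test functions `φ`
(`Φ` is even). -/
def IsPotential (T : Smooth 𝕜 →ₗ[𝕜] 𝕜) (u : E3 → 𝕜) : Prop :=
  ∀ φ : E3 → 𝕜, ContDiff ℝ ∞ φ → HasCompactSupport φ →
    ∃ ψ : Smooth 𝕜, (ψ : E3 → 𝕜) = conv 𝕜 φ ∧ ∫ x, φ x * u x = T ψ

/-- `T` and `u = Φ ∗ T` are admissible in the definition of `c(σ)`. -/
def Admissible (σ : Set E3) (T : Smooth 𝕜 →ₗ[𝕜] 𝕜) (u : E3 → 𝕜) : Prop :=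
  IsDist T ∧ SuppIn T σ ∧ InLoc u ∧ IsPotential T u ∧ eLpNorm u 4 volume ≤ 1

variable (𝕜)

/-- The capacity `c(σ) = sup |T(1)|` (case `P = Δ`, `n = 3`, `s = 0`, `𝓛 = L⁴`). -/
noncomputable def cap (σ : Set E3) : ℝ≥0∞ :=
  ⨆ (T : Smooth 𝕜 →ₗ[𝕜] 𝕜) (u : E3 → 𝕜) (_ : Admissible σ T u), ‖T (one 𝕜)‖ₑ

/-- The capacity `c̃(σ)`: as `c(σ)`, but requiring that `Φ ∗ T` belongs to the closure of `C^∞`. -/
noncomputable def capTilde (σ : Set E3) : ℝ≥0∞ :=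
  ⨆ (T : Smooth 𝕜 →ₗ[𝕜] 𝕜) (u : E3 → 𝕜) (_ : Admissible σ T u ∧ InLocTilde u), ‖T (one 𝕜)‖ₑ

variable {𝕜}

/-- The class of `f` in `L⁴(K)` belongs to the closure of `S(K)`: `f` can be approximated in
`L⁴(K)` by `C^∞` functions which are harmonic in a neighbourhood of `K`. -/
def InClosureS (K : Set E3) (f : E3 → 𝕜) : Prop :=
  ∀ ε : ℝ≥0∞, 0 < ε → ∃ u : E3 → 𝕜, ContDiff ℝ ∞ u ∧
    (∃ V : Set E3, IsOpen V ∧ K ⊆ V ∧ ∀ x ∈ V, (Δ u) x = 0) ∧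
    eLpNorm (f - u) 4 (volume.restrict K) < ε

/-- The class of `f` in `L⁴(K)` belongs to `S(K°) ∩ \tilde L⁴(K)`: it is the class of an element
of the closure of `C^∞` in `L⁴_loc`, and in the interior of `K` the function `f` is (a.e. equal to)
a smooth harmonic function. -/
def InSInterior (K : Set E3) (f : E3 → 𝕜) : Prop :=
  (∃ f' : E3 → 𝕜, InLocTilde f' ∧ f =ᵐ[volume.restrict K] f') ∧
    ∃ h : E3 → 𝕜, ContDiffOn ℝ ∞ h (interior K) ∧ (∀ x ∈ interior K, (Δ h) x = 0) ∧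
      f =ᵐ[volume.restrict (interior K)] h

variable (𝕜)

/-- Condition (1): the closure of `S(K)` in `L⁴(K)` equals `S(K°) ∩ \tilde L⁴(K)`. -/
def Cond1 (K : Set E3) : Prop := ∀ f : E3 → 𝕜, InLoc f → (InClosureS K f ↔ InSInterior K f)

/-- Condition (3): `liminf_{δ → 0+} c(B(x,δ) \ K) / c̃(B(x,δ) \ K°) > 0` for every `x ∈ ∂K`. -/
def Cond3 (K : Set E3) : Prop := ∀ x ∈ frontier K,
  0 < liminf (fun δ : ℝ => cap 𝕜 (ball x δ \ K) / capTilde 𝕜 (ball x δ \ interior K)) (𝓝[>] 0)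

end Defs

end Pool.Agent.H789R2.Cap
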