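import Pool.Agent.H789R2.CapD

set_option autoImplicit false

namespace Pool.Agent.H789R2.Cap

open MeasureTheory Filter Topology Set Metric
open scoped ENNReal ContDiff InnerProductSpace Laplacian

/-- potential of a unit segment -/
noncomputable def W (x : E3) : ℝ≥0∞ := ∫⁻ s in Ioc (0 : ℝ) 1, ‖s • e 0 - x‖ₑ⁻¹

lemma measurable_W : Measurable W := by
  unfold W
  have h : Measurable (fun p : E3 × ℝ => ‖p.2 • e 0 - p.1‖ₑ⁻¹) := by fun_prop
  exact h.lintegral_prod_right'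

lemma e_apply (i j : Fin 3) : (e i) j = if j = i then 1 else 0 := by
  simp [e]

lemma enorm_coord_le (x : E3) (i : Fin 3) : ‖x i‖ₑ ≤ ‖x‖ₑ := by
  rw [← ofReal_norm, ← ofReal_norm]
  exact ENNReal.ofReal_le_ofReal (PiLp.norm_apply_le x i)

noncomputable def FF (p : ℝ) (v : ℝ) : ℝ≥0∞ := (‖v‖ₑ ^ p)⁻¹

lemma measurable_FF (p : ℝ) : Measurable (FF p) := by
  unfold FF; fun_prop

lemma W_integrand (s : ℝ) (x : E3) :
    ‖s • e 0 - x‖ₑ⁻¹ ≤ FF (3 / 4) (s - x 0) * (FF (1 / 8) (x 1) * FF (1 / 8) (x 2)) := by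
  set A := ‖s • e 0 - x‖ₑ with hA
  have h0 : ‖s - x 0‖ₑ ≤ A := by
    have := enorm_coord_le (s • e 0 - x) 0
    simpa [e_apply] using this
  have h1 : ‖x 1‖ₑ ≤ A := by
    have := enorm_coord_le (s • e 0 - x) 1
    simpa [e_apply] using this
  have h2 : ‖x 2‖ₑ ≤ A := by
    have := enorm_coord_le (s • e 0 - x) 2
    simpa [e_apply] using this
  have h3 : ‖s - x 0‖ₑ ^ (3 / 4 : ℝ) * (‖x 1‖ₑ ^ (1 / 8 : ℝ) * ‖x 2‖ₑ ^ (1 / 8 : ℝ)) ≤ A := by
    calc ‖s - x 0‖ₑ ^ (3 / 4 : ℝ) * (‖x 1‖ₑ ^ (1 / 8 : ℝ) * ‖x 2‖ₑ ^ (1 / 8 : ℝ))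
        ≤ A ^ (3 / 4 : ℝ) * (A ^ (1 / 8 : ℝ) * A ^ (1 / 8 : ℝ)) := by gcongr
      _ = A := by
        rw [← ENNReal.rpow_add_of_nonneg _ _ (by norm_num) (by norm_num),
          ← ENNReal.rpow_add_of_nonneg _ _ (by norm_num) (by norm_num)]
        norm_num
  have h4 := ENNReal.inv_le_inv.mpr h3
  refine h4.trans (le_of_eq ?_)
  unfold FF
  have hfin : ∀ (v p : ℝ), 0 ≤ p → ‖v‖ₑ ^ p ≠ ⊤ := fun v p hp =>
    ENNReal.rpow_ne_top_of_nonneg hp enorm_ne_top
  rw [ENNReal.mul_inv (Or.inr (ENNReal.mul_ne_top (hfin _ _ (by norm_num)) (hfin _ _ (by norm_num))))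
    (Or.inl (hfin _ _ (by norm_num))),
    ENNReal.mul_inv (Or.inr (hfin _ _ (by norm_num))) (Or.inl (hfin _ _ (by norm_num)))]

lemma FF_eq {p v : ℝ} (hv : v ≠ 0) : FF p v = ‖‖v‖ ^ (-p)‖ₑ := by
  unfold FF
  have h : 0 < ‖v‖ := norm_pos_iff.mpr hv
  rw [← ofReal_norm, ENNReal.ofReal_rpow_of_pos h, ← ENNReal.ofReal_inv_of_pos (by positivity),
    ← ofReal_norm, Real.norm_of_nonneg (by positivity : 0 ≤ ‖v‖ ^ (-p)),
    Real.rpow_neg h.le]

lemma integrableOn_rpow_ball {p R : ℝ} (hp : p < 1) :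
    IntegrableOn (fun v : ℝ => ‖v‖ ^ (-p)) (ball 0 R) := by
  rw [integrableOn_fun_norm_addHaar volume (f := fun r : ℝ => r ^ (-p))]
  simp only [Module.finrank_self, Nat.sub_self, pow_zero, one_smul]
  rcases le_or_gt R 0 with hR | hR
  · rw [Ioo_eq_empty (by linarith)]
    exact integrableOn_empty
  · have h := intervalIntegral.intervalIntegrable_rpow' (a := 0) (b := R) (r := -p) (by linarith)
    rw [intervalIntegrable_iff_integrableOn_Ioo_of_le hR.le] at h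
    exact h

noncomputable def C0 : ℝ≥0∞ := 1 + ∫⁻ v in ball (0 : ℝ) 1, FF (3 / 4) v

lemma C0_lt : C0 < ⊤ := by
  unfold C0
  rw [ENNReal.add_lt_top]
  refine ⟨ENNReal.one_lt_top, ?_⟩
  have h := (integrableOn_rpow_ball (p := 3 / 4) (R := 1) (by norm_num)).2
  rw [hasFiniteIntegral_iff_enorm] at h
  refine lt_of_eq_of_lt ?_ h
  apply lintegral_congr_ae
  have h0 : ∀ᵐ v : ℝ ∂(volume.restrict (ball 0 1)), v ≠ 0 := by
    apply ae_restrict_of_ae
    rw [ae_iff]; simp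
  filter_upwards [h0] with v hv
  rw [FF_eq hv]

lemma C0_bound (t : ℝ) : ∫⁻ s in Ioc (0 : ℝ) 1, FF (3 / 4) (s - t) ≤ C0 := by
  set G : ℝ → ℝ≥0∞ := (ball (0 : ℝ) 1).indicator (FF (3 / 4)) with hG
  have h1 : ∀ v : ℝ, FF (3 / 4) v ≤ 1 + G v := by
    intro v
    by_cases hv : v ∈ ball (0 : ℝ) 1
    · rw [hG, indicator_of_mem hv]
      exact le_add_self
    · rw [hG, indicator_of_notMem hv, add_zero]
      unfold FF
      rw [ENNReal.inv_le_one]
      rw [mem_ball, dist_zero_right, not_lt] at hv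
      have : (1 : ℝ≥0∞) ≤ ‖v‖ₑ := by
        rw [← ofReal_norm, ← ENNReal.ofReal_one]
        exact ENNReal.ofReal_le_ofReal hv
      exact ENNReal.one_le_rpow this (by norm_num)
  have hGm : Measurable G := (measurable_FF _).indicator measurableSet_ball
  calc ∫⁻ s in Ioc (0 : ℝ) 1, FF (3 / 4) (s - t) ≤ ∫⁻ s in Ioc (0 : ℝ) 1, (1 + G (s - t)) :=
        lintegral_mono fun s => h1 _
    _ = (∫⁻ _s in Ioc (0 : ℝ) 1, 1) + ∫⁻ s in Ioc (0 : ℝ) 1, G (s - t) :=
        lintegral_add_left measurable_const _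
    _ ≤ 1 + ∫⁻ s, G (s - t) := by
        gcongr
        · simp
        · exact Measure.restrict_le_self
    _ = C0 := by
        rw [lintegral_sub_right_eq_self, hG, lintegral_indicator measurableSet_ball]
        rfl

lemma W_near (x : E3) : W x ≤ C0 * (FF (1 / 8) (x 1) * FF (1 / 8) (x 2)) := by
  unfold W
  calc ∫⁻ s in Ioc (0 : ℝ) 1, ‖s • e 0 - x‖ₑ⁻¹
      ≤ ∫⁻ s in Ioc (0 : ℝ) 1, FF (3 / 4) (s - x 0) * (FF (1 / 8) (x 1) * FF (1 / 8) (x 2)) :=
        lintegral_mono fun s => W_integrand s x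
    _ = (∫⁻ s in Ioc (0 : ℝ) 1, FF (3 / 4) (s - x 0)) * (FF (1 / 8) (x 1) * FF (1 / 8) (x 2)) := by
        rw [lintegral_mul_const]
        exact (measurable_FF _).comp (measurable_id.sub_const _)
    _ ≤ _ := by gcongr; exact C0_bound _

lemma W_near4 (x : E3) : W x ^ (4 : ℝ) ≤ C0 ^ (4 : ℝ) * (FF (1 / 2) (x 1) * FF (1 / 2) (x 2)) := by
  have h := ENNReal.rpow_le_rpow (W_near x) (by norm_num : (0 : ℝ) ≤ 4)
  rw [ENNReal.mul_rpow_of_nonneg _ _ (by norm_num), ENNReal.mul_rpow_of_nonneg _ _ (by norm_num)] at h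
  refine h.trans (le_of_eq ?_)
  have h2 : ∀ v : ℝ, FF (1 / 8) v ^ (4 : ℝ) = FF (1 / 2) v := by
    intro v
    unfold FF
    rw [ENNReal.inv_rpow, ← ENNReal.rpow_mul]
    norm_num
  rw [h2, h2]

lemma W_far {x : E3} (hx : 2 ≤ ‖x‖) : W x ≤ ENNReal.ofReal (3 * (1 + ‖x‖)⁻¹) := by
  unfold W
  have h : ∀ s ∈ Ioc (0 : ℝ) 1, ‖s • e 0 - x‖ₑ⁻¹ ≤ ENNReal.ofReal (3 * (1 + ‖x‖)⁻¹) := by
    intro s hs
    have h1 : ‖x‖ - 1 ≤ ‖s • e 0 - x‖ := by
      have h2 := norm_sub_norm_le x (s • e 0)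
      have h3 : ‖s • e 0‖ ≤ 1 := by
        rw [norm_smul, norm_e, mul_one, Real.norm_of_nonneg hs.1.le]
        exact hs.2
      rw [norm_sub_rev] at h2
      linarith
    have h2 : 0 < ‖s • e 0 - x‖ := by linarith
    rw [← ofReal_norm, ← ENNReal.ofReal_inv_of_pos h2]
    apply ENNReal.ofReal_le_ofReal
    rw [inv_le_iff_one_le_mul₀ h2]
    have h3 : 0 < 1 + ‖x‖ := by positivity
    rw [mul_comm 3, mul_assoc, ← div_eq_inv_mul, le_div_iff₀ h3]
    linarith
  calc ∫⁻ s in Ioc (0 : ℝ) 1, ‖s • e 0 - x‖ₑ⁻¹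
      ≤ ∫⁻ s in Ioc (0 : ℝ) 1, ENNReal.ofReal (3 * (1 + ‖x‖)⁻¹) :=
        setLIntegral_mono' measurableSet_Ioc h
    _ = _ := by simp

lemma integrable_prod3 {f : Fin 3 → ℝ → ℝ} (hf : ∀ i, Integrable (f i)) :
    Integrable (fun x : E3 => ∏ i, f i (x i)) := by
  have h1 : Integrable (fun x : Fin 3 → ℝ => ∏ i, f i (x i)) (Measure.pi fun _ => volume) :=
    Integrable.fintype_prod_dep hf
  exact (PiLp.volume_preserving_ofLp (Fin 3)).integrable_comp_of_integrable h1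

lemma ae_coord_ne (i : Fin 3) : ∀ᵐ x : E3, x i ≠ 0 := by
  have h1 : ∀ᵐ y : Fin 3 → ℝ, y i ≠ 0 := by
    rw [ae_iff]
    simp only [not_not]
    exact Measure.pi_hyperplane _ i 0
  exact (PiLp.volume_preserving_ofLp (Fin 3)).quasiMeasurePreserving.ae h1

/-- `W ∈ L⁴` -/
theorem W_fin : ∫⁻ x, W x ^ (4 : ℝ) < ⊤ := by
  set B : Set E3 := closedBall 0 2 with hB
  have hBm : MeasurableSet B := measurableSet_closedBall
  rw [← lintegral_add_compl _ hBm, ENNReal.add_lt_top]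
  constructor
  · -- near part
    let f : Fin 3 → ℝ → ℝ := fun i => (Icc (-2 : ℝ) 2).indicator
      (if i = 0 then fun _ => 1 else fun v => ‖v‖ ^ (-(1 / 2) : ℝ))
    have hf : ∀ i, Integrable (f i) := by
      intro i
      apply IntegrableOn.integrable_indicator _ measurableSet_Icc
      by_cases hi : i = 0
      · simp only [hi, if_true]
        exact integrableOn_const (by simp)
      · simp only [hi, if_false]
        apply (integrableOn_rpow_ball (p := 1 / 2) (R := 3) (by norm_num)).mono_set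
        intro v hv
        rw [mem_ball, dist_zero_right, Real.norm_eq_abs, abs_lt]
        constructor <;> linarith [hv.1, hv.2]
    have hint := (integrable_prod3 hf).2
    rw [hasFiniteIntegral_iff_enorm] at hint
    have hbound : ∫⁻ x in B, W x ^ (4 : ℝ) ≤
        C0 ^ (4 : ℝ) * ∫⁻ x : E3, ‖∏ i, f i (x i)‖ₑ := by
      have hC : C0 ^ (4 : ℝ) ≠ ⊤ := ENNReal.rpow_ne_top_of_nonneg (by norm_num) C0_lt.ne
      rw [← lintegral_const_mul' _ _ hC]
      refine le_trans (lintegral_mono_ae ?_) (setLIntegral_le_lintegral B _)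
      filter_upwards [ae_restrict_of_ae (ae_coord_ne 1), ae_restrict_of_ae (ae_coord_ne 2),
        ae_restrict_mem hBm] with x h1 h2 hx
      refine (W_near4 x).trans ?_
      gcongr
      rw [hB, mem_closedBall, dist_zero_right] at hx
      have hmem : ∀ i, x i ∈ Icc (-2 : ℝ) 2 := by
        intro i
        have := (PiLp.norm_apply_le x i).trans hx
        rw [Real.norm_eq_abs] at this
        exact abs_le.mp this
      rw [Fin.prod_univ_three]
      simp only [f, indicator_of_mem (hmem _)]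
      rw [FF_eq h1, FF_eq h2]
      simp
    refine hbound.trans_lt (ENNReal.mul_lt_top ?_ hint)
    exact ENNReal.rpow_lt_top_of_nonneg (by norm_num) C0_lt.ne
  · -- far part
    have hint := ((integrable_one_add_norm (E := E3) (μ := volume) (r := 4)
      (by simp; norm_num)).const_mul 81).2
    rw [hasFiniteIntegral_iff_enorm] at hint
    refine lt_of_le_of_lt ?_ hint
    refine le_trans (setLIntegral_mono' hBm.compl ?_) (setLIntegral_le_lintegral Bᶜ _)
    intro x hx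
    have hx' : 2 ≤ ‖x‖ := by
      rw [hB, mem_compl_iff, mem_closedBall, dist_zero_right, not_le] at hx
      exact hx.le
    have h1 := ENNReal.rpow_le_rpow (W_far hx') (by norm_num : (0 : ℝ) ≤ 4)
    refine h1.trans (le_of_eq ?_)
    have h3 : 0 < 1 + ‖x‖ := by positivity
    rw [ENNReal.ofReal_rpow_of_nonneg (by positivity) (by norm_num), ← ofReal_norm,
      Real.norm_of_nonneg (by positivity)]
    congr 1
    rw [Real.mul_rpow (by norm_num) (by positivity), Real.inv_rpow h3.le, Real.rpow_neg h3.le]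
    norm_num

end Pool.Agent.H789R2.Cap
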