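import Pool.Agent.H789R2.CapE

set_option autoImplicit false

namespace Pool.Agent.H789R2.Cap

open MeasureTheory Filter Topology Set Metric
open scoped ENNReal ContDiff InnerProductSpace Laplacian

noncomputable def qs (p : E3) (ℓ s : ℝ) : E3 := p + (s * ℓ) • e 0

lemma continuous_qs (p : E3) (ℓ : ℝ) : Continuous (qs p ℓ) := by
  unfold qs; fun_prop

noncomputable def ur (p : E3) (ℓ : ℝ) (x : E3) : ℝ := ∫ s in Ioc (0 : ℝ) 1, Phi (qs p ℓ s - x)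

noncomputable def WW (p : E3) (ℓ : ℝ) (x : E3) : ℝ≥0∞ :=
  ∫⁻ s in Ioc (0 : ℝ) 1, ‖Phi (qs p ℓ s - x)‖ₑ

lemma measurable_Phi : Measurable Phi := by
  unfold Phi; fun_prop

lemma measurable_Phi2 (p : E3) (ℓ : ℝ) : Measurable (fun z : E3 × ℝ => Phi (qs p ℓ z.2 - z.1)) :=
  measurable_Phi.comp ((continuous_qs p ℓ).measurable.comp measurable_snd |>.sub measurable_fst)

lemma measurable_WW (p : E3) (ℓ : ℝ) : Measurable (WW p ℓ) := by
  unfold WW
  have h : Measurable (fun z : E3 × ℝ => ‖Phi (qs p ℓ z.2 - z.1)‖ₑ) := (measurable_Phi2 p ℓ).enorm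
  exact h.lintegral_prod_right'

lemma aesm_ur (p : E3) (ℓ : ℝ) : AEStronglyMeasurable (ur p ℓ) volume := by
  unfold ur
  have h : StronglyMeasurable (fun z : E3 × ℝ => Phi (qs p ℓ z.2 - z.1)) :=
    (measurable_Phi2 p ℓ).stronglyMeasurable
  exact (h.integral_prod_right' (ν := volume.restrict (Ioc (0 : ℝ) 1))).aestronglyMeasurable

lemma ur_le (p : E3) (ℓ : ℝ) (x : E3) : ‖ur p ℓ x‖ₑ ≤ WW p ℓ x :=
  enorm_integral_le_lintegral_enorm _

lemma Phi_le (v : E3) : ‖Phi v‖ₑ ≤ ‖v‖ₑ⁻¹ := by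
  rcases eq_or_ne v 0 with h | h
  · simp [h]
  · have hv : 0 < ‖v‖ := norm_pos_iff.mpr h
    rw [← ofReal_norm, ← ofReal_norm, ← ENNReal.ofReal_inv_of_pos hv]
    apply ENNReal.ofReal_le_ofReal
    unfold Phi
    rw [norm_neg, Real.norm_of_nonneg (by positivity), one_div, mul_inv]
    have h1 : (4 * Real.pi)⁻¹ ≤ 1 := by
      apply inv_le_one_of_one_le₀
      have := Real.pi_gt_three
      linarith
    have h2 : 0 ≤ ‖v‖⁻¹ := by positivity
    nlinarith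

lemma WW_le (p : E3) {ℓ : ℝ} (hℓ : 0 < ℓ) (x : E3) :
    WW p ℓ x ≤ ENNReal.ofReal ℓ⁻¹ * W (ℓ⁻¹ • (x - p)) := by
  unfold WW W
  rw [← lintegral_const_mul' _ _ ENNReal.ofReal_ne_top]
  apply lintegral_mono
  intro s
  refine (Phi_le _).trans (le_of_eq ?_)
  have h1 : qs p ℓ s - x = ℓ • (s • e 0 - ℓ⁻¹ • (x - p)) := by
    unfold qs
    rw [smul_sub, smul_smul, smul_smul, mul_inv_cancel₀ hℓ.ne', one_smul, mul_comm s ℓ]
    abel
  rw [h1, enorm_smul, ENNReal.mul_inv]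
  · congr 1
    rw [← ofReal_norm, Real.norm_of_nonneg hℓ.le, ENNReal.ofReal_inv_of_pos hℓ]
  · left
    simp [hℓ.ne']
  · left
    exact enorm_ne_top

noncomputable def I4 : ℝ≥0∞ := ∫⁻ x, W x ^ (4 : ℝ)

lemma WW_norm (p : E3) {ℓ : ℝ} (hℓ : 0 < ℓ) :
    ∫⁻ x, WW p ℓ x ^ (4 : ℝ) ≤ ENNReal.ofReal ℓ⁻¹ * I4 := by
  calc ∫⁻ x, WW p ℓ x ^ (4 : ℝ)
      ≤ ∫⁻ x, ENNReal.ofReal (ℓ⁻¹ ^ 4) * W (ℓ⁻¹ • (x - p)) ^ (4 : ℝ) := by
        apply lintegral_mono
        intro x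
        refine (ENNReal.rpow_le_rpow (WW_le p hℓ x) (by norm_num : (0 : ℝ) ≤ 4)).trans
          (le_of_eq ?_)
        rw [ENNReal.mul_rpow_of_nonneg _ _ (by norm_num),
          ENNReal.ofReal_rpow_of_nonneg (by positivity) (by norm_num)]
        norm_num
    _ = ENNReal.ofReal (ℓ⁻¹ ^ 4) * ∫⁻ x, W (ℓ⁻¹ • (x - p)) ^ (4 : ℝ) :=
        lintegral_const_mul' _ _ ENNReal.ofReal_ne_top
    _ = ENNReal.ofReal (ℓ⁻¹ ^ 4) * ∫⁻ x, W (ℓ⁻¹ • x) ^ (4 : ℝ) := by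
        rw [lintegral_sub_right_eq_self (fun x => W (ℓ⁻¹ • x) ^ (4 : ℝ)) p]
    _ = ENNReal.ofReal (ℓ⁻¹ ^ 4) * (ENNReal.ofReal (ℓ ^ 3) * I4) := by
        congr 1
        have h1 := Measure.map_addHaar_smul (volume : Measure E3) (r := ℓ⁻¹) (by positivity)
        have h2 : ∫⁻ x, W (ℓ⁻¹ • x) ^ (4 : ℝ) =
            ∫⁻ y, W y ^ (4 : ℝ) ∂(Measure.map (ℓ⁻¹ • ·) (volume : Measure E3)) := by
          rw [lintegral_map (measurable_W.pow_const _) (measurable_const_smul _)]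
        rw [h2, h1, lintegral_smul_measure]
        simp only [finrank_euclideanSpace, Fintype.card_fin, smul_eq_mul]
        congr 2
        rw [inv_pow, inv_inv, abs_of_pos (by positivity)]
    _ = ENNReal.ofReal ℓ⁻¹ * I4 := by
        rw [← mul_assoc, ← ENNReal.ofReal_mul (by positivity)]
        congr 2
        field_simp

lemma I4_lt : I4 < ⊤ := W_fin

/-- the constant -/
noncomputable def M4 : ℝ := (I4 ^ (1 / 4 : ℝ)).toReal + 1

lemma M4_pos : 0 < M4 := by unfold M4; positivity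

lemma WW_eLp (p : E3) {ℓ : ℝ} (hℓ : 0 < ℓ) :
    (∫⁻ x, WW p ℓ x ^ (4 : ℝ)) ^ (1 / 4 : ℝ) ≤ ENNReal.ofReal (M4 * ℓ ^ (-(1 / 4) : ℝ)) := by
  refine (ENNReal.rpow_le_rpow (WW_norm p hℓ) (by norm_num : (0 : ℝ) ≤ 1 / 4)).trans ?_
  rw [ENNReal.mul_rpow_of_nonneg _ _ (by norm_num),
    ENNReal.ofReal_rpow_of_nonneg (by positivity) (by norm_num), mul_comm M4,
    ENNReal.ofReal_mul (by positivity)]
  apply mul_le_mul'
  · apply ENNReal.ofReal_le_ofReal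
    rw [Real.inv_rpow hℓ.le, Real.rpow_neg hℓ.le]
  · have h : I4 ^ (1 / 4 : ℝ) ≠ ⊤ := ENNReal.rpow_ne_top_of_nonneg (by norm_num) I4_lt.ne
    rw [← ENNReal.ofReal_toReal h]
    apply ENNReal.ofReal_le_ofReal
    unfold M4
    linarith

lemma ur_eLp (p : E3) {ℓ : ℝ} (hℓ : 0 < ℓ) :
    eLpNorm (ur p ℓ) 4 volume ≤ ENNReal.ofReal (M4 * ℓ ^ (-(1 / 4) : ℝ)) := by
  rw [eLpNorm_eq_lintegral_rpow_enorm_toReal (by norm_num) (by norm_num)]
  refine le_trans ?_ (WW_eLp p hℓ)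
  simp only [ENNReal.toReal_ofNat]
  gcongr
  exact ur_le p ℓ _

section
variable (𝕜 : Type) [RCLike 𝕜]

/-- integrability on the product -/
lemma integrable_F (p : E3) {ℓ : ℝ} (hℓ : 0 < ℓ) {φ : E3 → 𝕜} (hφ : Continuous φ)
    (hc : HasCompactSupport φ) :
    Integrable (Function.uncurry fun (s : ℝ) (x : E3) => Phi (qs p ℓ s - x) • φ x)
      ((volume.restrict (Ioc (0 : ℝ) 1)).prod volume) := by
  have hmeas : Measurable (fun z : ℝ × E3 => Phi (qs p ℓ z.1 - z.2)) :=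
    measurable_Phi.comp (((continuous_qs p ℓ).measurable.comp measurable_fst).sub measurable_snd)
  have hm : AEStronglyMeasurable (Function.uncurry fun (s : ℝ) (x : E3) =>
      Phi (qs p ℓ s - x) • φ x) ((volume.restrict (Ioc (0 : ℝ) 1)).prod volume) := by
    apply AEStronglyMeasurable.smul
    · exact hmeas.aestronglyMeasurable
    · exact (hφ.comp continuous_snd).aestronglyMeasurable
  refine ⟨hm, ?_⟩
  rw [hasFiniteIntegral_iff_enorm, lintegral_prod_symm _ hm.enorm]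
  have h1 : ∀ x, ∫⁻ s in Ioc (0 : ℝ) 1, ‖Function.uncurry (fun (s : ℝ) (x : E3) =>
      Phi (qs p ℓ s - x) • φ x) (s, x)‖ₑ = ‖φ x‖ₑ * WW p ℓ x := by
    intro x
    unfold WW
    rw [← lintegral_const_mul' _ _ enorm_ne_top]
    refine lintegral_congr fun s => ?_
    rw [Function.uncurry_apply_pair, enorm_smul, mul_comm]
  simp only [h1]
  have h2 := ENNReal.lintegral_mul_le_Lp_mul_Lq volume
    (show (4 / 3 : ℝ).HolderConjugate 4 by rw [Real.holderConjugate_iff]; norm_num)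
    (f := fun x => ‖φ x‖ₑ) (g := WW p ℓ) hφ.aestronglyMeasurable.enorm
    (measurable_WW p ℓ).aemeasurable
  refine lt_of_le_of_lt h2 ?_
  apply ENNReal.mul_lt_top
  · have h3 : MemLp φ pq volume := hφ.memLp_of_hasCompactSupport hc
    have h4 := h3.2
    rw [eLpNorm_eq_lintegral_rpow_enorm_toReal pq_ne_zero pq_ne_top, pq_toReal] at h4
    exact h4
  · exact lt_of_le_of_lt (WW_eLp p hℓ) ENNReal.ofReal_lt_top

lemma pot_seg (p : E3) {ℓ : ℝ} (hℓ : 0 < ℓ) {φ : E3 → 𝕜} (hφ : Continuous φ)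
    (hc : HasCompactSupport φ) :
    ∫ s in Ioc (0 : ℝ) 1, conv 𝕜 φ (qs p ℓ s) = ∫ x, φ x * ((ur p ℓ x : ℝ) : 𝕜) := by
  have h1 : ∀ s, conv 𝕜 φ (qs p ℓ s) = ∫ x, Phi (qs p ℓ s - x) • φ x := by
    intro s
    unfold conv
    rw [← integral_sub_left_eq_self (fun y => Phi y • φ (qs p ℓ s - y)) volume (qs p ℓ s)]
    refine integral_congr_ae (Eventually.of_forall fun x => ?_)
    show _ = _
    simp only [sub_sub_cancel]
  simp only [h1]
  rw [integral_integral_swap (integrable_F 𝕜 p hℓ hφ hc)]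
  refine integral_congr_ae (Eventually.of_forall fun x => ?_)
  show ∫ s in Ioc (0 : ℝ) 1, Phi (qs p ℓ s - x) • φ x = _
  rw [integral_smul_const, RCLike.real_smul_eq_coe_mul, mul_comm]
  rfl

/-- the normalised segment measure -/
noncomputable def Tseg (p : E3) (ℓ κ : ℝ) : Smooth 𝕜 →ₗ[𝕜] 𝕜 where
  toFun ψ := (κ : 𝕜) * ∫ s in Ioc (0 : ℝ) 1, (ψ : E3 → 𝕜) (qs p ℓ s)
  map_add' ψ₁ ψ₂ := by
    have h : ∀ ψ : Smooth 𝕜, IntegrableOn (fun s => (ψ : E3 → 𝕜) (qs p ℓ s)) (Ioc (0 : ℝ) 1) := by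
      intro ψ
      exact (((mem_Smooth.mp ψ.2).continuous.comp (continuous_qs p ℓ)).integrableOn_Icc
        (a := 0) (b := 1)).mono_set Ioc_subset_Icc_self
    rw [Submodule.coe_add]
    simp only [Pi.add_apply]
    rw [integral_add (h ψ₁) (h ψ₂), mul_add]
  map_smul' c ψ := by
    rw [Submodule.coe_smul]
    simp only [Pi.smul_apply, smul_eq_mul, RingHom.id_apply]
    rw [integral_const_mul]
    ring

lemma Tseg_apply (p : E3) (ℓ κ : ℝ) (ψ : Smooth 𝕜) :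
    Tseg 𝕜 p ℓ κ ψ = (κ : 𝕜) * ∫ s in Ioc (0 : ℝ) 1, (ψ : E3 → 𝕜) (qs p ℓ s) := rfl

theorem lower_bound (p : E3) {ℓ : ℝ} (hℓ : 0 < ℓ) (σ : Set E3)
    (hσ : ∀ s ∈ Icc (0 : ℝ) 1, qs p ℓ s ∈ σ) :
    ENNReal.ofReal (M4⁻¹ * ℓ ^ (1 / 4 : ℝ)) ≤ cap 𝕜 σ := by
  set κ : ℝ := M4⁻¹ * ℓ ^ (1 / 4 : ℝ) with hκ
  have hM := M4_pos
  have hκ0 : 0 < κ := by positivity
  set T := Tseg 𝕜 p ℓ κ with hT
  set u : E3 → 𝕜 := fun x => ((κ * ur p ℓ x : ℝ) : 𝕜) with hu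
  have hnorm : eLpNorm u 4 volume ≤ 1 := by
    have h1 : eLpNorm u 4 volume = eLpNorm (fun x => κ * ur p ℓ x) 4 volume := by
      apply eLpNorm_congr_norm_ae
      refine Eventually.of_forall fun x => ?_
      rw [hu]
      simp only [RCLike.norm_ofReal, Real.norm_eq_abs]
    have h2 : eLpNorm (fun x => κ * ur p ℓ x) 4 volume = ‖κ‖ₑ * eLpNorm (ur p ℓ) 4 volume :=
      eLpNorm_const_smul κ (ur p ℓ) 4 volume
    rw [h1, h2, ← ofReal_norm, Real.norm_of_nonneg hκ0.le]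
    calc ENNReal.ofReal κ * eLpNorm (ur p ℓ) 4 volume
        ≤ ENNReal.ofReal κ * ENNReal.ofReal (M4 * ℓ ^ (-(1 / 4) : ℝ)) := by
          gcongr; exact ur_eLp p hℓ
      _ = 1 := by
          rw [← ENNReal.ofReal_mul hκ0.le, hκ]
          rw [show M4⁻¹ * ℓ ^ (1 / 4 : ℝ) * (M4 * ℓ ^ (-(1 / 4) : ℝ)) = 1 by
            rw [Real.rpow_neg hℓ.le]
            have : 0 < ℓ ^ (1 / 4 : ℝ) := by positivity
            field_simp]
          simp
  have hmem : MemLp u 4 volume := by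
    refine ⟨?_, lt_of_le_of_lt hnorm ENNReal.one_lt_top⟩
    rw [hu]
    exact (RCLike.continuous_ofReal (K := 𝕜)).comp_aestronglyMeasurable
      ((aesm_ur p ℓ).const_mul κ)
  have hadm : Admissible σ T u := by
    refine ⟨?_, ?_, fun B _ => hmem.restrict B, ?_, hnorm⟩
    · -- distribution
      refine ⟨qs p ℓ '' Icc 0 1, 0, κ, isCompact_Icc.image (continuous_qs p ℓ), ?_⟩
      intro ψ M hM
      rw [hT, Tseg_apply, norm_mul, RCLike.norm_ofReal, abs_of_pos hκ0]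
      apply mul_le_mul_of_nonneg_left _ hκ0.le
      have h1 : ∀ s ∈ Ioc (0 : ℝ) 1, ‖(ψ : E3 → 𝕜) (qs p ℓ s)‖ ≤ M := by
        intro s hs
        have := hM 0 le_rfl (qs p ℓ s) ⟨s, Ioc_subset_Icc_self hs, rfl⟩
        rwa [norm_iteratedFDeriv_zero] at this
      have h2 := norm_setIntegral_le_of_norm_le_const (μ := volume) (by simp) h1
      simpa using h2
    · -- support
      refine ⟨qs p ℓ '' Icc 0 1, ?_, isCompact_Icc.image (continuous_qs p ℓ), ?_⟩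
      · rintro _ ⟨s, hs, rfl⟩
        exact hσ s hs
      · intro ψ hψ
        rw [hT, Tseg_apply]
        have h1 : ∀ s ∈ Ioc (0 : ℝ) 1, (ψ : E3 → 𝕜) (qs p ℓ s) = 0 := by
          intro s hs
          exact hψ.self_of_nhdsSet _ ⟨s, Ioc_subset_Icc_self hs, rfl⟩
        rw [setIntegral_congr_fun measurableSet_Ioc h1]
        simp
    · -- potential
      intro φ hφ hc
      refine ⟨⟨conv 𝕜 φ, mem_Smooth.mpr (contDiff_conv 𝕜 hφ hc)⟩, rfl, ?_⟩
      rw [hT, Tseg_apply]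
      show _ = (κ : 𝕜) * ∫ s in Ioc (0 : ℝ) 1, conv 𝕜 φ (qs p ℓ s)
      rw [pot_seg 𝕜 p hℓ hφ.continuous hc, ← integral_const_mul]
      refine integral_congr_ae (Eventually.of_forall fun x => ?_)
      show φ x * ((κ * ur p ℓ x : ℝ) : 𝕜) = _
      rw [RCLike.ofReal_mul]
      ring
  have hval : T (one 𝕜) = (κ : 𝕜) := by
    rw [hT, Tseg_apply]
    simp [one]
  calc ENNReal.ofReal κ = ‖T (one 𝕜)‖ₑ := by
        rw [hval, ← ofReal_norm, RCLike.norm_ofReal, abs_of_pos hκ0]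
    _ ≤ cap 𝕜 σ := by
        unfold cap
        exact le_iSup_of_le T (le_iSup_of_le u (le_iSup_of_le hadm le_rfl))

end

end Pool.Agent.H789R2.Cap
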