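import Pool.Agent.H789R2.CapF

set_option autoImplicit false

namespace Pool.Agent.H789R2.Cap

open MeasureTheory Filter Topology Set Metric
open scoped ENNReal ContDiff InnerProductSpace Laplacian

lemma two_le_inf : (2 : WithTop ℕ∞) ≤ ((⊤ : ℕ∞) : WithTop ℕ∞) := by norm_cast

lemma contDiff_coord (i : Fin 3) : ContDiff ℝ ∞ (fun x : E3 => x i) :=
  (EuclideanSpace.proj i : E3 →L[ℝ] ℝ).contDiff

lemma pd_coord {h : ℝ → ℝ} (hh : Differentiable ℝ h) (i j : Fin 3) (x : E3) :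
    pd i (fun x : E3 => h (x j)) x = if j = i then deriv h (x j) else 0 := by
  have h1 : HasFDerivAt (fun x : E3 => x j) (EuclideanSpace.proj j : E3 →L[ℝ] ℝ) x :=
    (EuclideanSpace.proj j : E3 →L[ℝ] ℝ).hasFDerivAt
  have h2 := (hh (x j)).hasDerivAt.comp_hasFDerivAt x h1
  have h3 : fderiv ℝ (fun x : E3 => h (x j)) x = deriv h (x j) • (EuclideanSpace.proj j : E3 →L[ℝ] ℝ) :=
    h2.fderiv
  unfold pd
  rw [h3]
  simp [e_apply]

lemma pd_mul {f g : E3 → ℝ} (hf : Differentiable ℝ f) (hg : Differentiable ℝ g) (i : Fin 3)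
    (x : E3) : pd i (fun x => f x * g x) x = f x * pd i g x + pd i f x * g x := by
  unfold pd
  have h := (hf x).hasFDerivAt.mul (hg x).hasFDerivAt
  have h2 : fderiv ℝ (fun x => f x * g x) x = f x • fderiv ℝ g x + g x • fderiv ℝ f x := h.fderiv
  rw [h2]
  simp
  ring

lemma pd_add {f g : E3 → ℝ} (hf : Differentiable ℝ f) (hg : Differentiable ℝ g) (i : Fin 3)
    (x : E3) : pd i (fun x => f x + g x) x = pd i f x + pd i g x := by
  unfold pd
  rw [fderiv_fun_add (hf x) (hg x)]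
  simp

lemma diff_inf {f : E3 → ℝ} (hf : ContDiff ℝ ∞ f) : Differentiable ℝ f :=
  hf.differentiable (by norm_num)

lemma contDiff_pd' {f : E3 → ℝ} (hf : ContDiff ℝ ∞ f) (i : Fin 3) : ContDiff ℝ ∞ (pd i f) :=
  contDiff_pd (m := ((⊤ : ℕ∞) : WithTop ℕ∞)) hf (by norm_cast) i

lemma lap_mul {f g : E3 → ℝ} (hf : ContDiff ℝ ∞ f) (hg : ContDiff ℝ ∞ g) (x : E3) :
    (Δ (fun x => f x * g x)) x =
      f x * (Δ g) x + 2 * (∑ i, pd i f x * pd i g x) + (Δ f) x * g x := by
  have hfg : ContDiff ℝ ∞ (fun x => f x * g x) := hf.mul hg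
  rw [lap_eq_pd hfg two_le_inf, lap_eq_pd hf two_le_inf, lap_eq_pd hg two_le_inf,
    Finset.mul_sum, Finset.mul_sum, Finset.sum_mul, ← Finset.sum_add_distrib,
    ← Finset.sum_add_distrib]
  refine Finset.sum_congr rfl fun i _ => ?_
  have h1 : pd i (fun x => f x * g x) = fun x => f x * pd i g x + pd i f x * g x :=
    funext fun x => pd_mul (diff_inf hf) (diff_inf hg) i x
  rw [h1, pd_add (diff_inf (hf.mul (contDiff_pd' hg i))) (diff_inf ((contDiff_pd' hf i).mul hg)),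
    pd_mul (diff_inf hf) (diff_inf (contDiff_pd' hg i)),
    pd_mul (diff_inf (contDiff_pd' hf i)) (diff_inf hg)]
  ring

/-- one-dimensional bump function: `1` on `[-1,1]`, supported in `[-2,2]` -/
noncomputable def gb : ContDiffBump (0 : ℝ) := ⟨1, 2, one_pos, one_lt_two⟩

lemma gb_smooth : ContDiff ℝ ∞ (gb : ℝ → ℝ) := gb.contDiff

lemma gb_abs (t : ℝ) : |gb t| ≤ 1 := by
  rw [abs_of_nonneg gb.nonneg]; exact gb.le_one

lemma exists_N : ∃ N : ℝ, 0 < N ∧ (∀ t, |deriv gb t| ≤ N) ∧ ∀ t, |deriv (deriv gb) t| ≤ N := by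
  have h1 : ContDiff ℝ ∞ (deriv gb) := by
    have := gb_smooth
    exact (contDiff_infty_iff_deriv.mp this).2
  have h2 : ContDiff ℝ ∞ (deriv (deriv gb)) := (contDiff_infty_iff_deriv.mp h1).2
  obtain ⟨N1, hN1⟩ := h1.continuous.bounded_above_of_compact_support gb.hasCompactSupport.deriv
  obtain ⟨N2, hN2⟩ := h2.continuous.bounded_above_of_compact_support
    gb.hasCompactSupport.deriv.deriv
  have h10 := (norm_nonneg _).trans (hN1 0)
  have h20 := (norm_nonneg _).trans (hN2 0)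
  refine ⟨N1 + N2 + 1, by linarith, fun t => ?_, fun t => ?_⟩
  · have := hN1 t
    rw [Real.norm_eq_abs] at this
    linarith
  · have := hN2 t
    rw [Real.norm_eq_abs] at this
    linarith

/-- the scaled one-dimensional bump -/
noncomputable def hb (a r : ℝ) (t : ℝ) : ℝ := gb (r⁻¹ * (t - a))

lemma hb_smooth (a r : ℝ) : ContDiff ℝ ∞ (hb a r) :=
  gb_smooth.comp (contDiff_const.mul (contDiff_id.sub contDiff_const))

lemma deriv_scale {f : ℝ → ℝ} (hf : Differentiable ℝ f) (a c : ℝ) :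
    deriv (fun t => f (c * (t - a))) = fun t => c * deriv f (c * (t - a)) := by
  funext t
  have h1 : HasDerivAt (fun t => c * (t - a)) c t := by
    simpa using ((hasDerivAt_id t).sub_const a).const_mul c
  have h2 := (hf (c * (t - a))).hasDerivAt.comp t h1
  rw [show (fun t => f (c * (t - a))) = f ∘ fun t => c * (t - a) from rfl, h2.deriv]
  ring

lemma deriv_hb (a r : ℝ) : deriv (hb a r) = fun t => r⁻¹ * deriv gb (r⁻¹ * (t - a)) :=
  deriv_scale (gb_smooth.differentiable (by norm_num)) a r⁻¹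

lemma deriv2_hb (a r : ℝ) :
    deriv (deriv (hb a r)) = fun t => r⁻¹ ^ 2 * deriv (deriv gb) (r⁻¹ * (t - a)) := by
  rw [deriv_hb]
  have h1 : ContDiff ℝ ∞ (deriv gb) := (contDiff_infty_iff_deriv.mp gb_smooth).2
  have h2 := deriv_scale (h1.differentiable (by norm_num)) a r⁻¹
  funext t
  rw [deriv_const_mul_field, h2]
  ring

/-- the cut-off function of the tube around the line `{x₁ = a, x₂ = 0}` -/
noncomputable def zt (a r : ℝ) (x : E3) : ℝ := hb a r (x 1) * hb 0 r (x 2)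

lemma zt_smooth (a r : ℝ) : ContDiff ℝ ∞ (zt a r) :=
  ((hb_smooth a r).comp (contDiff_coord 1)).mul ((hb_smooth 0 r).comp (contDiff_coord 2))

lemma hbc_smooth (a r : ℝ) (i : Fin 3) : ContDiff ℝ ∞ (fun x : E3 => hb a r (x i)) :=
  (hb_smooth a r).comp (contDiff_coord i)

lemma hb_diff (a r : ℝ) : Differentiable ℝ (hb a r) := (hb_smooth a r).differentiable (by norm_num)

lemma dhb_smooth (a r : ℝ) : ContDiff ℝ ∞ (deriv (hb a r)) :=
  (contDiff_infty_iff_deriv.mp (hb_smooth a r)).2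

lemma lap_hbc (a r : ℝ) (j : Fin 3) (x : E3) :
    (Δ (fun x : E3 => hb a r (x j))) x = deriv (deriv (hb a r)) (x j) := by
  rw [lap_eq_pd (hbc_smooth a r j) two_le_inf]
  have h1 : ∀ i, pd i (pd i (fun x : E3 => hb a r (x j))) x =
      if j = i then deriv (deriv (hb a r)) (x j) else 0 := by
    intro i
    have h2 : pd i (fun x : E3 => hb a r (x j)) = fun x => if j = i then deriv (hb a r) (x j) else 0 :=
      funext fun x => pd_coord (hb_diff a r) i j x
    rw [h2]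
    by_cases hij : j = i
    · simp only [hij, if_true]
      rw [pd_coord ((dhb_smooth a r).differentiable (by norm_num)) i i x, if_pos rfl]
    · simp only [hij, if_false]
      unfold pd
      simp
  simp only [h1]
  simp

lemma sum_pd_hbc (a r : ℝ) (x : E3) :
    ∑ i, pd i (fun x : E3 => hb a r (x 1)) x * pd i (fun x : E3 => hb 0 r (x 2)) x = 0 := by
  apply Finset.sum_eq_zero
  intro i _
  rw [pd_coord (hb_diff a r), pd_coord (hb_diff 0 r)]
  by_cases h : (1 : Fin 3) = i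
  · subst h
    simp
  · simp [h]

lemma lap_zt (a r : ℝ) (x : E3) : (Δ (zt a r)) x =
    hb a r (x 1) * deriv (deriv (hb 0 r)) (x 2) + deriv (deriv (hb a r)) (x 1) * hb 0 r (x 2) := by
  have := lap_mul (hbc_smooth a r 1) (hbc_smooth 0 r 2) x
  rw [sum_pd_hbc, lap_hbc, lap_hbc] at this
  unfold zt
  rw [this]
  ring

lemma pd_zt (a r : ℝ) (i : Fin 3) (x : E3) : pd i (zt a r) x =
    hb a r (x 1) * (if (2 : Fin 3) = i then deriv (hb 0 r) (x 2) else 0) +
      (if (1 : Fin 3) = i then deriv (hb a r) (x 1) else 0) * hb 0 r (x 2) := by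
  unfold zt
  rw [pd_mul (diff_inf (hbc_smooth a r 1)) (diff_inf (hbc_smooth 0 r 2)),
    pd_coord (hb_diff a r), pd_coord (hb_diff 0 r)]

lemma hb_abs (a r t : ℝ) : |hb a r t| ≤ 1 := gb_abs _

/-- admissible functions for the construction -/
def Good (φ : E3 → ℝ) : Prop :=
  ContDiff ℝ ∞ φ ∧ (∀ x : E3, φ x ≠ 0 → ∀ i, |x i| ≤ 1) ∧ ∀ x : E3, x 2 = 0 → φ x = 0

lemma zt_support {a r : ℝ} (hr : 0 < r) {x : E3} (hx : zt a r x ≠ 0) :
    |x 1 - a| ≤ 2 * r ∧ |x 2| ≤ 2 * r := by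
  have key : ∀ (b t : ℝ), hb b r t ≠ 0 → |t - b| ≤ 2 * r := by
    intro b t h
    have h1 : r⁻¹ * (t - b) ∈ Function.support (gb : ℝ → ℝ) := h
    rw [gb.support_eq, mem_ball, dist_zero_right, Real.norm_eq_abs, abs_mul,
      abs_of_pos (inv_pos.mpr hr)] at h1
    have h2 : r⁻¹ * |t - b| < 2 := h1
    rw [inv_mul_lt_iff₀ hr] at h2
    linarith
  unfold zt at hx
  have h1 := key a (x 1) (left_ne_zero_of_mul hx)
  have h2 := key 0 (x 2) (right_ne_zero_of_mul hx)
  rw [sub_zero] at h2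
  exact ⟨h1, h2⟩

lemma zt_one {a r : ℝ} (hr : 0 < r) {x : E3} (h1 : |x 1 - a| ≤ r) (h2 : |x 2| ≤ r) :
    zt a r x = 1 := by
  have key : ∀ (b t : ℝ), |t - b| ≤ r → hb b r t = 1 := by
    intro b t h
    apply gb.one_of_mem_closedBall
    rw [mem_closedBall, dist_zero_right, Real.norm_eq_abs, abs_mul, abs_of_pos (inv_pos.mpr hr)]
    show r⁻¹ * |t - b| ≤ 1
    rw [inv_mul_le_iff₀ hr]
    linarith
  unfold zt
  rw [key a _ h1, key 0 _ (by rwa [sub_zero]), one_mul]

lemma good_step {φ : E3 → ℝ} (hφ : Good φ) (a r : ℝ) : Good (fun x => φ x - φ x * zt a r x) := by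
  obtain ⟨h1, h2, h3⟩ := hφ
  refine ⟨h1.sub (h1.mul (zt_smooth a r)), ?_, ?_⟩
  · intro x hx
    apply h2
    intro h
    apply hx
    simp only [h]; ring
  · intro x hx
    simp only [h3 x hx]; ring

/-- the closed cube -/
def Q : Set E3 := {x | ∀ i, |x i| ≤ 1}

lemma mem_Q {x : E3} : x ∈ Q ↔ ∀ i, |x i| ≤ 1 := by
  unfold Q; simp

lemma isClosed_Q : IsClosed Q := by
  have : Q = ⋂ i, {x : E3 | |x i| ≤ 1} := by
    ext x; simp [mem_Q]
  rw [this]
  refine isClosed_iInter fun i => ?_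
  exact isClosed_le (contDiff_coord i).continuous.abs continuous_const

lemma Q_subset : Q ⊆ closedBall 0 2 := by
  intro x hx
  rw [mem_closedBall, dist_zero_right]
  have h1 : ‖x‖ ^ 2 ≤ 3 := by
    rw [norm_sq_eq, Fin.sum_univ_three]
    have h := fun i => sq_le_one_iff_abs_le_one (x i) |>.mpr (mem_Q.mp hx i)
    linarith [h 0, h 1, h 2]
  nlinarith [norm_nonneg x]

lemma isCompact_Q : IsCompact Q :=
  (isCompact_closedBall (0 : E3) 2).of_isClosed_subset isClosed_Q Q_subset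

lemma good_compact {φ : E3 → ℝ} (hφ : Good φ) : HasCompactSupport φ := by
  apply HasCompactSupport.intro isCompact_Q
  intro x hx
  by_contra h
  exact hx (mem_Q.mpr (hφ.2.1 x h))

/-- the box around the tube -/
def Bx (a r : ℝ) : Set E3 := {x | |x 0| ≤ 1 ∧ |x 1 - a| ≤ 2 * r ∧ |x 2| ≤ 2 * r}

lemma mem_Bx {a r : ℝ} {x : E3} : x ∈ Bx a r ↔ |x 0| ≤ 1 ∧ |x 1 - a| ≤ 2 * r ∧ |x 2| ≤ 2 * r := by
  unfold Bx; simp

lemma isClosed_Bx (a r : ℝ) : IsClosed (Bx a r) := by
  have : Bx a r = {x : E3 | |x 0| ≤ 1} ∩ ({x : E3 | |x 1 - a| ≤ 2 * r} ∩ {x : E3 | |x 2| ≤ 2 * r}) := by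
    ext x; simp [mem_Bx]
  rw [this]
  refine IsClosed.inter ?_ (IsClosed.inter ?_ ?_)
  · exact isClosed_le (contDiff_coord 0).continuous.abs continuous_const
  · exact isClosed_le ((contDiff_coord 1).continuous.sub continuous_const).abs continuous_const
  · exact isClosed_le (contDiff_coord 2).continuous.abs continuous_const

lemma vol_Bx (a : ℝ) {r : ℝ} (hr : 0 < r) : volume (Bx a r) = ENNReal.ofReal (32 * r ^ 2) := by
  let s : Fin 3 → Set ℝ := ![Icc (-1) 1, Icc (a - 2 * r) (a + 2 * r), Icc (-(2 * r)) (2 * r)]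
  have h1 : Bx a r = (fun x : E3 => (x : Fin 3 → ℝ)) ⁻¹' (Set.pi univ s) := by
    ext x
    rw [mem_Bx, mem_preimage, Set.mem_pi]
    constructor
    · rintro ⟨h1, h2, h3⟩ i _
      rw [abs_le] at h1 h2 h3
      fin_cases i
      · exact h1
      · exact ⟨by show a - 2 * r ≤ x 1; linarith, by show x 1 ≤ a + 2 * r; linarith⟩
      · exact h3
    · intro h
      have h1 : x 0 ∈ Icc (-1 : ℝ) 1 := h 0 (mem_univ _)
      have h2 : x 1 ∈ Icc (a - 2 * r) (a + 2 * r) := h 1 (mem_univ _)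
      have h3 : x 2 ∈ Icc (-(2 * r)) (2 * r) := h 2 (mem_univ _)
      refine ⟨abs_le.mpr h1, abs_le.mpr ⟨?_, ?_⟩, abs_le.mpr h3⟩
      · linarith [h2.1]
      · linarith [h2.2]
  have hm : MeasurableSet (Set.pi univ s) := by
    apply MeasurableSet.univ_pi
    intro i
    fin_cases i <;> simp [s]
  rw [h1]
  have h2 := (PiLp.volume_preserving_ofLp (Fin 3)).measure_preimage hm.nullMeasurableSet
  refine h2.trans ?_
  rw [volume_pi_pi, Fin.prod_univ_three]
  have e0 : volume (s 0) = ENNReal.ofReal 2 := by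
    show volume (Icc (-1 : ℝ) 1) = _
    rw [Real.volume_Icc]; norm_num
  have e1 : volume (s 1) = ENNReal.ofReal (4 * r) := by
    show volume (Icc (a - 2 * r) (a + 2 * r)) = _
    rw [Real.volume_Icc]; congr 1; ring
  have e2 : volume (s 2) = ENNReal.ofReal (4 * r) := by
    show volume (Icc (-(2 * r)) (2 * r)) = _
    rw [Real.volume_Icc]; congr 1; ring
  rw [e0, e1, e2, ← ENNReal.ofReal_mul (by norm_num), ← ENNReal.ofReal_mul (by positivity)]
  congr 1
  ring

end Pool.Agent.H789R2.Cap
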