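import Pool.Agent.H789R2.CapG

set_option autoImplicit false

namespace Pool.Agent.H789R2.Cap

open MeasureTheory Filter Topology Set Metric
open scoped ENNReal ContDiff InnerProductSpace Laplacian

lemma support_step {φ : E3 → ℝ} (hφ : Good φ) (a : ℝ) {r : ℝ} (hr : 0 < r) :
    Function.support (Δ (fun x => φ x * zt a r x)) ⊆ Bx a r := by
  have h1 : Function.support (fun x => φ x * zt a r x) ⊆ Bx a r := by
    intro x hx
    have hx1 : φ x ≠ 0 := left_ne_zero_of_mul hx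
    have hx2 : zt a r x ≠ 0 := right_ne_zero_of_mul hx
    have h3 := zt_support hr hx2
    exact mem_Bx.mpr ⟨hφ.2.1 x hx1 0, h3.1, h3.2⟩
  have h2 := tsupport_lap_subset (fun x => φ x * zt a r x)
  exact (subset_tsupport _).trans (h2.trans (closure_minimal h1 (isClosed_Bx a r)))

lemma abs_hb_le (a r t : ℝ) : |hb a r t| ≤ 1 := gb_abs _

lemma step_bound {φ : E3 → ℝ} (hφ : Good φ) (a : ℝ) : ∃ C : ℝ, 0 < C ∧ ∀ r : ℝ, 0 < r → r ≤ 1 →
    ∀ x, ‖(Δ (fun x => φ x * zt a r x)) x‖ ≤ C * r⁻¹ := by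
  obtain ⟨N, hN0, hN1, hN2⟩ := exists_N
  have hc := good_compact hφ
  obtain ⟨A, hA⟩ := (hφ.1.continuous_fderiv (by norm_num)).bounded_above_of_compact_support
    (hc.fderiv ℝ)
  have hA0 : 0 ≤ A := (norm_nonneg _).trans (hA 0)
  obtain ⟨A2, hA2⟩ := (continuous_lap hφ.1 two_le_inf).bounded_above_of_compact_support
    (hasCompactSupport_lap hc)
  have hA20 : 0 ≤ A2 := (norm_nonneg _).trans (hA2 0)
  refine ⟨16 * A * N + A2 + 1, by positivity, ?_⟩
  intro r hr hr1 x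
  have hr' : 0 < r⁻¹ := inv_pos.mpr hr
  have hr1' : 1 ≤ r⁻¹ := (one_le_inv₀ hr).mpr hr1
  by_cases hx : x ∈ Bx a r
  swap
  · have : (Δ (fun x => φ x * zt a r x)) x = 0 := by
      by_contra h
      exact hx (support_step hφ a hr h)
    rw [this, norm_zero]
    positivity
  obtain ⟨_, _, hx2⟩ := mem_Bx.mp hx
  have hd1 : ∀ b t, |deriv (hb b r) t| ≤ r⁻¹ * N := by
    intro b t
    rw [deriv_hb]
    show |r⁻¹ * _| ≤ _
    rw [abs_mul, abs_of_pos hr']
    exact mul_le_mul_of_nonneg_left (hN1 _) hr'.le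
  have hd2 : ∀ b t, |deriv (deriv (hb b r)) t| ≤ r⁻¹ ^ 2 * N := by
    intro b t
    rw [deriv2_hb]
    show |r⁻¹ ^ 2 * _| ≤ _
    rw [abs_mul, abs_of_pos (by positivity)]
    exact mul_le_mul_of_nonneg_left (hN2 _) (by positivity)
  have hpφ : ∀ i, |pd i φ x| ≤ A := by
    intro i
    unfold pd
    rw [← Real.norm_eq_abs]
    refine ((fderiv ℝ φ x).le_opNorm _).trans ?_
    rw [norm_e, mul_one]
    exact hA x
  have hφx : |φ x| ≤ A * (2 * r) := by
    set y : E3 := x - (x 2) • e 2 with hy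
    have hy2 : y 2 = 0 := by
      rw [hy]; simp [e_apply]
    have h1 : ‖φ x - φ y‖ ≤ A * ‖x - y‖ :=
      Convex.norm_image_sub_le_of_norm_fderiv_le (𝕜 := ℝ) (s := univ)
        (fun z _ => (hφ.1.differentiable (by norm_num)) z) (fun z _ => hA z) convex_univ
        (mem_univ _) (mem_univ _)
    rw [hφ.2.2 y hy2, sub_zero, Real.norm_eq_abs] at h1
    refine h1.trans ?_
    apply mul_le_mul_of_nonneg_left _ hA0
    rw [hy, sub_sub_cancel, norm_smul, norm_e, mul_one, Real.norm_eq_abs]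
    exact hx2
  have hpz : ∀ i, |pd i (zt a r) x| ≤ 2 * (r⁻¹ * N) := by
    intro i
    rw [pd_zt]
    have h1 : |hb a r (x 1) * (if (2 : Fin 3) = i then deriv (hb 0 r) (x 2) else 0)| ≤
        1 * (r⁻¹ * N) := by
      rw [abs_mul]
      apply mul_le_mul (abs_hb_le _ _ _) _ (abs_nonneg _) zero_le_one
      split_ifs
      · exact hd1 _ _
      · rw [abs_zero]; positivity
    have h2 : |(if (1 : Fin 3) = i then deriv (hb a r) (x 1) else 0) * hb 0 r (x 2)| ≤
        (r⁻¹ * N) * 1 := by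
      rw [abs_mul]
      apply mul_le_mul _ (abs_hb_le _ _ _) (abs_nonneg _) (by positivity)
      split_ifs
      · exact hd1 _ _
      · rw [abs_zero]; positivity
    refine (abs_add_le _ _).trans ?_
    linarith
  have hlz : |(Δ (zt a r)) x| ≤ 2 * (r⁻¹ ^ 2 * N) := by
    rw [lap_zt]
    have h1 : |hb a r (x 1) * deriv (deriv (hb 0 r)) (x 2)| ≤ 1 * (r⁻¹ ^ 2 * N) := by
      rw [abs_mul]
      exact mul_le_mul (abs_hb_le _ _ _) (hd2 _ _) (abs_nonneg _) zero_le_one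
    have h2 : |deriv (deriv (hb a r)) (x 1) * hb 0 r (x 2)| ≤ (r⁻¹ ^ 2 * N) * 1 := by
      rw [abs_mul]
      exact mul_le_mul (hd2 _ _) (abs_hb_le _ _ _) (abs_nonneg _) (by positivity)
    refine (abs_add_le _ _).trans ?_
    linarith
  have hz : |zt a r x| ≤ 1 := by
    unfold zt
    rw [abs_mul]
    exact mul_le_one₀ (abs_hb_le _ _ _) (abs_nonneg _) (abs_hb_le _ _ _)
  rw [lap_mul hφ.1 (zt_smooth a r), Real.norm_eq_abs]
  have t1 : |φ x * (Δ (zt a r)) x| ≤ 4 * A * N * r⁻¹ := by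
    rw [abs_mul]
    calc |φ x| * |(Δ (zt a r)) x| ≤ (A * (2 * r)) * (2 * (r⁻¹ ^ 2 * N)) :=
          mul_le_mul hφx hlz (abs_nonneg _) (by positivity)
      _ = 4 * A * N * r⁻¹ := by field_simp; ring
  have t2 : |2 * ∑ i, pd i φ x * pd i (zt a r) x| ≤ 12 * A * N * r⁻¹ := by
    rw [abs_mul, abs_two]
    have h1 : |∑ i, pd i φ x * pd i (zt a r) x| ≤ ∑ _i : Fin 3, A * (2 * (r⁻¹ * N)) := by
      refine (Finset.abs_sum_le_sum_abs _ _).trans (Finset.sum_le_sum fun i _ => ?_)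
      rw [abs_mul]
      exact mul_le_mul (hpφ i) (hpz i) (abs_nonneg _) hA0
    simp only [Finset.sum_const, Finset.card_univ, Fintype.card_fin, nsmul_eq_mul] at h1
    push_cast at h1
    linarith
  have t3 : |(Δ φ) x * zt a r x| ≤ A2 := by
    rw [abs_mul]
    have := hA2 x
    rw [Real.norm_eq_abs] at this
    calc |(Δ φ) x| * |zt a r x| ≤ A2 * 1 := mul_le_mul this hz (abs_nonneg _) hA20
      _ = A2 := mul_one _
  refine (abs_add_le _ _).trans ?_
  refine (add_le_add (abs_add_le _ _) le_rfl).trans ?_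
  have : A2 ≤ A2 * r⁻¹ := le_mul_of_one_le_right hA20 hr1'
  nlinarith

lemma step_choice {φ : E3 → ℝ} (hφ : Good φ) (a : ℝ) {ε : ℝ} (hε : 0 < ε) :
    ∃ r : ℝ, 0 < r ∧ r < ε ∧
      eLpNorm (Δ (fun x => φ x * zt a r x)) pq volume ≤ ENNReal.ofReal ε ∧
      eLpNorm (Δ (fun x => φ x * zt a r x)) 1 volume ≤ ENNReal.ofReal ε := by
  obtain ⟨C, hC0, hC⟩ := step_bound hφ a
  set r : ℝ := min (min 1 (ε / 2)) ((ε / (32 * C + 1)) ^ 2) with hr
  have hr0 : 0 < r := by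
    rw [hr]
    apply lt_min (lt_min one_pos (by linarith))
    positivity
  have hr1 : r ≤ 1 := (min_le_left _ _).trans (min_le_left _ _)
  have hr2 : r < ε := by
    have : r ≤ ε / 2 := (min_le_left _ _).trans (min_le_right _ _)
    linarith
  have hr3 : r ^ (1 / 2 : ℝ) ≤ ε / (32 * C + 1) := by
    have h1 : r ≤ (ε / (32 * C + 1)) ^ 2 := min_le_right _ _
    calc r ^ (1 / 2 : ℝ) ≤ ((ε / (32 * C + 1)) ^ 2) ^ (1 / 2 : ℝ) :=
          Real.rpow_le_rpow hr0.le h1 (by norm_num)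
      _ = ε / (32 * C + 1) := by
          rw [← Real.rpow_natCast _ 2, ← Real.rpow_mul (by positivity)]
          norm_num
  have hr4 : 32 * C * r ^ (1 / 2 : ℝ) ≤ ε := by
    calc 32 * C * r ^ (1 / 2 : ℝ) ≤ 32 * C * (ε / (32 * C + 1)) := by gcongr
      _ = ε * (32 * C / (32 * C + 1)) := by ring
      _ ≤ ε * 1 := by
          gcongr
          rw [div_le_one (by positivity)]
          linarith
      _ = ε := mul_one _
  refine ⟨r, hr0, hr2, ?_, ?_⟩
  · refine (eLpNorm_le_sup (support_step hφ a hr0) (hC r hr0 hr1)).trans ?_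
    rw [vol_Bx a hr0, pq_toReal, ENNReal.ofReal_rpow_of_nonneg (by positivity) (by norm_num),
      ← ENNReal.ofReal_mul (by positivity)]
    apply ENNReal.ofReal_le_ofReal
    refine le_trans ?_ hr4
    have h1 : (32 * r ^ 2) ^ ((4 / 3 : ℝ)⁻¹) ≤ 32 * (r * r ^ (1 / 2 : ℝ)) := by
      rw [Real.mul_rpow (by norm_num) (by positivity)]
      have h2 : (r ^ 2) ^ ((4 / 3 : ℝ)⁻¹) = r * r ^ (1 / 2 : ℝ) := by
        nth_rewrite 2 [← Real.rpow_one r]
        rw [← Real.rpow_natCast r 2, ← Real.rpow_mul hr0.le, ← Real.rpow_add hr0]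
        norm_num
      rw [h2]
      have h3 : (32 : ℝ) ^ ((4 / 3 : ℝ)⁻¹) ≤ 32 := by
        calc (32 : ℝ) ^ ((4 / 3 : ℝ)⁻¹) ≤ 32 ^ (1 : ℝ) :=
              Real.rpow_le_rpow_of_exponent_le (by norm_num) (by norm_num)
          _ = 32 := Real.rpow_one _
      gcongr
    calc C * r⁻¹ * (32 * r ^ 2) ^ ((4 / 3 : ℝ)⁻¹) ≤ C * r⁻¹ * (32 * (r * r ^ (1 / 2 : ℝ))) := by
          gcongr
      _ = 32 * C * r ^ (1 / 2 : ℝ) := by field_simp
  · refine (eLpNorm_le_sup (support_step hφ a hr0) (hC r hr0 hr1)).trans ?_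
    rw [vol_Bx a hr0]
    simp only [ENNReal.toReal_one, inv_one, ENNReal.rpow_one]
    rw [← ENNReal.ofReal_mul (by positivity)]
    apply ENNReal.ofReal_le_ofReal
    refine le_trans ?_ hr4
    have h1 : r ≤ r ^ (1 / 2 : ℝ) := by
      calc r = r ^ (1 : ℝ) := (Real.rpow_one r).symm
        _ ≤ r ^ (1 / 2 : ℝ) := Real.rpow_le_rpow_of_exponent_ge hr0 hr1 (by norm_num)
    calc C * r⁻¹ * (32 * r ^ 2) = 32 * C * r := by field_simp
      _ ≤ 32 * C * r ^ (1 / 2 : ℝ) := by gcongr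

end Pool.Agent.H789R2.Cap
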