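import Pool.Agent.H789R2.CapH

set_option autoImplicit false

namespace Pool.Agent.H789R2.Cap

open MeasureTheory Filter Topology Set Metric
open scoped ENNReal ContDiff InnerProductSpace Laplacian

lemma dsmooth {h : ℝ → ℝ} (hh : ContDiff ℝ ∞ h) : ContDiff ℝ ∞ (deriv h) :=
  (contDiff_infty_iff_deriv.mp hh).2

lemma dsmooth_diff {h : ℝ → ℝ} (hh : ContDiff ℝ ∞ h) : Differentiable ℝ h :=
  hh.differentiable (by norm_num)

lemma coordc_smooth {h : ℝ → ℝ} (hh : ContDiff ℝ ∞ h) (j : Fin 3) :
    ContDiff ℝ ∞ (fun x : E3 => h (x j)) := hh.comp (contDiff_coord j)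

lemma lap_coord {h : ℝ → ℝ} (hh : ContDiff ℝ ∞ h) (j : Fin 3) (x : E3) :
    (Δ (fun x : E3 => h (x j))) x = deriv (deriv h) (x j) := by
  rw [lap_eq_pd (coordc_smooth hh j) two_le_inf]
  have h1 : ∀ i, pd i (pd i (fun x : E3 => h (x j))) x =
      if j = i then deriv (deriv h) (x j) else 0 := by
    intro i
    have h2 : pd i (fun x : E3 => h (x j)) = fun x => if j = i then deriv h (x j) else 0 :=
      funext fun x => pd_coord (dsmooth_diff hh) i j x
    rw [h2]
    by_cases hij : j = i
    · simp only [hij, if_true]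
      rw [pd_coord (dsmooth_diff (dsmooth hh)) i i x, if_pos rfl]
    · simp only [hij, if_false]
      unfold pd
      simp
  simp only [h1]
  simp

lemma lap_prod3 {h0 h1 h2 : ℝ → ℝ} (hh0 : ContDiff ℝ ∞ h0) (hh1 : ContDiff ℝ ∞ h1)
    (hh2 : ContDiff ℝ ∞ h2) (x : E3) :
    (Δ (fun x : E3 => h0 (x 0) * (h1 (x 1) * h2 (x 2)))) x =
      deriv (deriv h0) (x 0) * h1 (x 1) * h2 (x 2) + h0 (x 0) * deriv (deriv h1) (x 1) * h2 (x 2) +
        h0 (x 0) * h1 (x 1) * deriv (deriv h2) (x 2) := by
  have c0 := coordc_smooth hh0 0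
  have c1 := coordc_smooth hh1 1
  have c2 := coordc_smooth hh2 2
  rw [lap_mul c0 (c1.mul c2), lap_mul c1 c2, lap_coord hh0, lap_coord hh1, lap_coord hh2]
  have e1 : ∑ i, pd i (fun x : E3 => h1 (x 1)) x * pd i (fun x : E3 => h2 (x 2)) x = 0 := by
    apply Finset.sum_eq_zero
    intro i _
    rw [pd_coord (dsmooth_diff hh1), pd_coord (dsmooth_diff hh2)]
    by_cases h : (1 : Fin 3) = i
    · subst h; simp
    · simp [h]
  have e2 : ∑ i, pd i (fun x : E3 => h0 (x 0)) x *
      pd i (fun x : E3 => h1 (x 1) * h2 (x 2)) x = 0 := by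
    apply Finset.sum_eq_zero
    intro i _
    rw [pd_coord (dsmooth_diff hh0), pd_mul (diff_inf c1) (diff_inf c2),
      pd_coord (dsmooth_diff hh1), pd_coord (dsmooth_diff hh2)]
    by_cases h : (0 : Fin 3) = i
    · subst h; simp
    · simp [h]
  rw [e1, e2]
  ring

lemma integral_prod3 (F0 F1 F2 : ℝ → ℝ) :
    ∫ x : E3, F0 (x 0) * F1 (x 1) * F2 (x 2) = (∫ t, F0 t) * (∫ t, F1 t) * ∫ t, F2 t := by
  let F : Fin 3 → ℝ → ℝ := ![F0, F1, F2]
  have h1 := integral_fintype_prod_volume_eq_prod (𝕜 := ℝ) F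
  rw [Fin.prod_univ_three] at h1
  have h2 := (PiLp.volume_preserving_ofLp (Fin 3)).integral_comp
    (MeasurableEquiv.measurableEmbedding (MeasurableEquiv.toLp 2 (Fin 3 → ℝ)).symm)
    (fun x : Fin 3 → ℝ => ∏ i, F i (x i))
  have h3 : ∀ x : E3, F0 (x 0) * F1 (x 1) * F2 (x 2) = ∏ i, F i (x i) := by
    intro x
    rw [Fin.prod_univ_three]
    rfl
  simp only [h3]
  exact h2.trans h1

/-- one-dimensional bump function supported in `(-1,1)` -/
noncomputable def g0 : ContDiffBump (0 : ℝ) := ⟨1 / 2, 1, by norm_num, by norm_num⟩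

lemma g0_smooth : ContDiff ℝ ∞ (g0 : ℝ → ℝ) := g0.contDiff

lemma g0_compact : HasCompactSupport (g0 : ℝ → ℝ) := g0.hasCompactSupport

noncomputable def kk (t : ℝ) : ℝ := t * g0 t

lemma kk_smooth : ContDiff ℝ ∞ kk := contDiff_id.mul g0_smooth

lemma kk_compact : HasCompactSupport kk := g0_compact.mul_left

lemma g0_abs {t : ℝ} (h : g0 t ≠ 0) : |t| ≤ 1 := by
  have h1 : t ∈ Function.support (g0 : ℝ → ℝ) := h
  rw [g0.support_eq, mem_ball, dist_zero_right, Real.norm_eq_abs] at h1
  exact h1.le

noncomputable def phi0 (x : E3) : ℝ := g0 (x 0) * (g0 (x 1) * kk (x 2))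

lemma good_phi0 : Good phi0 := by
  refine ⟨?_, ?_, ?_⟩
  · exact (coordc_smooth g0_smooth 0).mul
      ((coordc_smooth g0_smooth 1).mul (coordc_smooth kk_smooth 2))
  · intro x hx i
    unfold phi0 at hx
    have h0 := g0_abs (left_ne_zero_of_mul hx)
    have h12 := right_ne_zero_of_mul hx
    have h1 := g0_abs (left_ne_zero_of_mul h12)
    have h2 := g0_abs (right_ne_zero_of_mul (right_ne_zero_of_mul h12))
    fin_cases i
    · exact h0
    · exact h1
    · exact h2
  · intro x hx
    unfold phi0 kk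
    rw [hx]
    ring

lemma integral_deriv_zero {h : ℝ → ℝ} (hh : ContDiff ℝ ∞ h) (hc : HasCompactSupport h) :
    ∫ t, deriv h t = 0 := by
  have h1 := hc.integral_Ioi_deriv_eq (hh.of_le (by norm_cast)) 0
  have h2 := hc.integral_Iic_deriv_eq (hh.of_le (by norm_cast)) 0
  have hint : Integrable (deriv h) :=
    (dsmooth hh).continuous.integrable_of_hasCompactSupport hc.deriv
  rw [← intervalIntegral.integral_Iic_add_Ioi (b := 0) hint.integrableOn hint.integrableOn, h1, h2]
  ring

lemma integral_sign {h : ℝ → ℝ} (hh : ContDiff ℝ ∞ h) (hc : HasCompactSupport h) :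
    ∫ t, deriv h t * Real.sign t = -2 * h 0 := by
  have h1 := hc.integral_Ioi_deriv_eq (hh.of_le (by norm_cast)) 0
  have h2 := hc.integral_Iic_deriv_eq (hh.of_le (by norm_cast)) 0
  have hint : Integrable (deriv h) :=
    (dsmooth hh).continuous.integrable_of_hasCompactSupport hc.deriv
  have hsm : Measurable Real.sign := by
    have : Real.sign = fun r : ℝ => if r < 0 then -1 else if 0 < r then 1 else 0 := by
      funext r; rfl
    rw [this]
    exact Measurable.ite measurableSet_Iio measurable_const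
      (Measurable.ite measurableSet_Ioi measurable_const measurable_const)
  have hint2 : Integrable (fun t => deriv h t * Real.sign t) := by
    apply hint.mul_bdd (c := 1) hsm.aestronglyMeasurable
    refine Eventually.of_forall fun t => ?_
    rcases Real.sign_apply_eq t with h | h | h <;> simp [h]
  rw [← intervalIntegral.integral_Iic_add_Ioi (b := 0) hint2.integrableOn hint2.integrableOn]
  have e1 : ∫ t in Ioi (0 : ℝ), deriv h t * Real.sign t = ∫ t in Ioi (0 : ℝ), deriv h t := by
    refine setIntegral_congr_fun measurableSet_Ioi fun t ht => ?_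
    simp only [Real.sign_of_pos ht, mul_one]
  have e2 : ∫ t in Iic (0 : ℝ), deriv h t * Real.sign t = -∫ t in Iic (0 : ℝ), deriv h t := by
    rw [integral_Iic_eq_integral_Iio, integral_Iic_eq_integral_Iio, ← integral_neg]
    refine setIntegral_congr_fun measurableSet_Iio fun t ht => ?_
    simp only [Real.sign_of_neg ht]
    ring
  rw [e1, e2, h1, h2]
  ring

lemma kk_deriv : deriv kk 0 = 1 := by
  have h1 : HasDerivAt (g0 : ℝ → ℝ) (deriv g0 0) 0 :=
    (dsmooth_diff g0_smooth 0).hasDerivAt
  have h2 : HasDerivAt kk (1 * g0 0 + 0 * deriv g0 0) 0 := (hasDerivAt_id (0 : ℝ)).mul h1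
  rw [h2.deriv]
  have : g0 0 = 1 := g0.one_of_mem_closedBall (mem_closedBall_self (by norm_num [g0]))
  rw [this]; ring

/-- the functional -/
noncomputable def JJ (φ : E3 → ℝ) : ℝ := ∫ x : E3, (Δ φ) x * Real.sign (x 2)

lemma JJ_phi0 : JJ phi0 = -2 * (∫ t, g0 t) ^ 2 := by
  unfold JJ phi0
  have h1 : ∀ x : E3, (Δ (fun x : E3 => g0 (x 0) * (g0 (x 1) * kk (x 2)))) x * Real.sign (x 2) =
      deriv (deriv g0) (x 0) * g0 (x 1) * (kk (x 2) * Real.sign (x 2)) +
      g0 (x 0) * deriv (deriv g0) (x 1) * (kk (x 2) * Real.sign (x 2)) +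
      g0 (x 0) * g0 (x 1) * (deriv (deriv kk) (x 2) * Real.sign (x 2)) := by
    intro x
    rw [lap_prod3 g0_smooth g0_smooth kk_smooth]
    ring
  have hsm : Measurable Real.sign := by
    have : Real.sign = fun r : ℝ => if r < 0 then -1 else if 0 < r then 1 else 0 := by
      funext r; rfl
    rw [this]
    exact Measurable.ite measurableSet_Iio measurable_const
      (Measurable.ite measurableSet_Ioi measurable_const measurable_const)
  have hsb : ∀ t, ‖Real.sign t‖ ≤ 1 := by
    intro t
    rcases Real.sign_apply_eq t with h | h | h <;> simp [h]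
  have hint : ∀ {F0 F1 F2 : ℝ → ℝ}, Continuous F0 → HasCompactSupport F0 → Continuous F1 →
      HasCompactSupport F1 → Continuous F2 → HasCompactSupport F2 →
      Integrable (fun x : E3 => F0 (x 0) * F1 (x 1) * (F2 (x 2) * Real.sign (x 2))) := by
    intro F0 F1 F2 c0 s0 c1 s1 c2 s2
    let F : Fin 3 → ℝ → ℝ := ![F0, F1, fun t => F2 t * Real.sign t]
    have hF : ∀ i, Integrable (F i) := by
      intro i
      fin_cases i
      · exact c0.integrable_of_hasCompactSupport s0
      · exact c1.integrable_of_hasCompactSupport s1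
      · exact (c2.integrable_of_hasCompactSupport s2).mul_bdd (c := 1) hsm.aestronglyMeasurable
          (Eventually.of_forall hsb)
    have := integrable_prod3 hF
    refine this.congr (Eventually.of_forall fun x => ?_)
    show ∏ i, F i (x i) = _
    rw [Fin.prod_univ_three]
    rfl
  have cg := g0_smooth.continuous
  have cg2 := (dsmooth (dsmooth g0_smooth)).continuous
  have ck := kk_smooth.continuous
  have ck2 := (dsmooth (dsmooth kk_smooth)).continuous
  rw [integral_congr_ae (Eventually.of_forall h1), integral_add, integral_add]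
  · rw [integral_prod3 (deriv (deriv g0)) g0 (fun t => kk t * Real.sign t),
      integral_prod3 g0 (deriv (deriv g0)) (fun t => kk t * Real.sign t),
      integral_prod3 g0 g0 (fun t => deriv (deriv kk) t * Real.sign t),
      integral_deriv_zero (dsmooth g0_smooth) g0_compact.deriv,
      integral_sign (dsmooth kk_smooth) kk_compact.deriv, kk_deriv]
    ring
  · exact hint cg2 g0_compact.deriv.deriv cg g0_compact ck kk_compact
  · exact hint cg g0_compact cg2 g0_compact.deriv.deriv ck kk_compact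
  · exact (hint cg2 g0_compact.deriv.deriv cg g0_compact ck kk_compact).add
      (hint cg g0_compact cg2 g0_compact.deriv.deriv ck kk_compact)
  · exact hint cg g0_compact cg g0_compact ck2 kk_compact.deriv.deriv

lemma JJ_phi0_ne : JJ phi0 ≠ 0 := by
  rw [JJ_phi0]
  have h : 0 < ∫ t, g0 t := g0.integral_pos
  have : 0 < (∫ t, g0 t) ^ 2 := by positivity
  linarith

end Pool.Agent.H789R2.Cap
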