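import Pool.Agent.H789R2.CapI

set_option autoImplicit false

namespace Pool.Agent.H789R2.Cap

open MeasureTheory Filter Topology Set Metric
open scoped ENNReal ContDiff InnerProductSpace Laplacian

/-! ### the construction -/

noncomputable def aa : ℕ → ℝ := TopologicalSpace.denseSeq ℝ

lemma aa_dense : DenseRange aa := TopologicalSpace.denseRange_denseSeq ℝ

noncomputable def c0 : ℝ := |JJ phi0|

lemma c0_pos : 0 < c0 := abs_pos.mpr JJ_phi0_ne

noncomputable def ee (n : ℕ) : ℝ := min 1 (c0 / 8) * (1 / 2) ^ n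

lemma ee_pos (n : ℕ) : 0 < ee n := by
  unfold ee
  have := c0_pos
  have h : 0 < min 1 (c0 / 8) := lt_min one_pos (by linarith)
  positivity

lemma ee_sum (n : ℕ) : ∑ i ∈ Finset.range n, ee i ≤ 2 * min 1 (c0 / 8) := by
  have h : 0 ≤ min 1 (c0 / 8) := le_min zero_le_one (by have := c0_pos; linarith)
  unfold ee
  rw [← Finset.mul_sum]
  have h1 : ∑ i ∈ Finset.range n, (1 / 2 : ℝ) ^ i ≤ 2 := by
    have := sum_geometric_two_le n
    simpa using this
  nlinarith

abbrev St : Type := {φ : E3 → ℝ // Good φ}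

noncomputable def rad (n : ℕ) (φ : St) : ℝ := Classical.choose (step_choice φ.2 (aa n) (ee_pos n))

lemma rad_spec (n : ℕ) (φ : St) : 0 < rad n φ ∧ rad n φ < ee n ∧
      eLpNorm (Δ (fun x => φ.1 x * zt (aa n) (rad n φ) x)) pq volume ≤ ENNReal.ofReal (ee n) ∧
      eLpNorm (Δ (fun x => φ.1 x * zt (aa n) (rad n φ) x)) 1 volume ≤ ENNReal.ofReal (ee n) :=
  Classical.choose_spec (step_choice φ.2 (aa n) (ee_pos n))

noncomputable def st : ℕ → St
  | 0 => ⟨phi0, good_phi0⟩
  | (n + 1) => ⟨fun x => (st n).1 x - (st n).1 x * zt (aa n) (rad n (st n)) x,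
      good_step (st n).2 (aa n) (rad n (st n))⟩

noncomputable def rr (n : ℕ) : ℝ := rad n (st n)

lemma rr_pos (n : ℕ) : 0 < rr n := (rad_spec n (st n)).1

noncomputable def ph (n : ℕ) : E3 → ℝ := (st n).1

lemma ph_good (n : ℕ) : Good (ph n) := (st n).2

lemma ph_zero : ph 0 = phi0 := rfl

lemma ph_succ (n : ℕ) : ph (n + 1) = fun x => ph n x - ph n x * zt (aa n) (rr n) x := rfl

lemma ph_bound (n : ℕ) :
    eLpNorm (Δ (fun x => ph n x * zt (aa n) (rr n) x)) pq volume ≤ ENNReal.ofReal (ee n) ∧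
      eLpNorm (Δ (fun x => ph n x * zt (aa n) (rr n) x)) 1 volume ≤ ENNReal.ofReal (ee n) :=
  (rad_spec n (st n)).2.2

/-- the open tubes -/
def Tube (n : ℕ) : Set E3 := {x | |x 1 - aa n| < rr n ∧ |x 2| < rr n}

lemma mem_Tube {n : ℕ} {x : E3} : x ∈ Tube n ↔ |x 1 - aa n| < rr n ∧ |x 2| < rr n := by
  unfold Tube; simp

lemma isOpen_Tube (n : ℕ) : IsOpen (Tube n) := by
  have : Tube n = {x : E3 | |x 1 - aa n| < rr n} ∩ {x : E3 | |x 2| < rr n} := by
    ext x; simp [mem_Tube]
  rw [this]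
  exact (isOpen_lt ((contDiff_coord 1).continuous.sub continuous_const).abs
    continuous_const).inter (isOpen_lt (contDiff_coord 2).continuous.abs continuous_const)

/-- the compact set -/
def KK : Set E3 := Q \ ⋃ n, Tube n

def Kn (M : ℕ) : Set E3 := Q \ ⋃ i ∈ Finset.range M, Tube i

lemma mem_Kn {M : ℕ} {x : E3} : x ∈ Kn M ↔ x ∈ Q ∧ ∀ i < M, x ∉ Tube i := by
  unfold Kn
  simp

lemma mem_KK {x : E3} : x ∈ KK ↔ x ∈ Q ∧ ∀ i, x ∉ Tube i := by
  unfold KK
  simp

lemma isCompact_Kn (M : ℕ) : IsCompact (Kn M) :=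
  isCompact_Q.diff (isOpen_biUnion fun i _ => isOpen_Tube i)

lemma isCompact_KK : IsCompact KK := isCompact_Q.diff (isOpen_iUnion fun i => isOpen_Tube i)

lemma Kn_anti : Antitone Kn := by
  intro m n hmn x hx
  rw [mem_Kn] at *
  exact ⟨hx.1, fun i hi => hx.2 i (lt_of_lt_of_le hi hmn)⟩

lemma iInter_Kn : ⋂ M, Kn M = KK := by
  ext x
  rw [mem_iInter, mem_KK]
  constructor
  · intro h
    exact ⟨(mem_Kn.mp (h 0)).1, fun i => (mem_Kn.mp (h (i + 1))).2 i (Nat.lt_succ_self i)⟩
  · intro h M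
    exact mem_Kn.mpr ⟨h.1, fun i _ => h.2 i⟩

lemma ph_support (n : ℕ) {x : E3} (hx : ph n x ≠ 0) : x ∈ Kn n := by
  induction n with
  | zero =>
    rw [mem_Kn]
    exact ⟨mem_Q.mpr ((ph_good 0).2.1 x hx), fun i hi => absurd hi (Nat.not_lt_zero i)⟩
  | succ n ih =>
    rw [ph_succ] at hx
    have h1 : ph n x ≠ 0 := by
      intro h
      apply hx
      simp only [h]; ring
    have h2 := mem_Kn.mp (ih h1)
    rw [mem_Kn]
    refine ⟨h2.1, fun i hi => ?_⟩
    rcases Nat.lt_succ_iff_lt_or_eq.mp hi with hi | hi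
    · exact h2.2 i hi
    · subst hi
      intro hT
      have h3 := mem_Tube.mp hT
      have h4 := zt_one (rr_pos i) h3.1.le h3.2.le
      apply hx
      simp only [h4]; ring

lemma lap_ph_succ (n : ℕ) : Δ (ph (n + 1)) =
    Δ (ph n) - Δ (fun x => ph n x * zt (aa n) (rr n) x) := by
  funext x
  have h1 : ContDiffAt ℝ 2 (ph n) x := ((ph_good n).1.of_le (by norm_cast)).contDiffAt
  have h2 : ContDiffAt ℝ 2 (fun x => ph n x * zt (aa n) (rr n) x) x :=
    (((ph_good n).1.mul (zt_smooth _ _)).of_le (by norm_cast)).contDiffAt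
  have h3 := h1.laplacian_sub h2
  rw [Pi.sub_apply, ← h3, ph_succ]
  rfl

lemma aesm_lap {φ : E3 → ℝ} (hφ : ContDiff ℝ ∞ φ) : AEStronglyMeasurable (Δ φ) volume :=
  (continuous_lap hφ two_le_inf).aestronglyMeasurable

noncomputable def DD : ℝ≥0∞ := eLpNorm (Δ phi0) pq volume + ENNReal.ofReal 2

lemma DD_lt : DD < ⊤ := by
  unfold DD
  rw [ENNReal.add_lt_top]
  refine ⟨?_, ENNReal.ofReal_lt_top⟩
  have : MemLp (Δ phi0) pq volume :=
    (continuous_lap good_phi0.1 two_le_inf).memLp_of_hasCompactSupport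
      (hasCompactSupport_lap (good_compact good_phi0))
  exact this.2

lemma norm_ph (n : ℕ) : eLpNorm (Δ (ph n)) pq volume ≤ DD := by
  have key : eLpNorm (Δ (ph n)) pq volume ≤
      eLpNorm (Δ phi0) pq volume + ENNReal.ofReal (∑ i ∈ Finset.range n, ee i) := by
    induction n with
    | zero => simp [ph_zero]
    | succ n ih =>
      rw [lap_ph_succ]
      refine (eLpNorm_sub_le (aesm_lap (ph_good n).1)
        (aesm_lap ((ph_good n).1.mul (zt_smooth _ _))) one_le_pq).trans ?_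
      rw [Finset.sum_range_succ, ENNReal.ofReal_add (Finset.sum_nonneg fun i _ => (ee_pos i).le)
        (ee_pos n).le, ← add_assoc]
      exact add_le_add ih (ph_bound n).1
  refine key.trans ?_
  unfold DD
  gcongr
  refine (ee_sum n).trans ?_
  have : min 1 (c0 / 8) ≤ 1 := min_le_left _ _
  linarith

lemma integrable_lap_sign {φ : E3 → ℝ} (hφ : Good φ) :
    Integrable (fun x : E3 => (Δ φ) x * Real.sign (x 2)) := by
  have hsm : Measurable Real.sign := by
    have : Real.sign = fun r : ℝ => if r < 0 then -1 else if 0 < r then 1 else 0 := by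
      funext r; rfl
    rw [this]
    exact Measurable.ite measurableSet_Iio measurable_const
      (Measurable.ite measurableSet_Ioi measurable_const measurable_const)
  have h1 : Integrable (Δ φ) :=
    (continuous_lap hφ.1 two_le_inf).integrable_of_hasCompactSupport
      (hasCompactSupport_lap (good_compact hφ))
  apply h1.mul_bdd (c := 1)
  · exact (hsm.comp (contDiff_coord 2).continuous.measurable).aestronglyMeasurable
  · refine Eventually.of_forall fun x => ?_
    rcases Real.sign_apply_eq (x 2) with h | h | h <;> simp [h]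

lemma JJ_step (n : ℕ) : |JJ (ph (n + 1)) - JJ (ph n)| ≤ ee n := by
  set ψ : E3 → ℝ := fun x => ph n x * zt (aa n) (rr n) x with hψ
  have hψg : Good ψ := by
    obtain ⟨h1, h2, h3⟩ := ph_good n
    refine ⟨h1.mul (zt_smooth _ _), fun x hx => h2 x (left_ne_zero_of_mul hx), fun x hx => ?_⟩
    rw [hψ]
    simp only [h3 x hx]; ring
  have h1 : JJ (ph (n + 1)) = JJ (ph n) - JJ ψ := by
    unfold JJ
    rw [← integral_sub (integrable_lap_sign (ph_good n)) (integrable_lap_sign hψg)]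
    refine integral_congr_ae (Eventually.of_forall fun x => ?_)
    show (Δ (ph (n + 1))) x * _ = _
    rw [lap_ph_succ, Pi.sub_apply]
    ring
  rw [h1, sub_sub_cancel_left, abs_neg]
  have h2 : ‖JJ ψ‖ₑ ≤ eLpNorm (Δ ψ) 1 volume := by
    rw [eLpNorm_one_eq_lintegral_enorm]
    unfold JJ
    refine (enorm_integral_le_lintegral_enorm _).trans (lintegral_mono fun x => ?_)
    rw [enorm_mul]
    have : ‖Real.sign (x 2)‖ₑ ≤ 1 := by
      rw [← ofReal_norm, ← ENNReal.ofReal_one]
      apply ENNReal.ofReal_le_ofReal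
      rcases Real.sign_apply_eq (x 2) with h | h | h <;> simp [h]
    calc ‖(Δ ψ) x‖ₑ * ‖Real.sign (x 2)‖ₑ ≤ ‖(Δ ψ) x‖ₑ * 1 := by gcongr
      _ = _ := mul_one _
  have h3 := h2.trans (ph_bound n).2
  rw [← ofReal_norm, Real.norm_eq_abs] at h3
  exact (ENNReal.ofReal_le_ofReal_iff (ee_pos n).le).mp h3

lemma JJ_lower (n : ℕ) : c0 / 2 ≤ |JJ (ph n)| := by
  have key : |JJ (ph n) - JJ phi0| ≤ ∑ i ∈ Finset.range n, ee i := by
    induction n with
    | zero => simp [ph_zero]
    | succ n ih =>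
      rw [Finset.sum_range_succ]
      calc |JJ (ph (n + 1)) - JJ phi0| =
          |(JJ (ph n) - JJ phi0) + (JJ (ph (n + 1)) - JJ (ph n))| := by congr 1; ring
        _ ≤ _ := (abs_add_le _ _).trans (add_le_add ih (JJ_step n))
  have h1 := key.trans (ee_sum n)
  have h2 : min 1 (c0 / 8) ≤ c0 / 8 := min_le_right _ _
  have h3 : |JJ phi0| - |JJ (ph n)| ≤ |JJ (ph n) - JJ phi0| := by
    rw [abs_sub_comm]; exact abs_sub_abs_le_abs_sub _ _
  have h4 : c0 = |JJ phi0| := rfl
  have h5 := c0_pos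
  linarith

/-! ### condition (3) -/

lemma compl_ray {p : E3} (hp : p ∉ KK) :
    (∀ s : ℝ, 0 ≤ s → p + s • e 0 ∉ KK) ∨ (∀ s : ℝ, 0 ≤ s → p - s • e 0 ∉ KK) := by
  rw [mem_KK] at hp
  by_cases hQ : p ∈ Q
  · have : ∃ i, p ∈ Tube i := by
      by_contra h
      push Not at h
      exact hp ⟨hQ, h⟩
    obtain ⟨i, hi⟩ := this
    left
    intro s _ hs
    rw [mem_KK] at hs
    apply hs.2 i
    rw [mem_Tube] at *
    simpa [e_apply] using hi
  · rw [mem_Q] at hQ
    push Not at hQ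
    obtain ⟨i, hi⟩ := hQ
    by_cases hi0 : i = 0
    · subst hi0
      rcases lt_abs.mp hi with h | h
      · left
        intro s hs hK
        have h1 := mem_Q.mp (mem_KK.mp hK).1 0
        have h2 : (p + s • e 0) 0 = p 0 + s := by simp [e_apply]
        rw [h2] at h1
        linarith [(abs_le.mp h1).2]
      · right
        intro s hs hK
        have h1 := mem_Q.mp (mem_KK.mp hK).1 0
        have h2 : (p - s • e 0) 0 = p 0 - s := by simp [e_apply]
        rw [h2] at h1
        linarith [(abs_le.mp h1).1]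
    · left
      intro s hs hK
      have h1 := mem_Q.mp (mem_KK.mp hK).1 i
      have h2 : (p + s • e 0) i = p i := by simp [e_apply, hi0]
      rw [h2] at h1
      linarith

section
variable (𝕜 : Type) [RCLike 𝕜]

lemma capTilde_le (σ : Set E3) : capTilde 𝕜 σ ≤ cap 𝕜 σ := by
  unfold capTilde cap
  exact iSup_le fun T => iSup_le fun u => iSup_le fun h =>
    le_iSup_of_le T (le_iSup_of_le u (le_iSup_of_le h.1 le_rfl))

theorem cond3_KK : Cond3 𝕜 KK := by
  intro x hx
  obtain ⟨C, hC0, hC⟩ := upper_bound 𝕜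
  have hM := M4_pos
  set A : ℝ := M4⁻¹ * (1 / 4 : ℝ) ^ (1 / 4 : ℝ) with hA
  have hA0 : 0 < A := by positivity
  have key : ∀ δ : ℝ, 0 < δ → ENNReal.ofReal (A / C) ≤
      cap 𝕜 (ball x δ \ KK) / capTilde 𝕜 (ball x δ \ interior KK) := by
    intro δ hδ
    have hx2 : x ∈ closure KKᶜ := by
      rw [frontier_eq_closure_inter_closure] at hx
      exact hx.2
    obtain ⟨p, hp1, hp2⟩ := Metric.mem_closure_iff.mp hx2 (δ / 2) (by linarith)
    rw [dist_comm, dist_eq_norm] at hp2
    have hball : ∀ s : ℝ, |s| ≤ δ / 4 → p + s • e 0 ∈ ball x δ := by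
      intro s hs
      rw [mem_ball, dist_eq_norm]
      calc ‖p + s • e 0 - x‖ = ‖(p - x) + s • e 0‖ := by congr 1; abel
        _ ≤ ‖p - x‖ + ‖s • e 0‖ := norm_add_le _ _
        _ < δ := by
          rw [norm_smul, norm_e, mul_one, Real.norm_eq_abs]
          linarith
    have hlow : ENNReal.ofReal (M4⁻¹ * (δ / 4) ^ (1 / 4 : ℝ)) ≤ cap 𝕜 (ball x δ \ KK) := by
      rcases compl_ray hp1 with h | h
      · apply lower_bound 𝕜 p (by linarith : 0 < δ / 4)
        intro s hs
        have h1 : 0 ≤ s * (δ / 4) := mul_nonneg hs.1 (by linarith)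
        have h2 : s * (δ / 4) ≤ δ / 4 := by nlinarith [hs.2]
        exact ⟨hball _ (by rw [abs_of_nonneg h1]; exact h2), h _ h1⟩
      · apply lower_bound 𝕜 (p - (δ / 4) • e 0) (by linarith : 0 < δ / 4)
        intro s hs
        have h1 : 0 ≤ (1 - s) * (δ / 4) := mul_nonneg (by linarith [hs.2]) (by linarith)
        have h2 : (1 - s) * (δ / 4) ≤ δ / 4 := by nlinarith [hs.1]
        have h3 : qs (p - (δ / 4) • e 0) (δ / 4) s = p - ((1 - s) * (δ / 4)) • e 0 := by
          unfold qs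
          module
        rw [h3]
        refine ⟨?_, h _ h1⟩
        have h4 := hball (-((1 - s) * (δ / 4))) (by rw [abs_neg, abs_of_nonneg h1]; exact h2)
        rwa [neg_smul, ← sub_eq_add_neg] at h4
    have hup : capTilde 𝕜 (ball x δ \ interior KK) ≤ ENNReal.ofReal (C * δ ^ (1 / 4 : ℝ)) :=
      (capTilde_le 𝕜 _).trans (hC x δ hδ _ sdiff_subset)
    have hδ4 : 0 < δ ^ (1 / 4 : ℝ) := by positivity
    calc ENNReal.ofReal (A / C) =
        ENNReal.ofReal (M4⁻¹ * (δ / 4) ^ (1 / 4 : ℝ)) / ENNReal.ofReal (C * δ ^ (1 / 4 : ℝ)) := by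
          rw [← ENNReal.ofReal_div_of_pos (by positivity)]
          congr 1
          rw [div_eq_mul_one_div δ 4, Real.mul_rpow hδ.le (by norm_num), hA]
          field_simp
      _ ≤ _ := ENNReal.div_le_div hlow hup
  have h1 : 0 < ENNReal.ofReal (A / C) := ENNReal.ofReal_pos.mpr (by positivity)
  refine lt_of_lt_of_le h1 (le_liminf_of_le (by isBoundedDefault) ?_)
  filter_upwards [self_mem_nhdsWithin] with δ hδ
  exact key δ hδ

end

end Pool.Agent.H789R2.Cap
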