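import Pool.Agent.H789R2.CapJ

set_option autoImplicit false

namespace Pool.Agent.H789R2.Cap

open MeasureTheory Filter Topology Set Metric
open scoped ENNReal ContDiff InnerProductSpace Laplacian

lemma meas_sign : Measurable Real.sign := by
  have : Real.sign = fun r : ℝ => if r < 0 then -1 else if 0 < r then 1 else 0 := by
    funext r; rfl
  rw [this]
  exact Measurable.ite measurableSet_Iio measurable_const
    (Measurable.ite measurableSet_Ioi measurable_const measurable_const)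

lemma sign_abs (t : ℝ) : |Real.sign t| ≤ 1 := by
  rcases Real.sign_apply_eq t with h | h | h <;> simp [h]

section
variable (𝕜 : Type) [RCLike 𝕜]

noncomputable def ff : E3 → 𝕜 := fun x => ((Real.sign (x 2) : ℝ) : 𝕜)

lemma ff_norm (x : E3) : ‖ff 𝕜 x‖ ≤ 1 := by
  unfold ff
  rw [RCLike.norm_ofReal]
  exact sign_abs _

lemma ff_meas (μ : Measure E3) : AEStronglyMeasurable (ff 𝕜) μ := by
  have h1 : Measurable (fun x : E3 => Real.sign (x 2)) :=
    meas_sign.comp (contDiff_coord 2).continuous.measurable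
  exact (RCLike.continuous_ofReal (K := 𝕜)).comp_aestronglyMeasurable h1.aestronglyMeasurable

lemma inLoc_ff : InLoc (ff 𝕜) := by
  intro B hB
  have : IsFiniteMeasure (volume.restrict B) := ⟨by
    rw [Measure.restrict_apply_univ]; exact hB.measure_lt_top⟩
  exact MemLp.of_bound (ff_meas 𝕜 _) 1 (Eventually.of_forall (ff_norm 𝕜))

/-- smooth approximations of the sign -/
noncomputable def gn (n : ℕ) (t : ℝ) : ℝ :=
  Real.smoothTransition (n * t) - Real.smoothTransition (-(n * t))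

lemma gn_smooth (n : ℕ) : ContDiff ℝ ∞ (gn n) := by
  unfold gn
  exact (Real.smoothTransition.contDiff.comp (contDiff_const.mul contDiff_id)).sub
    (Real.smoothTransition.contDiff.comp (contDiff_const.mul contDiff_id).neg)

lemma gn_abs (n : ℕ) (t : ℝ) : |gn n t| ≤ 1 := by
  unfold gn
  have h1 := Real.smoothTransition.nonneg (n * t)
  have h2 := Real.smoothTransition.le_one (n * t)
  have h3 := Real.smoothTransition.nonneg (-(n * t))
  have h4 := Real.smoothTransition.le_one (-(n * t))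
  rw [abs_le]; constructor <;> linarith

lemma gn_tendsto (t : ℝ) : ∀ᶠ n : ℕ in atTop, gn n t = Real.sign t := by
  rcases lt_trichotomy t 0 with h | h | h
  · obtain ⟨N, hN⟩ := exists_nat_ge (1 / (-t))
    filter_upwards [eventually_ge_atTop N] with n hn
    have h1 : (1 : ℝ) ≤ -(n * t) := by
      have h2 : 1 / (-t) ≤ n := hN.trans (by exact_mod_cast hn)
      rw [div_le_iff₀ (by linarith)] at h2
      linarith
    unfold gn
    rw [Real.smoothTransition.zero_of_nonpos (by linarith), Real.smoothTransition.one_of_one_le h1,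
      Real.sign_of_neg h]
    norm_num
  · filter_upwards with n
    unfold gn
    rw [h]
    simp
  · obtain ⟨N, hN⟩ := exists_nat_ge (1 / t)
    filter_upwards [eventually_ge_atTop N] with n hn
    have h1 : (1 : ℝ) ≤ n * t := by
      have h2 : 1 / t ≤ n := hN.trans (by exact_mod_cast hn)
      rwa [div_le_iff₀ h] at h2
    unfold gn
    rw [Real.smoothTransition.zero_of_nonpos (x := -(n * t)) (by linarith),
      Real.smoothTransition.one_of_one_le h1, Real.sign_of_pos h]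
    norm_num

lemma inLocTilde_ff : InLocTilde (ff 𝕜) := by
  refine ⟨inLoc_ff 𝕜, ?_⟩
  intro B hB ε hε
  have hfin : IsFiniteMeasure (volume.restrict B) := ⟨by
    rw [Measure.restrict_apply_univ]; exact hB.measure_lt_top⟩
  let g : ℕ → E3 → 𝕜 := fun n x => ((gn n (x 2) : ℝ) : 𝕜)
  have hgs : ∀ n, ContDiff ℝ ∞ (g n) := fun n =>
    contDiff_ofReal' 𝕜 ((gn_smooth n).comp (contDiff_coord 2))
  have hlim : Tendsto (fun n => ∫⁻ x in B, ‖(ff 𝕜 - g n) x‖ₑ ^ (4 : ℝ)) atTop (𝓝 0) := by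
    have h0 : ∫⁻ x in B, (fun _ : E3 => (0 : ℝ≥0∞)) x = 0 := by simp
    rw [← h0]
    apply tendsto_lintegral_of_dominated_convergence' (fun _ => (2 : ℝ≥0∞) ^ (4 : ℝ))
    · intro n
      exact (((ff_meas 𝕜 _).sub (hgs n).continuous.aestronglyMeasurable).enorm).pow_const _
    · intro n
      refine Eventually.of_forall fun x => ?_
      apply ENNReal.rpow_le_rpow _ (by norm_num)
      rw [Pi.sub_apply]
      refine (enorm_sub_le).trans ?_
      have h1 : ‖ff 𝕜 x‖ₑ ≤ 1 := by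
        rw [← ofReal_norm, ← ENNReal.ofReal_one]
        exact ENNReal.ofReal_le_ofReal (ff_norm 𝕜 x)
      have h2 : ‖g n x‖ₑ ≤ 1 := by
        rw [← ofReal_norm, ← ENNReal.ofReal_one]
        apply ENNReal.ofReal_le_ofReal
        show ‖((gn n (x 2) : ℝ) : 𝕜)‖ ≤ 1
        rw [RCLike.norm_ofReal]
        exact gn_abs _ _
      calc ‖ff 𝕜 x‖ₑ + ‖g n x‖ₑ ≤ 1 + 1 := add_le_add h1 h2
        _ = 2 := one_add_one_eq_two
    · rw [lintegral_const]
      apply ENNReal.mul_ne_top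
      · exact ENNReal.rpow_ne_top_of_nonneg (by norm_num) (by norm_num)
      · exact measure_ne_top _ _
    · refine Eventually.of_forall fun x => ?_
      apply tendsto_const_nhds.congr'
      filter_upwards [gn_tendsto (x 2)] with n hn
      rw [Pi.sub_apply]
      show 0 = ‖ff 𝕜 x - ((gn n (x 2) : ℝ) : 𝕜)‖ₑ ^ (4 : ℝ)
      rw [hn]
      unfold ff
      simp
  have hlim2 : Tendsto (fun n => eLpNorm (ff 𝕜 - g n) 4 (volume.restrict B)) atTop (𝓝 0) := by
    have h1 : ∀ n, eLpNorm (ff 𝕜 - g n) 4 (volume.restrict B) =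
        (∫⁻ x in B, ‖(ff 𝕜 - g n) x‖ₑ ^ (4 : ℝ)) ^ (1 / 4 : ℝ) := by
      intro n
      rw [eLpNorm_eq_lintegral_rpow_enorm_toReal (by norm_num) (by norm_num)]
      simp
    simp only [h1]
    have h2 := (ENNReal.continuous_rpow_const (y := (1 / 4 : ℝ))).tendsto 0
    have h3 := h2.comp hlim
    rw [ENNReal.zero_rpow_of_pos (by norm_num)] at h3
    exact h3
  obtain ⟨n, hn⟩ := (hlim2.eventually (gt_mem_nhds hε)).exists
  exact ⟨g n, hgs n, hn⟩

lemma interior_ne {x : E3} (hx : x ∈ interior KK) : x 2 ≠ 0 := by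
  intro h2
  have hcont : Continuous (fun t : ℝ => x + (t - x 1) • e 1) := by fun_prop
  have hopen : IsOpen ((fun t : ℝ => x + (t - x 1) • e 1) ⁻¹' interior KK) :=
    isOpen_interior.preimage hcont
  have hne : ((fun t : ℝ => x + (t - x 1) • e 1) ⁻¹' interior KK).Nonempty := by
    refine ⟨x 1, ?_⟩
    rw [mem_preimage, sub_self, zero_smul, add_zero]
    exact hx
  obtain ⟨n, hn⟩ := aa_dense.exists_mem_open hopen hne
  rw [mem_preimage] at hn
  have h3 := mem_KK.mp (interior_subset hn)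
  apply h3.2 n
  rw [mem_Tube]
  have hr := rr_pos n
  constructor
  · have : (x + (aa n - x 1) • e 1) 1 = aa n := by simp [e_apply]
    rw [this, sub_self, abs_zero]
    exact hr
  · have : (x + (aa n - x 1) • e 1) 2 = 0 := by simp [e_apply, h2]
    rw [this, abs_zero]
    exact hr

lemma ff_locally_const {x : E3} (hx : x 2 ≠ 0) : ff 𝕜 =ᶠ[𝓝 x] fun _ => ff 𝕜 x := by
  have hc := (contDiff_coord 2).continuous
  rcases lt_or_gt_of_ne hx with h | h
  · have : ∀ᶠ y : E3 in 𝓝 x, y 2 < 0 := hc.continuousAt.eventually (gt_mem_nhds h)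
    filter_upwards [this] with y hy
    unfold ff
    rw [Real.sign_of_neg hy, Real.sign_of_neg h]
  · have : ∀ᶠ y : E3 in 𝓝 x, 0 < y 2 := hc.continuousAt.eventually (lt_mem_nhds h)
    filter_upwards [this] with y hy
    unfold ff
    rw [Real.sign_of_pos hy, Real.sign_of_pos h]

lemma inS_ff : InSInterior KK (ff 𝕜) := by
  refine ⟨⟨ff 𝕜, inLocTilde_ff 𝕜, EventuallyEq.rfl⟩, ff 𝕜, ?_, ?_, EventuallyEq.rfl⟩
  · intro x hx
    have h1 := ff_locally_const 𝕜 (interior_ne hx)
    exact (contDiffAt_const.congr_of_eventuallyEq h1).contDiffWithinAt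
  · intro x hx
    have h1 := ff_locally_const 𝕜 (interior_ne hx)
    have h2 := (InnerProductSpace.laplacian_congr_nhds h1).eq_of_nhds
    rw [h2, InnerProductSpace.laplacian_const]
    rfl

lemma support_lap_ph (M : ℕ) : Function.support (Δ (ph M)) ⊆ Kn M := by
  have h1 : Function.support (ph M) ⊆ Kn M := fun x hx => ph_support M hx
  exact (subset_tsupport _).trans ((tsupport_lap_subset (ph M)).trans
    (closure_minimal h1 (isCompact_Kn M).isClosed))

lemma main_ineq {u : E3 → 𝕜} (hu : ContDiff ℝ ∞ u) {V : Set E3}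
    (hV : ∀ x ∈ V, (Δ u) x = 0) {M : ℕ} (hM : Kn M ⊆ V) :
    ENNReal.ofReal (c0 / 2) ≤ DD * eLpNorm (ff 𝕜 - u) 4 (volume.restrict (Kn M)) := by
  have hg := ph_good M
  have hc := good_compact hg
  have hlc := continuous_lap hg.1 two_le_inf
  have hls := hasCompactSupport_lap hc
  have i1 : Integrable (fun x => (Δ (ph M)) x • ff 𝕜 x) := by
    have := (integrable_lap_sign hg).ofReal (𝕜 := 𝕜)
    refine this.congr (Eventually.of_forall fun x => ?_)
    show (((Δ (ph M)) x * Real.sign (x 2) : ℝ) : 𝕜) = (Δ (ph M)) x • ((Real.sign (x 2) : ℝ) : 𝕜)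
    rw [RCLike.real_smul_eq_coe_mul, RCLike.ofReal_mul]
  have i2 : Integrable (fun x => (Δ (ph M)) x • u x) :=
    (hlc.smul hu.continuous).integrable_of_hasCompactSupport hls.smul_right
  have e1 : ∫ x, (Δ (ph M)) x • ff 𝕜 x = ((JJ (ph M) : ℝ) : 𝕜) := by
    unfold JJ
    rw [← integral_ofReal]
    refine integral_congr_ae (Eventually.of_forall fun x => ?_)
    show (Δ (ph M)) x • ((Real.sign (x 2) : ℝ) : 𝕜) = (((Δ (ph M)) x * Real.sign (x 2) : ℝ) : 𝕜)
    rw [RCLike.real_smul_eq_coe_mul, RCLike.ofReal_mul]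
  have e2 : ∫ x, (Δ (ph M)) x • u x = 0 := by
    rw [← green two_le_inf hg.1 hc hu]
    have : ∀ x, ph M x • (Δ u) x = 0 := by
      intro x
      by_cases hx : ph M x = 0
      · rw [hx, zero_smul]
      · rw [hV x (hM (ph_support M hx)), smul_zero]
    rw [integral_congr_ae (Eventually.of_forall this)]
    simp
  have e3 : ((JJ (ph M) : ℝ) : 𝕜) = ∫ x, (Δ (ph M)) x • (ff 𝕜 - u) x := by
    have : ∀ x, (Δ (ph M)) x • (ff 𝕜 - u) x =
        (Δ (ph M)) x • ff 𝕜 x - (Δ (ph M)) x • u x := by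
      intro x
      rw [Pi.sub_apply, smul_sub]
    rw [integral_congr_ae (Eventually.of_forall this), integral_sub i1 i2, e1, e2, sub_zero]
  have h1 : ENNReal.ofReal (c0 / 2) ≤ ‖((JJ (ph M) : ℝ) : 𝕜)‖ₑ := by
    rw [← ofReal_norm, RCLike.norm_ofReal]
    exact ENNReal.ofReal_le_ofReal (JJ_lower M)
  refine h1.trans ?_
  rw [e3]
  refine (enorm_integral_le_lintegral_enorm _).trans ?_
  have h2 : ∫⁻ x, ‖(Δ (ph M)) x • (ff 𝕜 - u) x‖ₑ =
      ∫⁻ x in Kn M, ‖(Δ (ph M)) x‖ₑ * ‖(ff 𝕜 - u) x‖ₑ := by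
    rw [← lintegral_indicator (isCompact_Kn M).measurableSet]
    refine lintegral_congr fun x => ?_
    by_cases hx : x ∈ Kn M
    · rw [indicator_of_mem hx, enorm_smul]
    · rw [indicator_of_notMem hx]
      have : (Δ (ph M)) x = 0 := by
        by_contra h
        exact hx (support_lap_ph M h)
      rw [this, zero_smul, enorm_zero]
  rw [h2]
  refine (holder hlc.aestronglyMeasurable
    ((ff_meas 𝕜 _).sub hu.continuous.aestronglyMeasurable)).trans ?_
  gcongr
  exact (eLpNorm_mono_measure _ Measure.restrict_le_self).trans (norm_ph M)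

lemma tendsto_norm {u : E3 → 𝕜} (hu : ContDiff ℝ ∞ u) :
    Tendsto (fun M => eLpNorm (ff 𝕜 - u) 4 (volume.restrict (Kn M))) atTop
      (𝓝 (eLpNorm (ff 𝕜 - u) 4 (volume.restrict KK))) := by
  have h1 : ∀ S : Set E3, eLpNorm (ff 𝕜 - u) 4 (volume.restrict S) =
      (∫⁻ x in S, ‖(ff 𝕜 - u) x‖ₑ ^ (4 : ℝ)) ^ (1 / 4 : ℝ) := by
    intro S
    rw [eLpNorm_eq_lintegral_rpow_enorm_toReal (by norm_num) (by norm_num)]
    simp
  simp only [h1]
  apply ((ENNReal.continuous_rpow_const (y := (1 / 4 : ℝ))).tendsto _).comp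
  set ν := (volume : Measure E3).withDensity (fun x => ‖(ff 𝕜 - u) x‖ₑ ^ (4 : ℝ)) with hν
  have h2 : ∀ S : Set E3, MeasurableSet S → ∫⁻ x in S, ‖(ff 𝕜 - u) x‖ₑ ^ (4 : ℝ) = ν S :=
    fun S hS => (withDensity_apply _ hS).symm
  have h3 : ∀ M, ∫⁻ x in Kn M, ‖(ff 𝕜 - u) x‖ₑ ^ (4 : ℝ) = ν (Kn M) := fun M =>
    h2 _ (isCompact_Kn M).measurableSet
  simp only [h3]
  rw [h2 _ isCompact_KK.measurableSet, ← iInter_Kn]
  apply tendsto_measure_iInter_atTop
  · exact fun M => (isCompact_Kn M).measurableSet.nullMeasurableSet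
  · exact Kn_anti
  · refine ⟨0, ?_⟩
    rw [← h3]
    obtain ⟨C, hC⟩ := (isCompact_Kn 0).exists_bound_of_continuousOn hu.continuous.continuousOn
    have h4 : ∀ x ∈ Kn 0, ‖(ff 𝕜 - u) x‖ₑ ^ (4 : ℝ) ≤ ENNReal.ofReal (1 + C) ^ (4 : ℝ) := by
      intro x hx
      apply ENNReal.rpow_le_rpow _ (by norm_num)
      rw [← ofReal_norm]
      apply ENNReal.ofReal_le_ofReal
      rw [Pi.sub_apply]
      exact (norm_sub_le _ _).trans (add_le_add (ff_norm 𝕜 x) (hC x hx))
    refine ne_top_of_le_ne_top ?_ (setLIntegral_mono' (isCompact_Kn 0).measurableSet h4)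
    rw [setLIntegral_const]
    apply ENNReal.mul_ne_top
    · exact ENNReal.rpow_ne_top_of_nonneg (by norm_num) ENNReal.ofReal_ne_top
    · exact (isCompact_Kn 0).measure_lt_top.ne

lemma not_closure : ¬ InClosureS KK (ff 𝕜) := by
  intro h
  have hD0 : DD ≠ 0 := by
    unfold DD
    intro h0
    have := (add_eq_zero.mp h0).2
    simp at this
  have hc := c0_pos
  have hε : 0 < ENNReal.ofReal (c0 / 2) / DD :=
    ENNReal.div_pos (by rw [ne_eq, ENNReal.ofReal_eq_zero, not_le]; linarith) DD_lt.ne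
  obtain ⟨u, hu, ⟨V, hVo, hKV, hV⟩, hlt⟩ := h _ hε
  obtain ⟨M₁, hM₁⟩ := exists_subset_nhds_of_isCompact' (V := Kn)
    (directed_of_isDirected_le fun i j hij => Kn_anti hij) (fun M => isCompact_Kn M)
    (fun M => (isCompact_Kn M).isClosed) (U := V) (by
      intro x hx
      rw [iInter_Kn] at hx
      exact hVo.mem_nhds (hKV hx))
  obtain ⟨M, hM, hM2⟩ := (((tendsto_norm 𝕜 hu).eventually (gt_mem_nhds hlt)).and
    (eventually_ge_atTop M₁)).exists
  have h1 := main_ineq 𝕜 hu hV ((Kn_anti hM2).trans hM₁)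
  rw [ENNReal.lt_div_iff_mul_lt (Or.inl hD0) (Or.inl DD_lt.ne)] at hM
  rw [mul_comm] at hM
  exact absurd hM (not_lt.mpr h1)

theorem not_cond1 : ¬ Cond1 𝕜 KK := by
  intro h
  exact not_closure 𝕜 ((h (ff 𝕜) (inLoc_ff 𝕜)).mpr (inS_ff 𝕜))

theorem main : ∃ K : Set E3, IsCompact K ∧ Cond3 𝕜 K ∧ ¬ Cond1 𝕜 K :=
  ⟨KK, isCompact_KK, cond3_KK 𝕜, not_cond1 𝕜⟩

end

end Pool.Agent.H789R2.Cap
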