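import Pool.Agent.H789R2.FlowDefs

set_option autoImplicit false

open Set Filter Topology Metric MeasureTheory
open scoped ContDiff ComplexOrder

namespace Pool.Agent.H789R2.Flow

variable {n : ℕ}

lemma log_det_le {H : Matrix (Fin n) (Fin n) ℂ} (hH : H.PosDef) {k : ℝ} (hk : 0 < k) :
    Real.log H.det.re ≤ k * H.trace.re - n - n * Real.log k := by
  have hh := hH.isHermitian
  have h1 := hh.det_eq_prod_eigenvalues
  have h2 := hh.trace_eq_sum_eigenvalues
  have hpos : ∀ i, 0 < hh.eigenvalues i := fun i => hH.eigenvalues_pos i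
  have h3 : H.det.re = ∏ i, hh.eigenvalues i := by
    rw [h1]
    have : (∏ i, ((hh.eigenvalues i : ℝ) : ℂ)) = ((∏ i, hh.eigenvalues i : ℝ) : ℂ) := by
      push_cast; rfl
    rw [show (∏ i, (RCLike.ofReal (hh.eigenvalues i) : ℂ)) = ((∏ i, hh.eigenvalues i : ℝ) : ℂ) from this]
    exact Complex.ofReal_re _
  have h4 : H.trace.re = ∑ i, hh.eigenvalues i := by
    rw [h2]
    have : (∑ i, ((hh.eigenvalues i : ℝ) : ℂ)) = ((∑ i, hh.eigenvalues i : ℝ) : ℂ) := by
      push_cast; rfl
    rw [show (∑ i, (RCLike.ofReal (hh.eigenvalues i) : ℂ)) = ((∑ i, hh.eigenvalues i : ℝ) : ℂ) from this]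
    exact Complex.ofReal_re _
  rw [h3, h4, Real.log_prod (fun i _ => (hpos i).ne'), Finset.mul_sum]
  have h5 : ∀ i, Real.log (hh.eigenvalues i) ≤ k * hh.eigenvalues i - 1 - Real.log k := by
    intro i
    have := Real.log_le_sub_one_of_pos (mul_pos hk (hpos i))
    rw [Real.log_mul hk.ne' (hpos i).ne'] at this
    linarith
  calc ∑ i, Real.log (hh.eigenvalues i) ≤ ∑ i, (k * hh.eigenvalues i - 1 - Real.log k) :=
        Finset.sum_le_sum fun i _ => h5 i
    _ = ∑ i, k * hh.eigenvalues i - n - n * Real.log k := by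
        rw [Finset.sum_sub_distrib, Finset.sum_sub_distrib]
        simp

/-- the real Laplacian -/
noncomputable def lap (f : Cn n → ℝ) (z : Cn n) : ℝ :=
  ∑ j, (hess f z (eR j) (eR j) + hess f z (eI j) (eI j))

lemma trace_complexHessian (f : Cn n → ℝ) (z : Cn n) :
    (complexHessian f z).trace.re = (1 / 4) * lap f z := by
  unfold complexHessian lap Matrix.trace
  simp only [Matrix.diag_apply, Matrix.of_apply]
  rw [Complex.re_sum, Finset.mul_sum]
  refine Finset.sum_congr rfl fun j _ => ?_
  have : (1 / 4 : ℂ) = ((1 / 4 : ℝ) : ℂ) := by push_cast; rfl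
  rw [this, Complex.re_ofReal_mul]
  simp

/-- A positive definite complex Hessian excludes interior local maxima. -/
lemma no_local_max (hn : 1 ≤ n) {f : Cn n → ℝ} {z : Cn n} (hf : ContDiffAt ℝ 2 f z)
    (hp : (complexHessian f z).PosDef) : ¬ IsLocalMax f z := by
  intro hmax
  obtain ⟨j⟩ : Nonempty (Fin n) := ⟨⟨0, hn⟩⟩
  have hd : 0 < (complexHessian f z j j).re := by
    have := hp.diag_pos (i := j)
    exact (Complex.pos_iff.mp this).1
  have hd' : 0 < hess f z (eR j) (eR j) + hess f z (eI j) (eI j) := by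
    have e : (complexHessian f z j j).re =
        (1 / 4) * (hess f z (eR j) (eR j) + hess f z (eI j) (eI j)) := by
      unfold complexHessian
      simp only [Matrix.of_apply]
      have : (1 / 4 : ℂ) = ((1 / 4 : ℝ) : ℂ) := by push_cast; rfl
      rw [this, Complex.re_ofReal_mul]
      simp
    rw [e] at hd
    linarith
  have key : ∀ v : Cn n, hess f z v v ≤ 0 := by
    intro v
    by_contra hcon
    push Not at hcon
    set g : ℝ → ℝ := fun s => f (z + s • v) with hg
    have hev : ∀ᶠ y in 𝓝 z, ContDiffAt ℝ 2 f y := hf.eventually (by simp)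
    have hline : ContinuousAt (fun s : ℝ => z + s • v) 0 := by fun_prop
    have hline' : Tendsto (fun s : ℝ => z + s • v) (𝓝 0) (𝓝 z) := by
      have := hline.tendsto
      simpa using this
    have hl : ∀ s : ℝ, HasDerivAt (fun s : ℝ => z + s • v) v s := by
      intro s
      have h1 := (hasDerivAt_id s).smul_const v
      have h2 := h1.const_add z
      simpa using h2
    have hev2 : ∀ᶠ s in 𝓝 (0 : ℝ), HasDerivAt g (fderiv ℝ f (z + s • v) v) s := by
      filter_upwards [hline'.eventually hev] with s hs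
      have hd1 : HasFDerivAt f (fderiv ℝ f (z + s • v)) (z + s • v) :=
        (hs.differentiableAt (by norm_num)).hasFDerivAt
      exact hd1.comp_hasDerivAt s (hl s)
    have hderiv : deriv g =ᶠ[𝓝 0] fun s => fderiv ℝ f (z + s • v) v := by
      filter_upwards [hev2] with s hs using hs.deriv
    have hff : ContDiffAt ℝ 1 (fderiv ℝ f) z := hf.fderiv_right (by norm_num)
    have hd2 : HasDerivAt (fun s : ℝ => fderiv ℝ f (z + s • v) v) (hess f z v v) 0 := by
      have h1 : HasFDerivAt (fderiv ℝ f) (fderiv ℝ (fderiv ℝ f) z) (z + (0 : ℝ) • v) := by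
        simpa using (hff.differentiableAt (by norm_num)).hasFDerivAt
      have h2 := h1.comp_hasDerivAt (0 : ℝ) (hl 0)
      have h3 := h2.clm_apply (hasDerivAt_const (0 : ℝ) v)
      simpa [hess] using h3
    have hdd : deriv (deriv g) 0 = hess f z v v := by
      rw [hderiv.deriv_eq, hd2.deriv]
    have hgmax : IsLocalMax g 0 := by
      have : ∀ᶠ s in 𝓝 (0 : ℝ), f (z + s • v) ≤ f z := hline'.eventually hmax
      filter_upwards [this] with s hs
      simpa [hg] using hs
    have hg0 : deriv g 0 = 0 := hgmax.deriv_eq_zero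
    have hgc : ContinuousAt g 0 := by
      have := hev2.self_of_nhds
      exact this.continuousAt
    have hgmin : IsLocalMin g 0 := isLocalMin_of_deriv_deriv_pos (by rw [hdd]; exact hcon) hg0 hgc
    have hconst : g =ᶠ[𝓝 0] fun _ => g 0 := by
      filter_upwards [hgmax, hgmin] with s h1 h2 using le_antisymm h1 h2
    have hd0 : deriv g =ᶠ[𝓝 0] fun _ => 0 := by
      have := hconst.deriv
      refine this.trans ?_
      filter_upwards with s
      simp
    have : deriv (deriv g) 0 = 0 := by
      rw [hd0.deriv_eq]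
      simp
    rw [hdd] at this
    linarith
  have := key (eR j)
  have := key (eI j)
  linarith

end Pool.Agent.H789R2.Flow
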