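import Pool.Agent.H789R2.Flow1

set_option autoImplicit false

open Set Filter Topology Metric MeasureTheory
open scoped ContDiff ComplexOrder

namespace Pool.Agent.H789R2.Flow

variable {n : ℕ}

lemma hasDerivAt_maxpow (k : ℕ) (x : ℝ) :
    HasDerivAt (fun x : ℝ => max x 0 ^ (k + 2)) ((k + 2) * max x 0 ^ (k + 1)) x := by
  rcases lt_trichotomy x 0 with h | h | h
  · have h1 : (fun x : ℝ => max x 0 ^ (k + 2)) =ᶠ[𝓝 x] fun _ => 0 := by
      filter_upwards [Iio_mem_nhds h] with y hy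
      rw [max_eq_right (le_of_lt hy)]; simp
    rw [max_eq_right h.le]
    have := (hasDerivAt_const x (0 : ℝ)).congr_of_eventuallyEq h1
    simpa using this
  · subst h
    have h1 : (fun x : ℝ => max x 0 ^ (k + 2)) =O[𝓝 0] fun x => ‖x - 0‖ ^ (k + 2) := by
      apply Asymptotics.IsBigO.of_bound 1
      filter_upwards with y
      rw [one_mul, sub_zero, norm_pow, norm_pow, norm_norm]
      apply pow_le_pow_left₀ (norm_nonneg _)
      rw [Real.norm_eq_abs, Real.norm_eq_abs, abs_of_nonneg (le_max_right _ _)]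
      exact max_le (le_abs_self _) (abs_nonneg _)
    have := (Asymptotics.IsBigO.hasFDerivAt h1 (by omega)).hasDerivAt
    simpa using this
  · have h1 : (fun x : ℝ => max x 0 ^ (k + 2)) =ᶠ[𝓝 x] fun x => x ^ (k + 2) := by
      filter_upwards [Ioi_mem_nhds h] with y hy
      rw [max_eq_left (le_of_lt hy)]
    rw [max_eq_left h.le]
    have := (hasDerivAt_pow (k + 2) x).congr_of_eventuallyEq h1
    simpa using this

/-- squared distance -/
noncomputable def sq (a z : Cn n) : ℝ := ∑ i, ((z i - a i).re ^ 2 + (z i - a i).im ^ 2)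

lemma sq_eq (a z : Cn n) : sq a z = ∑ i, ‖z i - a i‖ ^ 2 := by
  unfold sq
  refine Finset.sum_congr rfl fun i _ => ?_
  rw [Complex.sq_norm, Complex.normSq_apply]
  ring

lemma sq_nonneg' (a z : Cn n) : 0 ≤ sq a z := by
  unfold sq; positivity

noncomputable def dq (a z v : Cn n) : ℝ :=
  ∑ i, 2 * ((z i - a i).re * (v i).re + (z i - a i).im * (v i).im)

/-- derivative of the squared distance -/
noncomputable def dqL (a z : Cn n) : Cn n →L[ℝ] ℝ :=
  ∑ i, (2 : ℝ) • ((z i - a i).re • (Complex.reCLM.comp (ContinuousLinearMap.proj (R := ℝ) (φ := fun _ : Fin n => ℂ) i)) +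
    (z i - a i).im • (Complex.imCLM.comp (ContinuousLinearMap.proj (R := ℝ) (φ := fun _ : Fin n => ℂ) i)))

lemma dqL_apply (a z v : Cn n) : dqL a z v = dq a z v := by
  unfold dqL dq
  simp [mul_add]

lemma hasFDerivAt_sq (a z : Cn n) : HasFDerivAt (sq a) (dqL a z) z := by
  unfold sq dqL
  apply HasFDerivAt.fun_sum
  intro i _
  have hp : HasFDerivAt (fun y : Cn n => y i - a i)
      (ContinuousLinearMap.proj (R := ℝ) (φ := fun _ : Fin n => ℂ) i) z :=
    (ContinuousLinearMap.proj (R := ℝ) (φ := fun _ : Fin n => ℂ) i).hasFDerivAt.sub_const _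
  have hr := (Complex.reCLM.hasFDerivAt (x := z i - a i)).comp z hp
  have hi := (Complex.imCLM.hasFDerivAt (x := z i - a i)).comp z hp
  have := (hr.pow 2).add (hi.pow 2)
  refine this.congr_fderiv ?_
  ext v
  simp
  ring

lemma hasFDerivAt_dq (a z v : Cn n) :
    HasFDerivAt (fun y => dq a y v) (dqL 0 v) z := by
  unfold dq dqL
  apply HasFDerivAt.fun_sum
  intro i _
  have hp : HasFDerivAt (fun y : Cn n => y i - a i)
      (ContinuousLinearMap.proj (R := ℝ) (φ := fun _ : Fin n => ℂ) i) z :=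
    (ContinuousLinearMap.proj (R := ℝ) (φ := fun _ : Fin n => ℂ) i).hasFDerivAt.sub_const _
  have hr := (Complex.reCLM.hasFDerivAt (x := z i - a i)).comp z hp
  have hi := (Complex.imCLM.hasFDerivAt (x := z i - a i)).comp z hp
  have := ((hr.mul_const (v i).re).add (hi.mul_const (v i).im)).const_mul 2
  refine this.congr_fderiv ?_
  ext w
  simp

/-- the weight -/
noncomputable def wt (a : Cn n) (δ : ℝ) (z : Cn n) : ℝ := max (δ ^ 2 - sq a z) 0 ^ 3

noncomputable def wt1 (a : Cn n) (δ : ℝ) (v z : Cn n) : ℝ :=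
  -(3 * max (δ ^ 2 - sq a z) 0 ^ 2 * dq a z v)

noncomputable def wt2 (a : Cn n) (δ : ℝ) (v z : Cn n) : ℝ :=
  6 * max (δ ^ 2 - sq a z) 0 * dq a z v ^ 2 - 3 * max (δ ^ 2 - sq a z) 0 ^ 2 * dq 0 v v

lemma hasFDerivAt_q (a : Cn n) (δ : ℝ) (z : Cn n) :
    HasFDerivAt (fun z => δ ^ 2 - sq a z) (-dqL a z) z :=
  (hasFDerivAt_sq a z).const_sub _

lemma hasFDerivAt_wt (a : Cn n) (δ : ℝ) (z : Cn n) :
    HasFDerivAt (wt a δ) ((3 * max (δ ^ 2 - sq a z) 0 ^ 2) • (-dqL a z)) z := by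
  have h1 := (hasDerivAt_maxpow 1 (δ ^ 2 - sq a z))
  have h2 := h1.comp_hasFDerivAt z (hasFDerivAt_q a δ z)
  refine h2.congr_fderiv ?_
  norm_num

lemma fderiv_wt (a : Cn n) (δ : ℝ) (z v : Cn n) : fderiv ℝ (wt a δ) z v = wt1 a δ v z := by
  rw [(hasFDerivAt_wt a δ z).fderiv]
  simp [wt1, dqL_apply]

lemma hasFDerivAt_wt1 (a : Cn n) (δ : ℝ) (v z : Cn n) :
    DifferentiableAt ℝ (wt1 a δ v) z ∧ fderiv ℝ (wt1 a δ v) z v = wt2 a δ v z := by
  have h1 := (hasDerivAt_maxpow 0 (δ ^ 2 - sq a z))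
  have h2 := h1.comp_hasFDerivAt z (hasFDerivAt_q a δ z)
  have h3 := ((h2.const_mul 3).mul (hasFDerivAt_dq a z v)).neg
  have h4 : HasFDerivAt (wt1 a δ v) _ z := h3
  refine ⟨h4.differentiableAt, ?_⟩
  rw [h4.fderiv]
  simp only [wt2, Nat.cast_zero, zero_add, pow_one, Function.comp_apply, _root_.neg_apply,
    _root_.add_apply, _root_.smul_apply, dqL_apply, smul_eq_mul]
  ring

lemma continuous_sq (a : Cn n) : Continuous (sq a) := by unfold sq; fun_prop

lemma continuous_dq (a v : Cn n) : Continuous (fun z => dq a z v) := by unfold dq; fun_prop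

lemma continuous_wt (a : Cn n) (δ : ℝ) : Continuous (wt a δ) := by
  have := continuous_sq a
  unfold wt; fun_prop

lemma continuous_wt1 (a : Cn n) (δ : ℝ) (v : Cn n) : Continuous (wt1 a δ v) := by
  have := continuous_sq a
  have := continuous_dq a v
  unfold wt1; fun_prop

lemma continuous_wt2 (a : Cn n) (δ : ℝ) (v : Cn n) : Continuous (wt2 a δ v) := by
  have := continuous_sq a
  have := continuous_dq a v
  unfold wt2; fun_prop

/-- the closed Euclidean ball -/
def BB (a : Cn n) (δ : ℝ) : Set (Cn n) := {z | sq a z ≤ δ ^ 2}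

lemma isClosed_BB (a : Cn n) (δ : ℝ) : IsClosed (BB a δ) :=
  isClosed_le (continuous_sq a) continuous_const

lemma norm_le_of_sq {a z : Cn n} {δ : ℝ} (hδ : 0 ≤ δ) (h : sq a z ≤ δ ^ 2) : ‖z - a‖ ≤ δ := by
  rw [pi_norm_le_iff_of_nonneg hδ]
  intro i
  have h1 : ‖z i - a i‖ ^ 2 ≤ sq a z := by
    rw [sq_eq]
    exact Finset.single_le_sum (f := fun i => ‖z i - a i‖ ^ 2) (fun i _ => by positivity)
      (Finset.mem_univ i)
  have h2 : ‖z i - a i‖ ^ 2 ≤ δ ^ 2 := h1.trans h
  exact abs_le_of_sq_le_sq' h2 hδ |>.2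

lemma isCompact_BB (a : Cn n) {δ : ℝ} (hδ : 0 ≤ δ) : IsCompact (BB a δ) := by
  apply Metric.isCompact_of_isClosed_isBounded (isClosed_BB a δ)
  apply (Metric.isBounded_closedBall (x := a) (r := δ)).subset
  intro z hz
  rw [mem_closedBall, dist_eq_norm]
  exact norm_le_of_sq hδ hz

lemma wt_zero {a z : Cn n} {δ : ℝ} (h : z ∉ BB a δ) : wt a δ z = 0 := by
  have : δ ^ 2 - sq a z ≤ 0 := by
    have h' : ¬ (sq a z ≤ δ ^ 2) := h
    linarith [not_le.mp h']
  simp [wt, max_eq_right this]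

lemma wt1_zero {a z v : Cn n} {δ : ℝ} (h : z ∉ BB a δ) : wt1 a δ v z = 0 := by
  have : δ ^ 2 - sq a z ≤ 0 := by
    have h' : ¬ (sq a z ≤ δ ^ 2) := h
    linarith [not_le.mp h']
  simp [wt1, max_eq_right this]

lemma wt2_zero {a z v : Cn n} {δ : ℝ} (h : z ∉ BB a δ) : wt2 a δ v z = 0 := by
  have : δ ^ 2 - sq a z ≤ 0 := by
    have h' : ¬ (sq a z ≤ δ ^ 2) := h
    linarith [not_le.mp h']
  simp [wt2, max_eq_right this]

lemma integrable_mul' {K Ω : Set (Cn n)} (hK : IsCompact K) (hKΩ : K ⊆ Ω) {w h : Cn n → ℝ}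
    (hw : Continuous w) (hw0 : ∀ z ∉ K, w z = 0) (hh : ContinuousOn h Ω) :
    Integrable (fun z => w z * h z) := by
  have h1 : IntegrableOn (fun z => w z * h z) K :=
    ContinuousOn.integrableOn_compact hK (hw.continuousOn.mul (hh.mono hKΩ))
  exact h1.integrable_of_forall_notMem_eq_zero fun z hz => by rw [hw0 z hz, zero_mul]

lemma tsupport_subset {K : Set (Cn n)} (hK : IsClosed K) {w : Cn n → ℝ}
    (hw0 : ∀ z ∉ K, w z = 0) : tsupport w ⊆ K := by
  apply closure_minimal _ hK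
  intro z hz
  by_contra hcon
  exact hz (hw0 z hcon)

lemma ibp2 {Ω : Set (Cn n)} (hΩ : IsOpen Ω) {a : Cn n} {δ : ℝ} (hδ : 0 ≤ δ) (hB : BB a δ ⊆ Ω)
    {u : Cn n → ℝ} (hu : ContDiffOn ℝ 2 u Ω) (v : Cn n) :
    ∫ z, wt a δ z * hess u z v v = ∫ z, wt2 a δ v z * u z := by
  have hK := isCompact_BB a hδ
  have hC := isClosed_BB a δ
  have hd1 : ContDiffOn ℝ 1 (fderiv ℝ u) Ω := hu.fderiv_of_isOpen hΩ (by norm_num)
  have hg : ContDiffOn ℝ 1 (fun z => fderiv ℝ u z v) Ω := hd1.clm_apply contDiffOn_const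
  have hgd : ∀ z ∈ Ω, fderiv ℝ (fun z => fderiv ℝ u z v) z v = hess u z v v := by
    intro z hz
    have h1 : DifferentiableAt ℝ (fderiv ℝ u) z :=
      (hd1.contDiffAt (hΩ.mem_nhds hz)).differentiableAt (by norm_num)
    have h2 := h1.hasFDerivAt.clm_apply (hasFDerivAt_const v z)
    rw [h2.fderiv]
    simp [hess]
  have hgc : ContinuousOn (fun z => fderiv ℝ (fun z => fderiv ℝ u z v) z v) Ω :=
    (hg.continuousOn_fderiv_of_isOpen hΩ (by norm_num)).clm_apply continuousOn_const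
  have e1 : ∫ z, wt a δ z * hess u z v v =
      ∫ z, wt a δ z * fderiv ℝ (fun z => fderiv ℝ u z v) z v := by
    congr 1
    ext z
    by_cases hz : z ∈ BB a δ
    · rw [hgd z (hB hz)]
    · rw [wt_zero hz]; simp
  rw [e1, integral_mul_fderiv_eq_neg_fderiv_mul_of_integrable]
  · have e2 : ∀ z, fderiv ℝ (wt a δ) z v = wt1 a δ v z := fun z => fderiv_wt a δ z v
    simp_rw [e2]
    rw [integral_mul_fderiv_eq_neg_fderiv_mul_of_integrable, neg_neg]
    · simp_rw [fun z => (hasFDerivAt_wt1 a δ v z).2]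
    · simp_rw [fun z => (hasFDerivAt_wt1 a δ v z).2]
      exact integrable_mul' hK hB (continuous_wt2 a δ v) (fun z hz => wt2_zero hz) hu.continuousOn
    · exact integrable_mul' hK hB (continuous_wt1 a δ v) (fun z hz => wt1_zero hz) hg.continuousOn
    · exact integrable_mul' hK hB (continuous_wt1 a δ v) (fun z hz => wt1_zero hz) hu.continuousOn
    · exact fun z _ => (hasFDerivAt_wt1 a δ v z).1
    · intro z hz
      have hz' : z ∈ Ω := hB (tsupport_subset hC (fun z hz => wt1_zero hz) hz)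
      exact (hu.contDiffAt (hΩ.mem_nhds hz')).differentiableAt (by norm_num)
  · simp_rw [fun z => fderiv_wt a δ z v]
    exact integrable_mul' hK hB (continuous_wt1 a δ v) (fun z hz => wt1_zero hz) hg.continuousOn
  · exact integrable_mul' hK hB (continuous_wt a δ) (fun z hz => wt_zero hz) hgc
  · exact integrable_mul' hK hB (continuous_wt a δ) (fun z hz => wt_zero hz) hg.continuousOn
  · exact fun z _ => (hasFDerivAt_wt a δ z).differentiableAt
  · intro z hz
    have hz' : z ∈ Ω := hB (tsupport_subset hC (fun z hz => wt_zero hz) hz)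
    exact (hg.contDiffAt (hΩ.mem_nhds hz')).differentiableAt (by norm_num)

end Pool.Agent.H789R2.Flow
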