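import Pool.Agent.H789R2.Flow2

set_option autoImplicit false

open Set Filter Topology Metric MeasureTheory
open scoped ContDiff ComplexOrder

namespace Pool.Agent.H789R2.Flow

variable {n : ℕ}

noncomputable def wtLap (a : Cn n) (δ : ℝ) (z : Cn n) : ℝ :=
  ∑ j, (wt2 a δ (eR j) z + wt2 a δ (eI j) z)

lemma dq_eR (a z : Cn n) (j : Fin n) : dq a z (eR j) = 2 * (z j - a j).re := by
  unfold dq eR
  rw [Finset.sum_eq_single j]
  · simp
  · intro i _ hi
    simp [Pi.single_eq_of_ne hi]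
  · simp

lemma dq_eI (a z : Cn n) (j : Fin n) : dq a z (eI j) = 2 * (z j - a j).im := by
  unfold dq eI
  rw [Finset.sum_eq_single j]
  · simp
  · intro i _ hi
    simp [Pi.single_eq_of_ne hi]
  · simp

lemma wtLap_eq (a : Cn n) (δ : ℝ) (z : Cn n) : wtLap a δ z =
    24 * max (δ ^ 2 - sq a z) 0 * sq a z - 12 * n * max (δ ^ 2 - sq a z) 0 ^ 2 := by
  unfold wtLap wt2
  have h1 : ∀ j : Fin n, dq 0 (eR j) (eR j) = 2 := by
    intro j; rw [dq_eR]; simp [eR]
  have h2 : ∀ j : Fin n, dq 0 (eI j) (eI j) = 2 := by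
    intro j; rw [dq_eI]; simp [eI]
  simp_rw [h1, h2, dq_eR, dq_eI]
  conv_rhs => rw [sq]
  rw [Finset.mul_sum]
  have h3 : (12 * n * max (δ ^ 2 - sq a z) 0 ^ 2 : ℝ) =
      ∑ _j : Fin n, 12 * max (δ ^ 2 - sq a z) 0 ^ 2 := by
    simp; ring
  have h4 : (∑ j, 24 * max (δ ^ 2 - sq a z) 0 * ((z j - a j).re ^ 2 + (z j - a j).im ^ 2)) -
      12 * n * max (δ ^ 2 - sq a z) 0 ^ 2 =
      ∑ j : Fin n, (24 * max (δ ^ 2 - sq a z) 0 * ((z j - a j).re ^ 2 + (z j - a j).im ^ 2) -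
        12 * max (δ ^ 2 - sq a z) 0 ^ 2) := by
    rw [Finset.sum_sub_distrib, h3]
  have h5 : (∑ i, 24 * max (δ ^ 2 - ∑ i, ((z i - a i).re ^ 2 + (z i - a i).im ^ 2)) 0 *
      ((z i - a i).re ^ 2 + (z i - a i).im ^ 2)) -
      12 * n * max (δ ^ 2 - ∑ i, ((z i - a i).re ^ 2 + (z i - a i).im ^ 2)) 0 ^ 2 = _ := h4
  rw [h5]
  refine Finset.sum_congr rfl fun j _ => ?_
  ring

lemma wtLap_ge (a : Cn n) {δ : ℝ} (hδ : 0 < δ) (z : Cn n) :
    -(2 * (n + 2) ^ 2 / δ ^ 2) * wt a δ z ≤ wtLap a δ z := by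
  rw [wtLap_eq]
  unfold wt
  rcases le_or_gt (δ ^ 2 - sq a z) 0 with h | h
  · rw [max_eq_right h]; simp
  · rw [max_eq_left h.le]
    set q := δ ^ 2 - sq a z with hq
    have hs : sq a z = δ ^ 2 - q := by rw [hq]; ring
    rw [hs]
    have h1 : 24 * q * (δ ^ 2 - q) - 12 * n * q ^ 2 - -(2 * (n + 2) ^ 2 / δ ^ 2) * q ^ 3 =
        q / δ ^ 2 * (24 * (δ ^ 2) ^ 2 - (24 + 12 * n) * (q * δ ^ 2) + 2 * (n + 2) ^ 2 * q ^ 2) := by
      field_simp
      ring
    have h2 : 0 ≤ 24 * (δ ^ 2) ^ 2 - (24 + 12 * n) * (q * δ ^ 2) + 2 * (n + 2) ^ 2 * q ^ 2 := by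
      nlinarith [sq_nonneg (4 * δ ^ 2 - ((n : ℝ) + 2) * q), sq_nonneg (((n : ℝ) + 2) * q),
        sq_nonneg (δ ^ 2), sq_nonneg (3 * δ ^ 2 - ((n : ℝ) + 2) * q)]
    have h3 : 0 ≤ q / δ ^ 2 := by positivity
    have := mul_nonneg h3 h2
    linarith

lemma continuous_wtLap (a : Cn n) (δ : ℝ) : Continuous (wtLap a δ) := by
  unfold wtLap
  exact continuous_finsetSum _ fun j _ => (continuous_wt2 _ _ _).add (continuous_wt2 _ _ _)

lemma wtLap_zero {a z : Cn n} {δ : ℝ} (h : z ∉ BB a δ) : wtLap a δ z = 0 := by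
  unfold wtLap
  exact Finset.sum_eq_zero fun j _ => by rw [wt2_zero h, wt2_zero h]; simp

lemma continuousOn_hess {Ω : Set (Cn n)} (hΩ : IsOpen Ω) {u : Cn n → ℝ}
    (hu : ContDiffOn ℝ 2 u Ω) (v w : Cn n) : ContinuousOn (fun z => hess u z v w) Ω := by
  have hd1 : ContDiffOn ℝ 1 (fderiv ℝ u) Ω := hu.fderiv_of_isOpen hΩ (by norm_num)
  exact ((hd1.continuousOn_fderiv_of_isOpen hΩ (by norm_num)).clm_apply
    continuousOn_const).clm_apply continuousOn_const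

lemma ibp_lap {Ω : Set (Cn n)} (hΩ : IsOpen Ω) {a : Cn n} {δ : ℝ} (hδ : 0 ≤ δ) (hB : BB a δ ⊆ Ω)
    {u : Cn n → ℝ} (hu : ContDiffOn ℝ 2 u Ω) :
    ∫ z, wt a δ z * lap u z = ∫ z, wtLap a δ z * u z := by
  have hK := isCompact_BB a hδ
  have hi : ∀ v, Integrable fun z => wt a δ z * hess u z v v := fun v =>
    integrable_mul' hK hB (continuous_wt a δ) (fun z hz => wt_zero hz)
      (continuousOn_hess hΩ hu v v)
  have hi2 : ∀ v, Integrable fun z => wt2 a δ v z * u z := fun v =>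
    integrable_mul' hK hB (continuous_wt2 a δ v) (fun z hz => wt2_zero hz) hu.continuousOn
  have e1 : ∀ z, wt a δ z * lap u z =
      ∑ j, (wt a δ z * hess u z (eR j) (eR j) + wt a δ z * hess u z (eI j) (eI j)) := by
    intro z
    unfold lap
    rw [Finset.mul_sum]
    exact Finset.sum_congr rfl fun j _ => by ring
  have e2 : ∀ z, wtLap a δ z * u z =
      ∑ j, (wt2 a δ (eR j) z * u z + wt2 a δ (eI j) z * u z) := by
    intro z
    unfold wtLap
    rw [Finset.sum_mul]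
    exact Finset.sum_congr rfl fun j _ => by ring
  have f1 : ∀ j : Fin n, Integrable (fun z => wt a δ z * hess u z (eR j) (eR j) +
      wt a δ z * hess u z (eI j) (eI j)) := fun j => (hi _).add (hi _)
  have f2 : ∀ j : Fin n, Integrable (fun z => wt2 a δ (eR j) z * u z +
      wt2 a δ (eI j) z * u z) := fun j => (hi2 _).add (hi2 _)
  simp_rw [e1, e2]
  rw [integral_finsetSum _ fun j _ => f1 j, integral_finsetSum _ fun j _ => f2 j]
  refine Finset.sum_congr rfl fun j _ => ?_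
  rw [integral_add (hi _) (hi _), integral_add (hi2 _) (hi2 _),
    ibp2 hΩ hδ hB hu, ibp2 hΩ hδ hB hu]

lemma wt_nonneg (a : Cn n) (δ : ℝ) (z : Cn n) : 0 ≤ wt a δ z := by
  unfold wt; positivity

lemma integrable_wt (a : Cn n) {δ : ℝ} (hδ : 0 ≤ δ) : Integrable (wt a δ) := by
  have := integrable_mul' (isCompact_BB a hδ) (subset_univ _) (continuous_wt a δ)
    (fun z hz => wt_zero hz) (continuousOn_const (c := (1 : ℝ)))
  simpa using this

lemma sq_self (a : Cn n) : sq a a = 0 := by simp [sq]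

lemma integral_wt_pos (a : Cn n) {δ : ℝ} (hδ : 0 < δ) : 0 < ∫ z, wt a δ z := by
  rw [integral_pos_iff_support_of_nonneg (wt_nonneg a δ) (integrable_wt a hδ.le)]
  have h1 : IsOpen (Function.support (wt a δ)) :=
    (continuous_wt a δ).isOpen_support
  refine h1.measure_pos (μ := (volume : Measure (Cn n))) ?_
  refine ⟨a, ?_⟩
  simp only [Function.mem_support, wt, sq_self, sub_zero]
  rw [max_eq_left (by positivity)]
  positivity

/-- maximum principle -/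
lemma le_of_boundary {Ω : Set (Cn n)} (hn : 1 ≤ n) (hΩ : IsOpen Ω) (hb : Bornology.IsBounded Ω)
    {f : Cn n → ℝ} (hf : ContinuousOn f (closure Ω)) (hf2 : ContDiffOn ℝ 2 f Ω)
    (hp : ∀ z ∈ Ω, (complexHessian f z).PosDef) {M : ℝ} (hM : ∀ z ∈ frontier Ω, f z ≤ M) :
    ∀ z ∈ closure Ω, f z ≤ M := by
  intro z hz
  have hc : IsCompact (closure Ω) := hb.isCompact_closure
  obtain ⟨x, hx, hmax⟩ := hc.exists_isMaxOn ⟨z, hz⟩ hf
  have hxz : f z ≤ f x := hmax hz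
  by_cases hxΩ : x ∈ Ω
  · exfalso
    have hloc : IsLocalMax f x := by
      filter_upwards [hΩ.mem_nhds hxΩ] with y hy using hmax (subset_closure hy)
    exact no_local_max hn (hf2.contDiffAt (hΩ.mem_nhds hxΩ)) (hp x hxΩ) hloc
  · have : x ∈ frontier Ω := by
      rw [frontier, hΩ.interior_eq]
      exact ⟨hx, hxΩ⟩
    exact hxz.trans (hM x this)

end Pool.Agent.H789R2.Flow
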