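import Pool.Agent.H789R2.Flow3

set_option autoImplicit false

open Set Filter Topology Metric MeasureTheory
open scoped ContDiff ComplexOrder

namespace Pool.Agent.H789R2.Flow

variable {n : ℕ}

/-- time derivative -/
noncomputable def ut (u : Cn n × ℝ → ℝ) (p : Cn n × ℝ) : ℝ := fderiv ℝ u p (0, 1)

lemma hasDerivAt_time {Ω : Set (Cn n)} (hΩ : IsOpen Ω) {T : ℝ} {u : Cn n × ℝ → ℝ}
    (hu : ContDiffOn ℝ ∞ u (Ω ×ˢ Ioo 0 T)) {z : Cn n} (hz : z ∈ Ω) {t : ℝ} (ht : t ∈ Ioo 0 T) :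
    HasDerivAt (fun s => u (z, s)) (ut u (z, t)) t := by
  have ho : IsOpen (Ω ×ˢ Ioo (0 : ℝ) T) := hΩ.prod isOpen_Ioo
  have h1 : HasFDerivAt u (fderiv ℝ u (z, t)) (z, t) :=
    ((hu.contDiffAt (ho.mem_nhds ⟨hz, ht⟩)).differentiableAt (by simp)).hasFDerivAt
  have h2 : HasDerivAt (fun s : ℝ => (z, s)) ((0 : Cn n), (1 : ℝ)) t :=
    (hasDerivAt_const t z).prodMk (hasDerivAt_id t)
  exact h1.comp_hasDerivAt t h2

lemma continuousOn_ut {Ω : Set (Cn n)} (hΩ : IsOpen Ω) {T : ℝ} {u : Cn n × ℝ → ℝ}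
    (hu : ContDiffOn ℝ ∞ u (Ω ×ˢ Ioo 0 T)) : ContinuousOn (ut u) (Ω ×ˢ Ioo 0 T) := by
  have ho : IsOpen (Ω ×ˢ Ioo (0 : ℝ) T) := hΩ.prod isOpen_Ioo
  exact (hu.continuousOn_fderiv_of_isOpen ho (by simp)).clm_apply continuousOn_const

lemma contDiffOn_slice {S : Set (Cn n)} {T : ℝ} {u : Cn n × ℝ → ℝ}
    (hu : ContDiffOn ℝ ∞ u (S ×ˢ Ioo 0 T)) {t : ℝ} (ht : t ∈ Ioo 0 T) :
    ContDiffOn ℝ ∞ (fun z => u (z, t)) S := by
  have h1 : ContDiffOn ℝ ∞ (fun z : Cn n => (z, t)) S :=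
    (contDiff_id.prodMk contDiff_const).contDiffOn
  exact hu.comp h1 fun z hz => ⟨hz, ht⟩

/-- the weighted integral -/
noncomputable def JJ (a : Cn n) (δ M : ℝ) (u : Cn n × ℝ → ℝ) (s : ℝ) : ℝ :=
  ∫ z, wt a δ z * (u (z, s) - M)

lemma hasDerivAt_JJ {Ω : Set (Cn n)} (hΩ : IsOpen Ω) {T : ℝ} {u : Cn n × ℝ → ℝ}
    (hu : ContDiffOn ℝ ∞ u (Ω ×ˢ Ioo 0 T)) {a : Cn n} {δ : ℝ} (hδ : 0 < δ) (hB : BB a δ ⊆ Ω)
    (M : ℝ) {t : ℝ} (ht : t ∈ Ioo 0 T) :
    Integrable (fun z => wt a δ z * ut u (z, t)) ∧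
      HasDerivAt (JJ a δ M u) (∫ z, wt a δ z * ut u (z, t)) t := by
  have hK := isCompact_BB a hδ.le
  obtain ⟨η, hη, hη2⟩ : ∃ η > 0, Icc (t - η) (t + η) ⊆ Ioo 0 T := by
    obtain ⟨η, hη, h⟩ := Metric.isOpen_iff.mp (isOpen_Ioo (a := (0 : ℝ)) (b := T)) t ht
    refine ⟨η / 2, by positivity, ?_⟩
    intro s hs
    apply h
    rw [Metric.mem_ball, Real.dist_eq, abs_lt]
    constructor <;> linarith [hs.1, hs.2]
  have hcomp : IsCompact (BB a δ ×ˢ Icc (t - η) (t + η)) := hK.prod isCompact_Icc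
  obtain ⟨Cb, hCb⟩ := hcomp.exists_bound_of_continuousOn
    ((continuousOn_ut hΩ hu).mono (prod_mono hB hη2))
  have hsl : ∀ s ∈ Ioo 0 T, ContinuousOn (fun z => u (z, s) - M) Ω := fun s hs =>
    (contDiffOn_slice hu hs).continuousOn.sub continuousOn_const
  have hnh : Icc (t - η) (t + η) ∈ 𝓝 t := Icc_mem_nhds (by linarith) (by linarith)
  apply hasDerivAt_integral_of_dominated_loc_of_deriv_le (bound := fun z => wt a δ z * Cb)
    (F' := fun s z => wt a δ z * ut u (z, s)) hnh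
  · filter_upwards [hnh] with s hs
    exact (integrable_mul' hK hB (continuous_wt a δ) (fun z hz => wt_zero hz)
      (hsl s (hη2 hs))).aestronglyMeasurable
  · exact integrable_mul' hK hB (continuous_wt a δ) (fun z hz => wt_zero hz) (hsl t ht)
  · have : ContinuousOn (fun z => ut u (z, t)) Ω :=
      (continuousOn_ut hΩ hu).comp (by fun_prop) fun z hz => ⟨hz, ht⟩
    exact (integrable_mul' hK hB (continuous_wt a δ) (fun z hz => wt_zero hz)
      this).aestronglyMeasurable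
  · refine Eventually.of_forall fun z s hs => ?_
    by_cases hz : z ∈ BB a δ
    · rw [norm_mul, Real.norm_of_nonneg (wt_nonneg a δ z)]
      exact mul_le_mul_of_nonneg_left (hCb (z, s) ⟨hz, hs⟩) (wt_nonneg a δ z)
    · rw [wt_zero hz]; simp
  · exact (integrable_wt a hδ.le).mul_const Cb
  · refine Eventually.of_forall fun z s hs => ?_
    by_cases hz : z ∈ BB a δ
    · exact ((hasDerivAt_time hΩ hu (hB hz) (hη2 hs)).sub_const M).const_mul (wt a δ z)
    · simp only [wt_zero hz, zero_mul]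
      exact hasDerivAt_const _ _

lemma hess_sub_const (f : Cn n → ℝ) (M : ℝ) (z v w : Cn n) :
    hess (fun y => f y - M) z v w = hess f z v w := by
  unfold hess
  have : fderiv ℝ (fun y => f y - M) = fderiv ℝ f := by
    funext y
    exact fderiv_sub_const M
  rw [this]

lemma lap_sub_const (f : Cn n → ℝ) (M : ℝ) (z : Cn n) :
    lap (fun y => f y - M) z = lap f z := by
  unfold lap
  simp_rw [hess_sub_const]

lemma deriv_bound {Ω : Set (Cn n)} (hΩ : IsOpen Ω) {T : ℝ} {u : Cn n × ℝ → ℝ}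
    (hu : ContDiffOn ℝ ∞ u (Ω ×ˢ Ioo 0 T)) {a : Cn n} {δ : ℝ} (hδ : 0 < δ) (hB : BB a δ ⊆ Ω)
    {M : ℝ} {t : ℝ} (ht : t ∈ Ioo 0 T) (hM : ∀ z ∈ Ω, u (z, t) ≤ M)
    (hp : ∀ z ∈ Ω, (complexHessian (fun y => u (y, t)) z).PosDef)
    (hflow : ∀ z ∈ Ω, deriv (fun s => u (z, s)) t =
      Real.log (complexHessian (fun y => u (y, t)) z).det.re) :
    ∫ z, wt a δ z * ut u (z, t) ≤ -((n + 2) ^ 2 / 2) * JJ a δ M u t +
      (-(2 * n * Real.log δ)) * ∫ z, wt a δ z := by
  have hK := isCompact_BB a hδ.le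
  have h2 : ContDiffOn ℝ 2 (fun z => u (z, t) - M) Ω :=
    ((contDiffOn_slice hu ht).of_le (by norm_cast)).sub contDiffOn_const
  have hlapc : ContinuousOn (fun z => lap (fun y => u (y, t) - M) z) Ω := by
    unfold lap
    exact continuousOn_finsetSum _ fun j _ =>
      (continuousOn_hess hΩ h2 _ _).add (continuousOn_hess hΩ h2 _ _)
  have i1 := (hasDerivAt_JJ hΩ hu hδ hB M ht).1
  have i2 : Integrable fun z => wt a δ z * lap (fun y => u (y, t) - M) z :=
    integrable_mul' hK hB (continuous_wt a δ) (fun z hz => wt_zero hz) hlapc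
  have i3 := integrable_wt a hδ.le
  have step1 : ∫ z, wt a δ z * ut u (z, t) ≤
      ∫ z, ((δ ^ 2 / 4) * (wt a δ z * lap (fun y => u (y, t) - M) z) +
        (-(2 * n * Real.log δ)) * wt a δ z) := by
    apply integral_mono i1 ((i2.const_mul _).add (i3.const_mul _))
    intro z
    by_cases hz : z ∈ BB a δ
    · have hzΩ := hB hz
      have e1 : ut u (z, t) = Real.log (complexHessian (fun y => u (y, t)) z).det.re := by
        rw [← hflow z hzΩ, (hasDerivAt_time hΩ hu hzΩ ht).deriv]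
      have e2 := log_det_le (hp z hzΩ) (k := δ ^ 2) (by positivity)
      rw [trace_complexHessian, ← e1, Real.log_pow] at e2
      have e3 : ut u (z, t) ≤ (δ ^ 2 / 4) * lap (fun y => u (y, t) - M) z +
          (-(2 * n * Real.log δ)) := by
        rw [lap_sub_const]
        push_cast at e2
        have hn0 : (0 : ℝ) ≤ n := Nat.cast_nonneg n
        nlinarith
      have := mul_le_mul_of_nonneg_left e3 (wt_nonneg a δ z)
      show wt a δ z * ut u (z, t) ≤ (δ ^ 2 / 4) * (wt a δ z * lap (fun y => u (y, t) - M) z) +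
        (-(2 * n * Real.log δ)) * wt a δ z
      linarith
    · simp [wt_zero hz]
  have step2 : ∫ z, wt a δ z * lap (fun y => u (y, t) - M) z ≤
      -(2 * (n + 2) ^ 2 / δ ^ 2) * JJ a δ M u t := by
    rw [ibp_lap hΩ hδ.le hB h2]
    unfold JJ
    rw [← integral_const_mul]
    apply integral_mono
    · exact integrable_mul' hK hB (continuous_wtLap a δ) (fun z hz => wtLap_zero hz) h2.continuousOn
    · exact (integrable_mul' hK hB (continuous_wt a δ) (fun z hz => wt_zero hz)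
        h2.continuousOn).const_mul _
    · intro z
      by_cases hz : z ∈ BB a δ
      · have hv : u (z, t) - M ≤ 0 := by linarith [hM z (hB hz)]
        have := mul_le_mul_of_nonpos_right (wtLap_ge a hδ z) hv
        simp only
        linarith
      · simp [wt_zero hz, wtLap_zero hz]
  rw [integral_add (i2.const_mul _) (i3.const_mul _), integral_const_mul,
    integral_const_mul] at step1
  have step3 : (δ ^ 2 / 4) * ∫ z, wt a δ z * lap (fun y => u (y, t) - M) z ≤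
      (δ ^ 2 / 4) * (-(2 * (n + 2) ^ 2 / δ ^ 2) * JJ a δ M u t) :=
    mul_le_mul_of_nonneg_left step2 (by positivity)
  have e4 : (δ ^ 2 / 4) * (-(2 * ((n : ℝ) + 2) ^ 2 / δ ^ 2) * JJ a δ M u t) =
      -(((n : ℝ) + 2) ^ 2 / 2) * JJ a δ M u t := by
    field_simp
    ring
  rw [e4] at step3
  linarith

end Pool.Agent.H789R2.Flow
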