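import Pool.Agent.H789R2.Flow4

set_option autoImplicit false

open Set Filter Topology Metric MeasureTheory
open scoped ContDiff ComplexOrder

namespace Pool.Agent.H789R2.Flow

variable {n : ℕ}

lemma eucl_eq (a z : Cn n) : eucl (z - a) = Real.sqrt (sq a z) := by
  unfold eucl
  rw [sq_eq]
  rfl

lemma eucl_pos {a z : Cn n} (h : z ≠ a) : 0 < eucl (z - a) := by
  rw [eucl_eq, Real.sqrt_pos]
  by_contra hcon
  apply h
  have h0 : sq a z ≤ 0 ^ 2 := by simpa using hcon
  have := norm_le_of_sq le_rfl h0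
  have h1 : ‖z - a‖ = 0 := le_antisymm this (norm_nonneg _)
  exact sub_eq_zero.mp (norm_eq_zero.mp h1)

lemma eucl_le {a z : Cn n} {δ : ℝ} (hδ : 0 ≤ δ) (h : z ∈ BB a δ) : eucl (z - a) ≤ δ := by
  rw [eucl_eq]
  exact Real.sqrt_le_iff.mpr ⟨hδ, h⟩

/-- the initial layer: a weighted integral tends to zero -/
lemma tendsto_layer (hn : 1 ≤ n) {Ω : Set (Cn n)} {T t₁ : ℝ} {u : Cn n × ℝ → ℝ}
    (ht₁ : 0 < t₁) (htT : t₁ < T) {u₀ : Cn n → EReal}
    (hu : ContDiffOn ℝ ∞ u (Ω ×ˢ Ioo 0 T)) {a : Cn n} {δ : ℝ} (hδ : 0 < δ) (hB : BB a δ ⊆ Ω)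
    {M b : ℝ} (hM : ∀ t ∈ Ioc 0 t₁, ∀ z ∈ Ω, u (z, t) ≤ M)
    (h0 : ∀ z ∈ Ω, Tendsto (fun t => ((u (z, t) : ℝ) : EReal)) (𝓝[>] 0) (𝓝 (u₀ z)))
    (hb : ∀ z ∈ BB a δ, z ≠ a → u₀ z ≤ ((b : ℝ) : EReal)) :
    Tendsto (fun s => ∫ z, wt a δ z * max (u (z, s) - b) 0) (𝓝[>] 0) (𝓝 0) := by
  have hK := isCompact_BB a hδ.le
  have hsmall : ∀ᶠ s in 𝓝[>] (0 : ℝ), s ∈ Ioc 0 t₁ := Ioc_mem_nhdsGT ht₁
  have h := tendsto_integral_filter_of_dominated_convergence (μ := (volume : Measure (Cn n)))
    (l := 𝓝[>] (0 : ℝ))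
    (F := fun s z => wt a δ z * max (u (z, s) - b) 0) (f := fun _ => (0 : ℝ))
    (fun z => wt a δ z * |M - b|) ?_ ?_ ((integrable_wt a hδ.le).mul_const _) ?_
  · simpa using h
  · filter_upwards [hsmall] with s hs
    have hs' : s ∈ Ioo 0 T := ⟨hs.1, hs.2.trans_lt htT⟩
    have hc : ContinuousOn (fun z => max (u (z, s) - b) 0) Ω :=
      ((contDiffOn_slice hu hs').continuousOn.sub continuousOn_const).sup continuousOn_const
    exact (integrable_mul' hK hB (continuous_wt a δ) (fun z hz => wt_zero hz)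
      hc).aestronglyMeasurable
  · filter_upwards [hsmall] with s hs
    refine Eventually.of_forall fun z => ?_
    by_cases hz : z ∈ BB a δ
    · rw [norm_mul, Real.norm_of_nonneg (wt_nonneg a δ z)]
      apply mul_le_mul_of_nonneg_left _ (wt_nonneg a δ z)
      rw [Real.norm_of_nonneg (le_max_right _ _)]
      apply max_le _ (abs_nonneg _)
      have := hM s hs z (hB hz)
      exact (by linarith : u (z, s) - b ≤ M - b).trans (le_abs_self _)
    · rw [wt_zero hz]; simp
  · have : Nonempty (Fin n) := ⟨⟨0, hn⟩⟩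
    have : Nontrivial (Cn n) := Function.nontrivial
    have : NullSingletonClass (volume : Measure (Cn n)) := inferInstance
    have hae : ∀ᵐ z ∂(volume : Measure (Cn n)), z ≠ a := by
      have : (volume : Measure (Cn n)) {a} = 0 := measure_singleton a
      rw [ae_iff]
      simpa using this
    filter_upwards [hae] with z hza
    by_cases hz : z ∈ BB a δ
    · have h1 : Tendsto (fun s => max (u (z, s) - b) 0) (𝓝[>] 0) (𝓝 0) := by
        rw [tendsto_order]
        constructor
        · intro x hx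
          exact Eventually.of_forall fun s => lt_of_lt_of_le hx (le_max_right _ _)
        · intro x hx
          have h2 : u₀ z < ((b + x : ℝ) : EReal) :=
            lt_of_le_of_lt (hb z hz hza) (by exact_mod_cast (by linarith : b < b + x))
          have h3 := (tendsto_order.mp (h0 z (hB hz))).2 _ h2
          filter_upwards [h3] with s hs
          have hs' : u (z, s) < b + x := by exact_mod_cast hs
          exact max_lt (by linarith) hx
      have := h1.const_mul (wt a δ z)
      simpa using this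
    · simp only [wt_zero hz, zero_mul]
      exact tendsto_const_nhds

/-- A positive Lelong number at a point of the domain excludes any solution. -/
theorem no_solution (hn : 1 ≤ n) (D : Data n) (hopen : IsOpen D.Ω)
    (hbdd : Bornology.IsBounded D.Ω) (hT : 0 < D.T)
    (hφ : ContinuousOn D.φ (closure D.Ω ×ˢ Ico 0 D.T)) {a : Cn n} (ha : a ∈ D.Ω)
    (hL : PosLelong D.u₀ a) (u : Cn n × ℝ → ℝ) (hu : D.IsSolution u) : False := by
  obtain ⟨γ, hγ, C₀, hC₀⟩ := hL
  set T := D.T with hTdef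
  set Ω := D.Ω with hΩdef
  have hu' : ContDiffOn ℝ ∞ u (Ω ×ˢ Ioo 0 T) := hu.smooth.mono (prod_mono subset_closure le_rfl)
  -- the constants
  set c : ℝ := ((n : ℝ) + 2) ^ 2 / 2 with hc
  have hcpos : 0 < c := by positivity
  set t₁ : ℝ := min (T / 2) (min 1 (γ / (4 * (n + 1) * Real.exp c))) with ht₁
  have ht₁pos : 0 < t₁ := by
    rw [ht₁]
    apply lt_min (by linarith)
    apply lt_min one_pos
    positivity
  have ht₁T : t₁ ≤ T / 2 := min_le_left _ _
  have ht₁1 : t₁ ≤ 1 := (min_le_right _ _).trans (min_le_left _ _)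
  have ht₁γ : t₁ ≤ γ / (4 * (n + 1) * Real.exp c) := (min_le_right _ _).trans (min_le_right _ _)
  have hexp : 2 * n * t₁ * Real.exp (c * t₁) ≤ γ / 2 := by
    have h1 : Real.exp (c * t₁) ≤ Real.exp c := by
      apply Real.exp_le_exp.mpr
      nlinarith
    have h2 : t₁ * (4 * (n + 1) * Real.exp c) ≤ γ := by
      rwa [le_div_iff₀ (by positivity)] at ht₁γ
    have hn0 : (0 : ℝ) ≤ n := Nat.cast_nonneg n
    have h3 : 2 * n * t₁ * Real.exp (c * t₁) ≤ 2 * n * t₁ * Real.exp c :=
      mul_le_mul_of_nonneg_left h1 (by positivity)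
    have h4 : 0 < t₁ * Real.exp c := by positivity
    nlinarith
  have ht₁mem : t₁ ∈ Ioo 0 T := ⟨ht₁pos, by linarith⟩
  -- the upper bound
  have hcl : IsCompact (closure Ω) := hbdd.isCompact_closure
  obtain ⟨M, hM⟩ : ∃ M, ∀ p ∈ closure Ω ×ˢ Icc 0 (T / 2), D.φ p ≤ M := by
    have h1 : IsCompact (closure Ω ×ˢ Icc 0 (T / 2)) := hcl.prod isCompact_Icc
    obtain ⟨M, hM⟩ := h1.exists_bound_of_continuousOn (hφ.mono (prod_mono le_rfl fun s hs =>
      ⟨hs.1, lt_of_le_of_lt hs.2 (by linarith)⟩))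
    exact ⟨M, fun p hp => (le_abs_self _).trans (hM p hp)⟩
  have hle : ∀ t ∈ Ioc 0 t₁, ∀ z ∈ closure Ω, u (z, t) ≤ M := by
    intro t ht
    have ht' : t ∈ Ioo 0 T := ⟨ht.1, by linarith [ht.2]⟩
    apply le_of_boundary hn hopen hbdd (contDiffOn_slice hu.smooth ht').continuousOn
      ((contDiffOn_slice hu' ht').of_le (by norm_cast)) (hu.spsh t ht')
    intro z hz
    rw [hu.boundary t ht' z hz]
    exact hM (z, t) ⟨frontier_subset_closure hz, ht.1.le, by linarith [ht.2]⟩
  have hleΩ : ∀ t ∈ Ioc 0 t₁, ∀ z ∈ Ω, u (z, t) ≤ M := fun t ht z hz =>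
    hle t ht z (subset_closure hz)
  -- a small ball
  obtain ⟨r, hr, hball⟩ : ∃ r > 0, ∀ z, ‖z - a‖ < r → z ∈ Ω ∧
      (z ≠ a → D.u₀ z ≤ ((γ * Real.log (eucl (z - a)) + C₀ : ℝ) : EReal)) := by
    have h1 : ∀ᶠ z in 𝓝 a, z ≠ a → D.u₀ z ≤ ((γ * Real.log (eucl (z - a)) + C₀ : ℝ) : EReal) :=
      eventually_nhdsWithin_iff.mp hC₀
    obtain ⟨r, hr, h⟩ := Metric.eventually_nhds_iff.mp ((hopen.eventually_mem ha).and h1)
    exact ⟨r, hr, fun z hz => h (by rwa [dist_eq_norm])⟩
  set δ₀ : ℝ := min (r / 2) (1 / 2) with hδ₀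
  have hδ₀pos : 0 < δ₀ := lt_min (by linarith) (by norm_num)
  have hBr : ∀ δ, 0 < δ → δ ≤ δ₀ → ∀ z ∈ BB a δ, ‖z - a‖ < r := by
    intro δ hδ hδδ z hz
    have h1 := norm_le_of_sq hδ.le hz
    have h2 : δ₀ ≤ r / 2 := min_le_left _ _
    linarith
  have hBΩ : ∀ δ, 0 < δ → δ ≤ δ₀ → BB a δ ⊆ Ω := fun δ h1 h2 z hz =>
    (hball z (hBr δ h1 h2 z hz)).1
  -- lower bound at time t₁
  obtain ⟨m, hm⟩ : ∃ m, ∀ z ∈ BB a δ₀, m ≤ u (z, t₁) := by
    obtain ⟨C, hC⟩ := (isCompact_BB a hδ₀pos.le).exists_bound_of_continuousOn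
      ((contDiffOn_slice hu' ht₁mem).continuousOn.mono (hBΩ δ₀ hδ₀pos le_rfl))
    exact ⟨-C, fun z hz => (abs_le.mp (hC z hz)).1⟩
  -- the key inequality
  have key : ∀ δ, 0 < δ → δ ≤ δ₀ → γ * Real.log δ + C₀ ≤ M →
      Real.exp (c * t₁) * (m - M) ≤ (γ / 2) * Real.log δ + C₀ - M := by
    intro δ hδ hδδ hbM
    set b := γ * Real.log δ + C₀ with hb
    set W := ∫ z, wt a δ z with hW
    have hWpos : 0 < W := integral_wt_pos a hδ
    have hB := hBΩ δ hδ hδδ
    have hδ1 : δ < 1 := by
      have : δ₀ ≤ 1 / 2 := min_le_right _ _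
      linarith
    have hlog : Real.log δ ≤ 0 := Real.log_nonpos hδ.le hδ1.le
    have hn0 : (0 : ℝ) ≤ n := Nat.cast_nonneg n
    have hub : ∀ z ∈ BB a δ, z ≠ a → D.u₀ z ≤ ((b : ℝ) : EReal) := by
      intro z hz hza
      refine ((hball z (hBr δ hδ hδδ z hz)).2 hza).trans ?_
      have h1 : Real.log (eucl (z - a)) ≤ Real.log δ :=
        Real.log_le_log (eucl_pos hza) (eucl_le hδ.le hz)
      have h2 : γ * Real.log (eucl (z - a)) + C₀ ≤ b := by
        rw [hb]
        nlinarith
      exact_mod_cast h2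
    have hlayer := tendsto_layer hn ht₁pos ht₁mem.2 hu' hδ hB hleΩ
      (fun z hz => hu.initial z (subset_closure hz)) hub
    set J := JJ a δ M u with hJ
    set E : ℝ := Real.exp (c * t₁) * ((-(2 * n * Real.log δ)) * W) with hE
    -- monotonicity
    have hB0 : 0 ≤ (-(2 * n * Real.log δ)) * W := by
      have : 0 ≤ -(2 * n * Real.log δ) := by nlinarith
      positivity
    have hanti : AntitoneOn (fun s => Real.exp (c * s) * J s - E * s) (Ioc 0 t₁) := by
      have hder : ∀ s ∈ Ioc 0 t₁, HasDerivAt (fun s => Real.exp (c * s) * J s - E * s)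
          (c * Real.exp (c * s) * J s + Real.exp (c * s) * (∫ z, wt a δ z * ut u (z, s)) - E) s := by
        intro s hs
        have hs' : s ∈ Ioo 0 T := ⟨hs.1, lt_of_le_of_lt hs.2 ht₁mem.2⟩
        have h1 := (hasDerivAt_JJ hopen hu' hδ hB M hs').2
        have h2 : HasDerivAt (fun s : ℝ => Real.exp (c * s)) (c * Real.exp (c * s)) s := by
          have := ((hasDerivAt_id s).const_mul c).exp
          simp only [id, mul_one] at this
          convert this using 1
          ring
        have h3 := (h2.mul h1).sub ((hasDerivAt_id s).const_mul E)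
        simp only [id, mul_one] at h3
        exact h3
      apply antitoneOn_of_deriv_nonpos (convex_Ioc 0 t₁)
      · exact fun s hs => (hder s hs).continuousAt.continuousWithinAt
      · intro s hs
        rw [interior_Ioc] at hs
        exact (hder s ⟨hs.1, hs.2.le⟩).differentiableAt.differentiableWithinAt
      · intro s hs
        rw [interior_Ioc] at hs
        have hs1 : s ∈ Ioc 0 t₁ := ⟨hs.1, hs.2.le⟩
        have hs' : s ∈ Ioo 0 T := ⟨hs.1, lt_trans hs.2 ht₁mem.2⟩
        rw [(hder s hs1).deriv]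
        have hdb := deriv_bound hopen hu' hδ hB hs' (hleΩ s hs1) (hu.spsh s hs')
          (hu.flow s hs')
        have h4 : Real.exp (c * s) * (∫ z, wt a δ z * ut u (z, s)) ≤
            Real.exp (c * s) * (-(((n : ℝ) + 2) ^ 2 / 2) * JJ a δ M u s +
              (-(2 * n * Real.log δ)) * W) :=
          mul_le_mul_of_nonneg_left hdb (Real.exp_pos _).le
        have h5 : Real.exp (c * s) * ((-(2 * n * Real.log δ)) * W) ≤ E := by
          rw [hE]
          apply mul_le_mul_of_nonneg_right _ hB0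
          apply Real.exp_le_exp.mpr
          nlinarith [hs.2]
        rw [← hc, ← hJ] at h4
        nlinarith
    have hbound : ∀ s ∈ Ioc 0 t₁, Real.exp (c * t₁) * J t₁ - E * t₁ ≤
        Real.exp (c * t₁) * (∫ z, wt a δ z * max (u (z, s) - b) 0) + (b - M) * W := by
      intro s hs
      have hs' : s ∈ Ioo 0 T := ⟨hs.1, lt_of_le_of_lt hs.2 ht₁mem.2⟩
      have h1 := hanti hs ⟨ht₁pos, le_rfl⟩ hs.2
      simp only at h1
      have hEpos : 0 ≤ E := by rw [hE]; positivity
      have hK := isCompact_BB a hδ.le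
      have hcs : ContinuousOn (fun z => u (z, s)) Ω := (contDiffOn_slice hu' hs').continuousOn
      have i1 : Integrable fun z => wt a δ z * (u (z, s) - M) :=
        integrable_mul' hK hB (continuous_wt a δ) (fun z hz => wt_zero hz)
          (hcs.sub continuousOn_const)
      have i2 : Integrable fun z => wt a δ z * max (u (z, s) - b) 0 :=
        integrable_mul' hK hB (continuous_wt a δ) (fun z hz => wt_zero hz)
          ((hcs.sub continuousOn_const).sup continuousOn_const)
      have h2 : J s ≤ (∫ z, wt a δ z * max (u (z, s) - b) 0) + (b - M) * W := by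
        rw [hJ, JJ, hW, ← integral_const_mul, ← integral_add i2 ((integrable_wt a hδ.le).const_mul _)]
        apply integral_mono i1 (i2.add ((integrable_wt a hδ.le).const_mul _))
        intro z
        show wt a δ z * (u (z, s) - M) ≤ wt a δ z * max (u (z, s) - b) 0 + (b - M) * wt a δ z
        have : u (z, s) - M ≤ max (u (z, s) - b) 0 + (b - M) := by
          have := le_max_left (u (z, s) - b) 0
          linarith
        have := mul_le_mul_of_nonneg_left this (wt_nonneg a δ z)
        linarith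
      have hR : 0 ≤ ∫ z, wt a δ z * max (u (z, s) - b) 0 :=
        integral_nonneg fun z => mul_nonneg (wt_nonneg a δ z) (le_max_right _ _)
      have h3 : Real.exp (c * s) * J s ≤
          Real.exp (c * s) * ((∫ z, wt a δ z * max (u (z, s) - b) 0) + (b - M) * W) :=
        mul_le_mul_of_nonneg_left h2 (Real.exp_pos _).le
      have h4 : Real.exp (c * s) * (∫ z, wt a δ z * max (u (z, s) - b) 0) ≤
          Real.exp (c * t₁) * ∫ z, wt a δ z * max (u (z, s) - b) 0 := by
        apply mul_le_mul_of_nonneg_right _ hR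
        apply Real.exp_le_exp.mpr
        nlinarith [hs.2]
      have h5 : Real.exp (c * s) * ((b - M) * W) ≤ (b - M) * W := by
        have h6 : 1 ≤ Real.exp (c * s) := Real.one_le_exp (by nlinarith [hs.1])
        have h7 : (b - M) * W ≤ 0 := mul_nonpos_of_nonpos_of_nonneg (by linarith) hWpos.le
        nlinarith
      have h8 : 0 ≤ E * s := mul_nonneg hEpos hs.1.le
      nlinarith
    have hlim : Real.exp (c * t₁) * J t₁ - E * t₁ ≤ Real.exp (c * t₁) * 0 + (b - M) * W := by
      apply ge_of_tendsto ((hlayer.const_mul (Real.exp (c * t₁))).add_const ((b - M) * W))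
      filter_upwards [Ioc_mem_nhdsGT ht₁pos] with s hs using hbound s hs
    have hJlow : (m - M) * W ≤ J t₁ := by
      have hK := isCompact_BB a hδ.le
      rw [hJ, JJ, hW, ← integral_const_mul]
      apply integral_mono ((integrable_wt a hδ.le).const_mul _)
      · exact integrable_mul' hK hB (continuous_wt a δ) (fun z hz => wt_zero hz)
          ((contDiffOn_slice hu' ht₁mem).continuousOn.sub continuousOn_const)
      · intro z
        by_cases hz : z ∈ BB a δ
        · have hz0 : z ∈ BB a δ₀ := by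
            have h1 : sq a z ≤ δ ^ 2 := hz
            have h2 : δ ^ 2 ≤ δ₀ ^ 2 := pow_le_pow_left₀ hδ.le hδδ 2
            exact h1.trans h2
          have h1 := hm z hz0
          have := mul_le_mul_of_nonneg_left (by linarith : m - M ≤ u (z, t₁) - M)
            (wt_nonneg a δ z)
          simp only
          linarith
        · simp [wt_zero hz]
    have h1 : Real.exp (c * t₁) * ((m - M) * W) ≤ Real.exp (c * t₁) * J t₁ :=
      mul_le_mul_of_nonneg_left hJlow (Real.exp_pos _).le
    have h2 : Real.exp (c * t₁) * (m - M) * W ≤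
        (Real.exp (c * t₁) * (-(2 * n * Real.log δ)) * t₁ + (b - M)) * W := by
      rw [hE] at hlim
      linarith
    have h3 := le_of_mul_le_mul_right h2 hWpos
    have h4 : Real.exp (c * t₁) * (-(2 * n * Real.log δ)) * t₁ ≤ (γ / 2) * (-Real.log δ) := by
      have := mul_le_mul_of_nonneg_right hexp (by linarith : 0 ≤ -Real.log δ)
      linarith
    rw [hb] at h3
    linarith
  -- conclusion
  have ht : Tendsto (fun δ => (γ / 2) * Real.log δ) (𝓝[>] 0) atBot :=
    Real.tendsto_log_nhdsGT_zero.const_mul_atBot (by positivity)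
  have ev1 := ht.eventually_lt_atBot (Real.exp (c * t₁) * (m - M) - C₀ + M)
  have ht2 : Tendsto (fun δ => γ * Real.log δ) (𝓝[>] 0) atBot :=
    Real.tendsto_log_nhdsGT_zero.const_mul_atBot hγ
  have ev2 := ht2.eventually_lt_atBot (M - C₀)
  have ev3 : ∀ᶠ δ in 𝓝[>] (0 : ℝ), δ ∈ Ioc 0 δ₀ := Ioc_mem_nhdsGT hδ₀pos
  obtain ⟨δ, h1, h2, h3⟩ := (ev1.and (ev2.and ev3)).exists
  have := key δ h3.1 h3.2 (by linarith)
  linarith

end Pool.Agent.H789R2.Flow
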