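import Mathlib

set_option autoImplicit false

open Set Filter Topology Metric MeasureTheory
open scoped ContDiff ComplexOrder

namespace Pool.Agent.H789R2.Flow

/-- complex n-space (with its usual topology and smooth structure) -/
abbrev Cn (n : ℕ) : Type := Fin n → ℂ

/-- the Euclidean norm of complex n-space, `|z| = (∑ |z_i|^2)^(1/2)` -/
noncomputable def eucl {n : ℕ} (z : Cn n) : ℝ := Real.sqrt (∑ i, ‖z i‖ ^ 2)

/-- the real coordinate directions `∂/∂x_j` and `∂/∂y_j`, where `z_j = x_j + i y_j` -/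
noncomputable def eR {n : ℕ} (j : Fin n) : Cn n := Pi.single j (1 : ℂ)

noncomputable def eI {n : ℕ} (j : Fin n) : Cn n := Pi.single j Complex.I

/-- the (real) second derivative `D^2 f (z)(v,w)` -/
noncomputable def hess {n : ℕ} (f : Cn n → ℝ) (z v w : Cn n) : ℝ :=
  fderiv ℝ (fderiv ℝ f) z v w

/-- The complex Hessian, with entries `∂²f/∂z_j∂\bar z_l`. -/
noncomputable def complexHessian {n : ℕ} (f : Cn n → ℝ) (z : Cn n) : Matrix (Fin n) (Fin n) ℂ :=
  Matrix.of fun j l => (1 / 4 : ℂ) *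
    (((hess f z (eR j) (eR l) + hess f z (eI j) (eI l) : ℝ) : ℂ) +
      Complex.I * ((hess f z (eR j) (eI l) - hess f z (eI j) (eR l) : ℝ) : ℂ))

/-- `u : ℂ^n → [-∞, ∞]` is plurisubharmonic on the open set `U`: on `U` it is nowhere `+∞` and not
identically `-∞`, it is upper semicontinuous, and at the centre `a` of every closed complex disc
`{a + t b : |t| ≤ 1}` contained in `U` it is at most its mean over the boundary circle (written
as: at most the mean of `max u M`, for every real `M`). -/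
def IsPshOn {n : ℕ} (U : Set (Cn n)) (u : Cn n → EReal) : Prop :=
  (∃ z ∈ U, u z ≠ ⊥) ∧ (∀ z ∈ U, u z ≠ ⊤) ∧ UpperSemicontinuousOn u U ∧
    ∀ (a b : Cn n) (M : ℝ), (∀ t : ℂ, ‖t‖ ≤ 1 → a + t • b ∈ U) →
      u a ≤ (((2 * Real.pi)⁻¹ * ∫ θ in (0 : ℝ)..(2 * Real.pi),
        (max (u (a + Complex.exp (θ * Complex.I) • b)) (M : EReal)).toReal : ℝ) : EReal)

/-- A bounded strictly pseudoconvex domain with smooth boundary: a bounded connected open set
`Ω = {z ∈ U : ρ z < 0}`, where `ρ` is a smooth strictly plurisubharmonic function on an open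
neighbourhood `U` of the closure of `Ω` whose differential does not vanish on the boundary. -/
def IsStrictlyPseudoconvexDomain {n : ℕ} (Ω : Set (Cn n)) : Prop :=
  IsOpen Ω ∧ IsConnected Ω ∧ Bornology.IsBounded Ω ∧
    ∃ (U : Set (Cn n)) (ρ : Cn n → ℝ), IsOpen U ∧ closure Ω ⊆ U ∧ ContDiffOn ℝ ∞ ρ U ∧
      (∀ z ∈ U, (complexHessian ρ z).PosDef) ∧ (∀ z ∈ frontier Ω, fderiv ℝ ρ z ≠ 0) ∧
      Ω = {z ∈ U | ρ z < 0}

/-- The data of the flow. -/
structure Data (n : ℕ) where
  /-- the domain -/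
  Ω : Set (Cn n)
  /-- the length of the time interval -/
  T : ℝ
  /-- the initial datum -/
  u₀ : Cn n → EReal
  /-- the boundary data -/
  φ : Cn n × ℝ → ℝ

/-- The standing assumptions on the data: `Ω` is a bounded strictly pseudoconvex domain with smooth
boundary, `T > 0`, `u₀` is plurisubharmonic on an open neighbourhood of the closure of `Ω`, and
`φ` is smooth on `closure Ω × [0,T)` with `φ(z,t) = u₀(z)` on the boundary. -/
structure Data.Admissible {n : ℕ} (D : Data n) : Prop where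
  domain : IsStrictlyPseudoconvexDomain D.Ω
  time : 0 < D.T
  psh : ∃ U : Set (Cn n), IsOpen U ∧ closure D.Ω ⊆ U ∧ IsPshOn U D.u₀
  smooth : ContDiffOn ℝ ∞ D.φ (closure D.Ω ×ˢ Ico 0 D.T)
  compat : ∀ z ∈ frontier D.Ω, ∀ t ∈ Ico 0 D.T, ((D.φ (z, t) : ℝ) : EReal) = D.u₀ z

/-- `u` is a solution of the flow with initial datum `u₀` and boundary data `φ`. -/
structure Data.IsSolution {n : ℕ} (D : Data n) (u : Cn n × ℝ → ℝ) : Prop where
  smooth : ContDiffOn ℝ ∞ u (closure D.Ω ×ˢ Ioo 0 D.T)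
  /-- condition 1: `u_t` is strictly plurisubharmonic in `Ω` -/
  spsh : ∀ t ∈ Ioo 0 D.T, ∀ z ∈ D.Ω, (complexHessian (fun y => u (y, t)) z).PosDef
  /-- condition 2: the flow equation -/
  flow : ∀ t ∈ Ioo 0 D.T, ∀ z ∈ D.Ω, deriv (fun s => u (z, s)) t =
    Real.log (complexHessian (fun y => u (y, t)) z).det.re
  /-- condition 3: the boundary values -/
  boundary : ∀ t ∈ Ioo 0 D.T, ∀ z ∈ frontier D.Ω, u (z, t) = D.φ (z, t)
  /-- condition 4: the initial values, attained at every point of the closure -/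
  initial : ∀ z ∈ closure D.Ω, Tendsto (fun t => ((u (z, t) : ℝ) : EReal)) (𝓝[>] 0) (𝓝 (D.u₀ z))

/-- `u₀` has a positive Lelong number at `a`: near `a` it is at most `γ log |z - a| + C`
for some `γ > 0` and some `C`. (The Lelong number is the supremum of all such `γ`.) -/
def PosLelong {n : ℕ} (u : Cn n → EReal) (a : Cn n) : Prop :=
  ∃ γ > (0 : ℝ), ∃ C : ℝ, ∀ᶠ z in 𝓝[≠] a, u z ≤ ((γ * Real.log (eucl (z - a)) + C : ℝ) : EReal)

end Pool.Agent.H789R2.Flow
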