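import Pool.Agent.H789R2.Flow5

set_option autoImplicit false

open Set Filter Topology Metric MeasureTheory
open scoped ContDiff ComplexOrder

namespace Pool.Agent.H789R2.Flow

variable {n : ℕ}

open Classical in
/-- `log |z|`, with value `-∞` at the origin -/
noncomputable def logNorm (z : Cn n) : EReal :=
  if z = 0 then ⊥ else ((Real.log (eucl z) : ℝ) : EReal)

/-- the open Euclidean unit ball -/
def ball1 (n : ℕ) : Set (Cn n) := {z | eucl z < 1}

lemma eucl_eq_sqrt (z : Cn n) : eucl z = Real.sqrt (sq 0 z) := by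
  have := eucl_eq (0 : Cn n) z
  simpa using this

lemma eucl_nonneg (z : Cn n) : 0 ≤ eucl z := Real.sqrt_nonneg _

lemma eucl_sq (z : Cn n) : eucl z ^ 2 = sq 0 z := by
  rw [eucl_eq_sqrt, Real.sq_sqrt (sq_nonneg' _ _)]

lemma continuous_eucl : Continuous (eucl : Cn n → ℝ) := by unfold eucl; fun_prop

lemma eucl_pos' {z : Cn n} (h : z ≠ 0) : 0 < eucl z := by
  have := eucl_pos (a := (0 : Cn n)) (z := z) h
  simpa using this

lemma eucl_zero : eucl (0 : Cn n) = 0 := by simp [eucl]

lemma eucl_smul (c : ℂ) (z : Cn n) : eucl (c • z) = ‖c‖ * eucl z := by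
  unfold eucl
  rw [← Real.sqrt_sq (norm_nonneg c), ← Real.sqrt_mul (by positivity), Finset.mul_sum]
  congr 1
  refine Finset.sum_congr rfl fun i _ => ?_
  simp [mul_pow]

lemma toReal_max (x : Cn n) (M : ℝ) :
    (max (logNorm x) (M : EReal)).toReal = Real.log (max (eucl x) (Real.exp M)) := by
  unfold logNorm
  split_ifs with h
  · rw [h, eucl_zero, max_eq_right bot_le, EReal.toReal_coe, max_eq_right (Real.exp_pos M).le,
      Real.log_exp]
  · have hp := eucl_pos' h
    rcases le_total (Real.log (eucl x)) M with h1 | h1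
    · rw [max_eq_right (by exact_mod_cast h1), EReal.toReal_coe, max_eq_right, Real.log_exp]
      exact (Real.log_le_iff_le_exp hp).mp h1
    · rw [max_eq_left (by exact_mod_cast h1), EReal.toReal_coe, max_eq_left]
      exact (Real.le_log_iff_exp_le hp).mp h1

/-- the linear form `z ↦ ⟨z, a⟩ / |a|` -/
noncomputable def ell (a z : Cn n) : ℂ := (∑ i, (starRingEnd ℂ) (a i) * z i) / (eucl a : ℂ)

lemma ell_self {a : Cn n} (ha : a ≠ 0) : ell a a = (eucl a : ℂ) := by
  unfold ell
  have h1 : ∑ i, (starRingEnd ℂ) (a i) * a i = ((eucl a ^ 2 : ℝ) : ℂ) := by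
    unfold eucl
    rw [Real.sq_sqrt (by positivity)]
    push_cast
    refine Finset.sum_congr rfl fun i _ => ?_
    rw [← Complex.normSq_eq_conj_mul_self, Complex.normSq_eq_norm_sq]
    push_cast; rfl
  rw [h1]
  have := eucl_pos' ha
  have h2 : (eucl a : ℂ) ≠ 0 := by exact_mod_cast this.ne'
  field_simp
  push_cast
  ring

lemma norm_ell_le {a : Cn n} (ha : a ≠ 0) (z : Cn n) : ‖ell a z‖ ≤ eucl z := by
  unfold ell
  have hp := eucl_pos' ha
  rw [norm_div, Complex.norm_real, Real.norm_of_nonneg hp.le, div_le_iff₀ hp]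
  calc ‖∑ i, (starRingEnd ℂ) (a i) * z i‖ ≤ ∑ i, ‖z i‖ * ‖a i‖ := by
        refine (norm_sum_le _ _).trans (le_of_eq ?_)
        refine Finset.sum_congr rfl fun i _ => ?_
        rw [norm_mul, RCLike.norm_conj, mul_comm]
    _ ≤ Real.sqrt (∑ i, ‖z i‖ ^ 2) * Real.sqrt (∑ i, ‖a i‖ ^ 2) :=
        Real.sum_mul_le_sqrt_mul_sqrt _ _ _
    _ = eucl z * eucl a := rfl

lemma ell_add_smul (a x y : Cn n) (c : ℂ) : ell a (x + c • y) = ell a x + c * ell a y := by
  unfold ell
  rw [← mul_div_assoc, ← add_div, Finset.mul_sum, ← Finset.sum_add_distrib]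
  congr 1
  refine Finset.sum_congr rfl fun i _ => ?_
  simp
  ring

lemma log_le_circleAverage {α β : ℂ} (hα : α ≠ 0) :
    CircleIntegrable (fun w => Real.log ‖α + w * β‖) 0 1 ∧
    Real.log ‖α‖ ≤ Real.circleAverage (fun w => Real.log ‖α + w * β‖) 0 1 := by
  constructor
  · apply MeromorphicOn.circleIntegrable_log_norm
    intro z _
    fun_prop
  by_cases hβ : β = 0
  · subst hβ
    simp only [mul_zero, add_zero, Real.circleAverage_const, le_refl]
  · have h0 : Real.circleAverage (fun w => Real.log ‖α + w * β‖) 0 1 =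
        Real.circleAverage (fun w => Real.log ‖β‖ + Real.log ‖w - (-(α / β))‖) 0 1 := by
      apply Real.circleAverage_congr_codiscreteWithin _ (zero_ne_one' ℝ).symm
      have : {z | ‖z - (-(α / β))‖ ≠ 0} ∈ codiscreteWithin (Metric.sphere (0 : ℂ) |1|) := by
        apply codiscreteWithin_iff_locallyFiniteComplementWithin.2
        intro z hz
        use Set.univ
        refine ⟨univ_mem, ?_⟩
        apply Set.Subsingleton.finite
        intro z₁ hz₁ z₂ hz₂
        have h1 : ‖z₁ - (-(α / β))‖ = 0 := by
          have := hz₁.2.2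
          simpa using this
        have h2 : ‖z₂ - (-(α / β))‖ = 0 := by
          have := hz₂.2.2
          simpa using this
        rw [norm_eq_zero, sub_eq_zero] at h1 h2
        rw [h1, h2]
      filter_upwards [this] with z hz
      have e : α + z * β = β * (z - (-(α / β))) := by
        field_simp
        ring
      rw [e, norm_mul, Real.log_mul (norm_ne_zero_iff.2 hβ) hz]
    have h1 : Real.circleAverage (fun w => Real.log ‖β‖ + Real.log ‖w - (-(α / β))‖) 0 1 =
        Real.log ‖β‖ + Real.posLog ‖-(α / β)‖ := by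
      rw [← Pi.add_def, Real.circleAverage_add (circleIntegrable_const (Real.log ‖β‖) 0 1)
        (MeromorphicOn.circleIntegrable_log_norm (fun _ _ ↦ by fun_prop)),
        Real.circleAverage_const, circleAverage_log_norm_sub_const_eq_posLog]
    rw [h0, h1, norm_neg, norm_div]
    have h2 : Real.log (‖α‖ / ‖β‖) ≤ Real.posLog (‖α‖ / ‖β‖) := le_max_right _ _
    rw [Real.log_div (norm_ne_zero_iff.2 hα) (norm_ne_zero_iff.2 hβ)] at h2
    linarith

lemma logNorm_submean (a b : Cn n) (M : ℝ) :
    logNorm a ≤ (((2 * Real.pi)⁻¹ * ∫ θ in (0 : ℝ)..(2 * Real.pi),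
        (max (logNorm (a + Complex.exp (θ * Complex.I) • b)) (M : EReal)).toReal : ℝ) : EReal) := by
  by_cases ha : a = 0
  · rw [logNorm, if_pos ha]; exact bot_le
  rw [show logNorm a = ((Real.log (eucl a) : ℝ) : EReal) from by rw [logNorm, if_neg ha]]
  rw [EReal.coe_le_coe_iff]
  simp_rw [toReal_max]
  have hp := eucl_pos' ha
  have hα : ell a a ≠ 0 := by rw [ell_self ha]; exact_mod_cast hp.ne'
  obtain ⟨hi, hle⟩ := log_le_circleAverage (β := ell a b) hα
  have e1 : Real.log (eucl a) = Real.log ‖ell a a‖ := by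
    rw [ell_self ha, Complex.norm_real, Real.norm_of_nonneg hp.le]
  rw [e1]
  refine hle.trans ?_
  rw [Real.circleAverage_def, smul_eq_mul]
  apply mul_le_mul_of_nonneg_left _ (by positivity)
  have hcont : Continuous fun θ : ℝ => Real.log (max (eucl (a + Complex.exp (θ * Complex.I) • b))
      (Real.exp M)) := by
    apply Continuous.log
    · have := continuous_eucl (n := n)
      fun_prop
    · intro θ
      have := Real.exp_pos M
      exact (lt_of_lt_of_le this (le_max_right _ _)).ne'
  apply intervalIntegral.integral_mono_ae (by positivity) hi (hcont.intervalIntegrable _ _)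
  have hcount : (circleMap 0 1 ⁻¹' {w : ℂ | ell a a + w * ell a b = 0}).Countable := by
    apply Set.Countable.preimage_circleMap _ 0 one_ne_zero
    apply Set.Subsingleton.countable
    intro w₁ h₁ w₂ h₂
    have h₁' : ell a a + w₁ * ell a b = 0 := h₁
    have h₂' : ell a a + w₂ * ell a b = 0 := h₂
    have hb : ell a b ≠ 0 := by
      intro hb
      rw [hb] at h₁'
      simp at h₁'
      exact hα h₁'
    have : (w₁ - w₂) * ell a b = 0 := by linear_combination h₁' - h₂'
    rcases mul_eq_zero.mp this with h | h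
    · exact sub_eq_zero.mp h
    · exact absurd h hb
  have hae : ∀ᵐ θ : ℝ, ell a a + circleMap 0 1 θ * ell a b ≠ 0 := by
    rw [ae_iff]
    have : {θ : ℝ | ¬ (ell a a + circleMap 0 1 θ * ell a b ≠ 0)} =
        circleMap 0 1 ⁻¹' {w : ℂ | ell a a + w * ell a b = 0} := by
      ext θ
      simp
    rw [this]
    exact hcount.measure_zero _
  filter_upwards [hae] with θ hθ
  have e2 : (circleMap 0 1 θ : ℂ) = Complex.exp (θ * Complex.I) := by
    simp [circleMap]
  rw [e2] at hθ ⊢
  rw [← ell_add_smul] at hθ ⊢
  apply Real.log_le_log (norm_pos_iff.mpr hθ)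
  exact (norm_ell_le ha _).trans (le_max_left _ _)

lemma psh_logNorm (hn : 1 ≤ n) : IsPshOn (univ : Set (Cn n)) logNorm := by
  refine ⟨?_, ?_, ?_, fun a b M _ => logNorm_submean a b M⟩
  · refine ⟨Pi.single ⟨0, hn⟩ 1, mem_univ _, ?_⟩
    have : (Pi.single (⟨0, hn⟩ : Fin n) (1 : ℂ) : Cn n) ≠ 0 := by
      intro h
      have := congrFun h ⟨0, hn⟩
      simp at this
    rw [logNorm, if_neg this]
    exact EReal.coe_ne_bot _
  · intro z _
    unfold logNorm
    split_ifs
    · exact bot_ne_top
    · exact EReal.coe_ne_top _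
  · intro z _ y hy
    rw [nhdsWithin_univ]
    by_cases hz : z = 0
    · subst hz
      have hy' : (⊥ : EReal) < y := by
        have : logNorm (0 : Cn n) = ⊥ := by rw [logNorm, if_pos rfl]
        rwa [this] at hy
      obtain ⟨M, hM1, hM2⟩ := EReal.lt_iff_exists_real_btwn.mp hy'
      have h1 : ∀ᶠ x : Cn n in 𝓝 0, eucl x < Real.exp M := by
        have := (continuous_eucl (n := n)).tendsto 0
        rw [eucl_zero] at this
        exact this.eventually (gt_mem_nhds (Real.exp_pos M))
      filter_upwards [h1] with x hx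
      by_cases hx0 : x = 0
      · rw [logNorm, if_pos hx0]; exact hy'
      · rw [logNorm, if_neg hx0]
        refine lt_trans ?_ hM2
        have := (Real.log_lt_iff_lt_exp (eucl_pos' hx0)).mpr hx
        exact_mod_cast this
    · have h1 : ContinuousAt (fun x : Cn n => ((Real.log (eucl x) : ℝ) : EReal)) z := by
        apply continuous_coe_real_ereal.continuousAt.comp
        exact (continuous_eucl.continuousAt).log (eucl_pos' hz).ne'
      have h2 : (logNorm : Cn n → EReal) =ᶠ[𝓝 z] fun x => ((Real.log (eucl x) : ℝ) : EReal) := by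
        filter_upwards [isOpen_ne.mem_nhds hz] with x hx
        rw [logNorm, if_neg hx]
      have h3 : ContinuousAt (logNorm : Cn n → EReal) z := h1.congr h2.symm
      exact h3.eventually (gt_mem_nhds hy)

/-- the derivative of the squared norm as a linear map -/
noncomputable def LL (n : ℕ) : Cn n →L[ℝ] (Cn n →L[ℝ] ℝ) :=
  LinearMap.toContinuousLinearMap
    { toFun := fun z => dqL 0 z
      map_add' := by
        intro x y
        ext v
        simp only [_root_.add_apply, dqL_apply]
        unfold dq
        rw [← Finset.sum_add_distrib]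
        refine Finset.sum_congr rfl fun i _ => ?_
        simp
        ring
      map_smul' := by
        intro c x
        ext v
        simp only [_root_.smul_apply, dqL_apply, RingHom.id_apply, smul_eq_mul]
        unfold dq
        rw [Finset.mul_sum]
        refine Finset.sum_congr rfl fun i _ => ?_
        simp
        ring }

lemma LL_apply (z : Cn n) : LL n z = dqL 0 z := rfl

/-- defining function of the ball -/
noncomputable def rho (z : Cn n) : ℝ := sq 0 z - 1

lemma fderiv_rho : fderiv ℝ (rho : Cn n → ℝ) = fun z => LL n z := by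
  funext z
  unfold rho
  rw [fderiv_sub_const]
  exact (hasFDerivAt_sq 0 z).fderiv

lemma hess_rho (z v w : Cn n) : hess rho z v w = dq 0 v w := by
  unfold hess
  rw [fderiv_rho]
  have : fderiv ℝ (fun z : Cn n => LL n z) z = LL n := (LL n).fderiv
  rw [this, LL_apply, dqL_apply]

lemma complexHessian_rho (z : Cn n) : complexHessian rho z = 1 := by
  ext j l
  unfold complexHessian
  simp only [Matrix.of_apply, hess_rho, dq_eR, dq_eI]
  by_cases h : j = l
  · subst h
    simp [eR, eI]
    norm_num
  · simp [eR, eI, Pi.single_apply, Ne.symm h, Matrix.one_apply_ne h]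

lemma sq_smul_real (t : ℝ) (z : Cn n) : sq 0 (t • z) = t ^ 2 * sq 0 z := by
  unfold sq
  rw [Finset.mul_sum]
  refine Finset.sum_congr rfl fun i _ => ?_
  simp
  ring

lemma ball1_eq : ball1 n = {z : Cn n | z ∈ (univ : Set (Cn n)) ∧ rho z < 0} := by
  ext z
  simp only [ball1, rho, mem_ofPred_eq, mem_univ, true_and, sub_neg]
  rw [← eucl_sq]
  constructor
  · intro h
    have := eucl_nonneg z
    nlinarith
  · intro h
    by_contra hcon
    push Not at hcon
    nlinarith

lemma isOpen_ball1 : IsOpen (ball1 n) := isOpen_lt continuous_eucl continuous_const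

lemma eucl_frontier {z : Cn n} (hz : z ∈ frontier (ball1 n)) : eucl z = 1 := by
  have h1 : z ∈ closure (ball1 n) := frontier_subset_closure hz
  have h2 : z ∉ ball1 n := by
    rw [frontier, isOpen_ball1.interior_eq] at hz
    exact hz.2
  have h3 : eucl z ≤ 1 := by
    have : closure (ball1 n) ⊆ {z | eucl z ≤ 1} :=
      closure_minimal (fun z (hz : eucl z < 1) => (show eucl z ≤ 1 from le_of_lt hz))
        (isClosed_le continuous_eucl continuous_const)
    exact this h1
  have h4 : 1 ≤ eucl z := not_lt.mp h2
  linarith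

lemma spc_ball1 (hn : 1 ≤ n) : IsStrictlyPseudoconvexDomain (ball1 n) := by
  refine ⟨isOpen_ball1, ?_, ?_, univ, rho, isOpen_univ, subset_univ _, ?_, ?_, ?_, ball1_eq⟩
  · have hs : StarConvex ℝ (0 : Cn n) (ball1 n) := by
      rw [starConvex_zero_iff]
      intro z hz t ht0 ht1
      have h1 : eucl z < 1 := hz
      show eucl (t • z) < 1
      have h2 : eucl (t • z) = t * eucl z := by
        have := eucl_smul (t : ℂ) z
        rw [Complex.norm_real, Real.norm_of_nonneg ht0] at this
        rw [← this]
        congr 1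
      rw [h2]
      have := eucl_nonneg z
      nlinarith
    have hne : (0 : Cn n) ∈ ball1 n := by show eucl 0 < 1; rw [eucl_zero]; norm_num
    exact (hs.isPathConnected hne).isConnected
  · apply (Metric.isBounded_closedBall (x := (0 : Cn n)) (r := 1)).subset
    intro z hz
    rw [mem_closedBall, dist_eq_norm]
    apply norm_le_of_sq zero_le_one
    have h1 : eucl z < 1 := hz
    have h2 := eucl_nonneg z
    rw [← eucl_sq]
    nlinarith
  · apply ContDiff.contDiffOn
    unfold rho sq
    apply ContDiff.sub _ contDiff_const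
    apply ContDiff.sum
    intro i _
    have h1 : ContDiff ℝ ∞ fun z : Cn n => z i - (0 : Cn n) i := by fun_prop
    exact ((Complex.reCLM.contDiff.comp h1).pow 2).add ((Complex.imCLM.contDiff.comp h1).pow 2)
  · intro z _
    rw [complexHessian_rho]
    exact Matrix.PosDef.one
  · intro z hz h0
    have h1 := eucl_frontier hz
    have h2 : fderiv ℝ rho z z = 2 * sq 0 z := by
      rw [fderiv_rho]
      show LL n z z = _
      rw [LL_apply, dqL_apply]
      unfold dq sq
      rw [Finset.mul_sum]
      refine Finset.sum_congr rfl fun i _ => ?_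
      simp
      ring
    rw [h0, ← eucl_sq, h1] at h2
    simp at h2

/-- the data: the unit ball, the initial datum `log |z|`, zero boundary data -/
noncomputable def exData (n : ℕ) (T : ℝ) : Data n where
  Ω := ball1 n
  T := T
  u₀ := logNorm
  φ := fun _ => 0

lemma exData_admissible (hn : 1 ≤ n) {T : ℝ} (hT : 0 < T) : (exData n T).Admissible where
  domain := spc_ball1 hn
  time := hT
  psh := ⟨univ, isOpen_univ, subset_univ _, psh_logNorm hn⟩
  smooth := contDiffOn_const
  compat := by
    intro z hz t _
    have h1 : eucl z = 1 := eucl_frontier hz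
    have h2 : z ≠ 0 := by
      intro h
      rw [h, eucl_zero] at h1
      exact zero_ne_one h1
    show ((0 : ℝ) : EReal) = logNorm z
    rw [logNorm, if_neg h2, h1, Real.log_one]

lemma posLelong_logNorm : PosLelong (logNorm : Cn n → EReal) 0 := by
  refine ⟨1, one_pos, 0, ?_⟩
  filter_upwards [self_mem_nhdsWithin] with z hz
  have hz' : z ≠ 0 := hz
  rw [logNorm, if_neg hz']
  simp

end Pool.Agent.H789R2.Flow
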