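import Mathlib

set_option autoImplicit false

open MeasureTheory Filter Topology Set
open scoped ENNReal

namespace Pool.Agent.H789R2.Green

abbrev Sq : Type := ℕ → Bool

/-- put the digit `b` in front -/
def cns (b : Bool) (τ : Sq) : Sq := fun n => Nat.casesOn n b τ

@[simp] lemma cns_zero (b : Bool) (τ : Sq) : cns b τ 0 = b := rfl

@[simp] lemma cns_succ (b : Bool) (τ : Sq) (n : ℕ) : cns b τ (n + 1) = τ n := rfl

/-- drop the first digit -/
def shf (τ : Sq) : Sq := fun n => τ (n + 1)

@[simp] lemma shf_cns (b : Bool) (τ : Sq) : shf (cns b τ) = τ := rfl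

lemma cns_shf (τ : Sq) : cns (τ 0) (shf τ) = τ := by
  funext n
  cases n with
  | zero => rfl
  | succ n => rfl

/-- the zero sequence -/
def zr : Sq := fun _ => false

lemma cns_zr : cns false zr = zr := by
  funext n
  cases n with
  | zero => rfl
  | succ n => rfl

lemma continuous_cns (b : Bool) : Continuous (cns b) := by
  apply continuous_pi
  intro n
  cases n with
  | zero => exact continuous_const
  | succ n => exact continuous_apply n

noncomputable def nu : Measure Bool :=
  (1 / 2 : ℝ≥0∞) • Measure.dirac false + (1 / 2 : ℝ≥0∞) • Measure.dirac true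

instance : IsProbabilityMeasure nu := by
  constructor
  simp [nu, ENNReal.inv_two_add_inv_two]

noncomputable def mu : Measure Sq := Measure.infinitePi (fun _ => nu)

instance : IsProbabilityMeasure mu := by
  unfold mu; infer_instance

lemma mu_pi_range (N : ℕ) (t : ℕ → Set Bool) :
    mu (Set.pi (Finset.range N : Set ℕ) t) = ∏ i ∈ Finset.range N, nu (t i) := by
  unfold mu
  exact Measure.infinitePi_pi _ (fun i _ => MeasurableSet.of_discrete)

lemma mu_eq : (1 / 2 : ℝ≥0∞) • mu.map (cns false) + (1 / 2 : ℝ≥0∞) • mu.map (cns true) = mu := by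
  apply Measure.eq_infinitePi
  intro s t ht
  -- enlarge `s` to an initial segment
  obtain ⟨N, hN⟩ : ∃ N, s ⊆ Finset.range (N + 1) := by
    refine ⟨s.sup id, fun i hi => ?_⟩
    rw [Finset.mem_range]
    exact Nat.lt_succ_of_le (Finset.le_sup (f := id) hi)
  classical
  set t' : ℕ → Set Bool := fun i => if i ∈ s then t i else univ with ht'
  have e1 : Set.pi (s : Set ℕ) t = Set.pi (Finset.range (N + 1) : Set ℕ) t' := by
    ext τ
    simp only [Set.mem_pi, Finset.mem_coe, ht']
    constructor
    · intro h i _
      split_ifs with hi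
      · exact h i hi
      · exact mem_univ _
    · intro h i hi
      have := h i (hN hi)
      rwa [if_pos hi] at this
  have e2 : ∏ i ∈ s, nu (t i) = ∏ i ∈ Finset.range (N + 1), nu (t' i) := by
    rw [← Finset.prod_subset hN]
    · refine Finset.prod_congr rfl fun i hi => ?_
      simp [ht', hi]
    · intro i _ hi
      simp only [ht', if_neg hi, measure_univ]
  rw [e2, e1]
  have hm : MeasurableSet (Set.pi (Finset.range (N + 1) : Set ℕ) t') :=
    MeasurableSet.pi (Finset.countable_toSet _) fun i _ => MeasurableSet.of_discrete
  have key : ∀ b, mu.map (cns b) (Set.pi (Finset.range (N + 1) : Set ℕ) t') =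
      (Measure.dirac b (t' 0)) * ∏ i ∈ Finset.range N, nu (t' (i + 1)) := by
    intro b
    rw [Measure.map_apply (continuous_cns b).measurable hm, Measure.dirac_apply]
    by_cases hb : b ∈ t' 0
    · have : cns b ⁻¹' (Set.pi (Finset.range (N + 1) : Set ℕ) t') =
          Set.pi (Finset.range N : Set ℕ) (fun i => t' (i + 1)) := by
        ext τ
        simp only [mem_preimage, Set.mem_pi, Finset.coe_range, mem_Iio]
        constructor
        · intro h i hi
          exact h (i + 1) (by omega)
        · intro h i hi
          cases i with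
          | zero => exact hb
          | succ i => exact h i (by omega)
      rw [this, mu_pi_range]
      simp [hb]
    · have : cns b ⁻¹' (Set.pi (Finset.range (N + 1) : Set ℕ) t') = ∅ := by
        ext τ
        simp only [mem_preimage, Set.mem_pi, Finset.coe_range, mem_Iio, mem_empty_iff_false,
          iff_false]
        intro h
        exact hb (h 0 (by omega))
      rw [this]
      simp [hb]
  rw [Measure.add_apply, Measure.smul_apply, Measure.smul_apply, key, key, Finset.prod_range_succ']
  simp only [nu, Measure.add_apply, Measure.smul_apply, smul_eq_mul]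
  ring

lemma integrable_of_cont {f : Sq → ℝ} (hf : Continuous f) : Integrable f mu :=
  hf.integrable_of_hasCompactSupport (HasCompactSupport.of_compactSpace f)

lemma integral_cns {f : Sq → ℝ} (hf : Continuous f) :
    ∫ τ, f τ ∂mu = (∫ τ, f (cns false τ) ∂mu + ∫ τ, f (cns true τ) ∂mu) / 2 := by
  have h1 : ∀ b, ∫ τ, f τ ∂(mu.map (cns b)) = ∫ τ, f (cns b τ) ∂mu := fun b =>
    integral_map (continuous_cns b).measurable.aemeasurable hf.aestronglyMeasurable
  have h2 : ∀ b, Integrable f (mu.map (cns b)) := by
    intro b
    have : IsFiniteMeasure (mu.map (cns b)) := Measure.isFiniteMeasure_map _ _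
    exact hf.integrable_of_hasCompactSupport (HasCompactSupport.of_compactSpace f)
  conv_lhs => rw [← mu_eq]
  rw [integral_add_measure ((h2 _).smul_measure (by simp)) ((h2 _).smul_measure (by simp)),
    integral_smul_measure, integral_smul_measure, h1, h1]
  simp
  ring

end Pool.Agent.H789R2.Green
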