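import Pool.Agent.H789R2.GA

set_option autoImplicit false

open MeasureTheory Filter Topology Set
open scoped ENNReal

namespace Pool.Agent.H789R2.Green

noncomputable def q : ℝ := 1 / 1000

lemma q_pos : 0 < q := by unfold q; norm_num
lemma q_lt : q < 1 := by unfold q; norm_num

/-- configurations -/
abbrev Cfg : Type := List Bool → ℝ

def Small (a : Cfg) : Prop := ∀ w, |a w| ≤ 1 / 20

noncomputable def D (a : Cfg) (w : List Bool) : ℝ := q ^ w.length * Real.exp (a w)

def pre (τ : Sq) : ℕ → List Bool → List Bool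
  | 0, w => w
  | (j + 1), w => τ j :: pre τ j w

noncomputable def bit (b : Bool) : ℝ := if b then 1 else 0

@[simp] lemma bit_true : bit true = 1 := rfl
@[simp] lemma bit_false : bit false = 0 := rfl

lemma bit_nonneg (b : Bool) : 0 ≤ bit b := by cases b <;> simp
lemma bit_le (b : Bool) : bit b ≤ 1 := by cases b <;> simp

noncomputable def X (a : Cfg) (w : List Bool) (τ : Sq) : ℝ :=
  ∑' j, bit (τ j) * D a (pre τ j w)

lemma pre_cns (b : Bool) (τ : Sq) (j : ℕ) (w : List Bool) :
    pre (cns b τ) (j + 1) w = pre τ j (b :: w) := by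
  induction j with
  | zero => rfl
  | succ j ih =>
    rw [pre, ih]
    rfl

@[simp] lemma length_pre (τ : Sq) (j : ℕ) (w : List Bool) : (pre τ j w).length = j + w.length := by
  induction j with
  | zero => simp [pre]
  | succ j ih => rw [pre, List.length_cons, ih]; ring

lemma exp_small_le : Real.exp (1 / 20) ≤ 1.06 := by
  have := Real.one_sub_le_exp_neg (1 / 20)
  rw [Real.exp_neg] at this
  have h2 : Real.exp (1 / 20) ≤ (19 / 20)⁻¹ := by
    rw [le_inv_comm₀ (Real.exp_pos _) (by norm_num)]
    linarith
  refine h2.trans ?_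
  norm_num

lemma exp_small_ge : 0.95 ≤ Real.exp (-(1 / 20)) := by
  have := Real.one_sub_le_exp_neg (1 / 20)
  linarith

variable {a b : Cfg}

lemma D_pos (a : Cfg) (w : List Bool) : 0 < D a w := by
  unfold D; have := q_pos; positivity

lemma D_le (ha : Small a) (w : List Bool) : D a w ≤ 1.06 * q ^ w.length := by
  unfold D
  rw [mul_comm]
  apply mul_le_mul_of_nonneg_right _ (pow_nonneg q_pos.le _)
  exact (Real.exp_le_exp.mpr (abs_le.mp (ha w)).2).trans exp_small_le

lemma D_ge (ha : Small a) (w : List Bool) : 0.95 * q ^ w.length ≤ D a w := by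
  unfold D
  rw [mul_comm (q ^ w.length)]
  apply mul_le_mul_of_nonneg_right _ (pow_nonneg q_pos.le _)
  exact exp_small_ge.trans (Real.exp_le_exp.mpr (abs_le.mp (ha w)).1)

lemma term_nonneg (a : Cfg) (w : List Bool) (τ : Sq) (j : ℕ) : 0 ≤ bit (τ j) * D a (pre τ j w) :=
  mul_nonneg (bit_nonneg _) (D_pos _ _).le

lemma term_le (ha : Small a) (w : List Bool) (τ : Sq) (j : ℕ) :
    bit (τ j) * D a (pre τ j w) ≤ 1.06 * q ^ w.length * q ^ j := by
  calc bit (τ j) * D a (pre τ j w) ≤ 1 * D a (pre τ j w) :=
        mul_le_mul_of_nonneg_right (bit_le _) (D_pos _ _).le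
    _ ≤ 1.06 * q ^ (j + w.length) := by
        rw [one_mul, ← length_pre τ j w]; exact D_le ha _
    _ = 1.06 * q ^ w.length * q ^ j := by rw [pow_add]; ring

lemma summable_bound (w : List Bool) : Summable fun j : ℕ => 1.06 * q ^ w.length * q ^ j :=
  (summable_geometric_of_lt_one q_pos.le q_lt).mul_left _

lemma summable_X (ha : Small a) (w : List Bool) (τ : Sq) :
    Summable fun j => bit (τ j) * D a (pre τ j w) :=
  Summable.of_nonneg_of_le (term_nonneg a w τ) (term_le ha w τ) (summable_bound w)

lemma X_nonneg (a : Cfg) (w : List Bool) (τ : Sq) : 0 ≤ X a w τ :=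
  tsum_nonneg (term_nonneg a w τ)

lemma X_le (ha : Small a) (w : List Bool) (τ : Sq) : X a w τ ≤ 1.07 * q ^ w.length := by
  unfold X
  calc ∑' j, bit (τ j) * D a (pre τ j w) ≤ ∑' j : ℕ, 1.06 * q ^ w.length * q ^ j :=
        (summable_X ha w τ).tsum_le_tsum (term_le ha w τ) (summable_bound w)
    _ = 1.06 * q ^ w.length * (1 - q)⁻¹ := by
        rw [tsum_mul_left, tsum_geometric_of_lt_one q_pos.le q_lt]
    _ ≤ 1.07 * q ^ w.length := by
        have h : (0 : ℝ) ≤ q ^ w.length := pow_nonneg q_pos.le _
        have h2 : 1.06 * (1 - q)⁻¹ ≤ 1.07 := by unfold q; norm_num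
        nlinarith

lemma X_cns (ha : Small a) (w : List Bool) (b : Bool) (τ : Sq) :
    X a w (cns b τ) = bit b * D a w + X a (b :: w) τ := by
  unfold X
  rw [(summable_X ha w (cns b τ)).tsum_eq_zero_add]
  congr 1
  refine tsum_congr fun j => ?_
  rw [cns_succ, pre_cns]

lemma X_zr (a : Cfg) (w : List Bool) : X a w zr = 0 := by
  unfold X zr
  simp

lemma continuous_bit (j : ℕ) : Continuous fun τ : Sq => bit (τ j) := by
  have h : Continuous bit := continuous_of_discreteTopology
  exact h.comp (continuous_apply j)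

lemma continuous_pre (F : List Bool → ℝ) (j : ℕ) (w : List Bool) :
    Continuous fun τ : Sq => F (pre τ j w) := by
  induction j generalizing F with
  | zero =>
    have : (fun τ : Sq => F (pre τ 0 w)) = fun _ => F w := rfl
    rw [this]
    exact continuous_const
  | succ j ih =>
    have h1 : (fun τ : Sq => F (pre τ (j + 1) w)) =
        fun τ => bit (τ j) * F (true :: pre τ j w) + (1 - bit (τ j)) * F (false :: pre τ j w) := by
      funext τ
      rw [pre]
      cases τ j <;> simp
    rw [h1]
    have h2 := continuous_bit j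
    exact (h2.mul (ih fun l => F (true :: l))).add
      ((continuous_const.sub h2).mul (ih fun l => F (false :: l)))

lemma continuous_X (ha : Small a) (w : List Bool) : Continuous (X a w) := by
  unfold X
  apply continuous_tsum (u := fun j => 1.06 * q ^ w.length * q ^ j)
  · intro j
    have h2 := continuous_bit j
    exact h2.mul (continuous_pre (D a) j w)
  · exact summable_bound w
  · intro j τ
    rw [Real.norm_of_nonneg (term_nonneg a w τ j)]
    exact term_le ha w τ j

/-- distance between a point of the right child and a point of the left child -/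
noncomputable def Dl (a : Cfg) (w : List Bool) (α β : Sq) : ℝ :=
  D a w + X a (true :: w) β - X a (false :: w) α

lemma X_child_le (ha : Small a) (w : List Bool) (b : Bool) (τ : Sq) :
    X a (b :: w) τ ≤ 0.00113 * D a w := by
  have h1 := X_le ha (b :: w) τ
  have h2 := D_ge ha w
  rw [List.length_cons, pow_succ] at h1
  have : q = 0.001 := by unfold q; norm_num
  rw [this] at h1 h2
  have h3 : (0 : ℝ) ≤ 0.001 ^ w.length := by positivity
  nlinarith

lemma Dl_ge (ha : Small a) (w : List Bool) (α β : Sq) : 0.998 * D a w ≤ Dl a w α β := by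
  unfold Dl
  have h1 := X_child_le ha w false α
  have h2 := X_nonneg a (true :: w) β
  have h3 := D_pos a w
  nlinarith

lemma Dl_le (ha : Small a) (w : List Bool) (α β : Sq) : Dl a w α β ≤ 1.002 * D a w := by
  unfold Dl
  have h1 := X_child_le ha w true β
  have h2 := X_nonneg a (false :: w) α
  have h3 := D_pos a w
  nlinarith

lemma Dl_pos (ha : Small a) (w : List Bool) (α β : Sq) : 0 < Dl a w α β := by
  have := Dl_ge ha w α β
  have h3 := D_pos a w
  nlinarith

lemma continuous_Dl_right (ha : Small a) (w : List Bool) (α : Sq) :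
    Continuous fun τ => Dl a w α τ := by
  unfold Dl
  exact (continuous_const.add (continuous_X ha _)).sub continuous_const

lemma continuous_Dl_left (ha : Small a) (w : List Bool) (β : Sq) :
    Continuous fun τ => Dl a w τ β := by
  unfold Dl
  exact continuous_const.sub (continuous_X ha _)

/-- two configurations are within `ε` of each other -/
def Cl (ε : ℝ) (a b : Cfg) : Prop := ∀ w, |a w - b w| ≤ ε

lemma Cl.symm {ε : ℝ} (h : Cl ε a b) : Cl ε b a := fun w => by rw [abs_sub_comm]; exact h w

lemma D_cl {ε : ℝ} (h : Cl ε a b) (w : List Bool) : D a w ≤ Real.exp ε * D b w := by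
  unfold D
  have h1 : Real.exp (a w) ≤ Real.exp ε * Real.exp (b w) := by
    rw [← Real.exp_add]
    apply Real.exp_le_exp.mpr
    have := (abs_le.mp (h w)).2
    linarith
  have h2 : 0 ≤ q ^ w.length := pow_nonneg q_pos.le _
  have := mul_le_mul_of_nonneg_left h1 h2
  linarith

lemma X_cl {ε : ℝ} (ha : Small a) (hb : Small b) (h : Cl ε a b) (w : List Bool) (τ : Sq) :
    X a w τ ≤ Real.exp ε * X b w τ := by
  unfold X
  rw [← tsum_mul_left]
  apply (summable_X ha w τ).tsum_le_tsum _ ((summable_X hb w τ).mul_left _)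
  intro j
  have := mul_le_mul_of_nonneg_left (D_cl h (pre τ j w)) (bit_nonneg (τ j))
  linarith

lemma Dl_cl {ε : ℝ} (hε : 0 ≤ ε) (ha : Small a) (hb : Small b) (h : Cl ε a b) (w : List Bool)
    (α β : Sq) : Dl a w α β ≤ Real.exp (2 * ε) * Dl b w α β := by
  have h1 := D_cl h w
  have h2 := X_cl ha hb h (true :: w) β
  have h3 := X_cl hb ha h.symm (false :: w) α
  have h4 := X_child_le hb w false α
  have h5 := X_child_le ha w false α
  have h6 := Dl_ge hb w α β
  have h7 := D_pos b w
  have h8 := X_nonneg b (false :: w) α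
  have h9 := X_nonneg a (false :: w) α
  have e1 : 1 ≤ Real.exp ε := Real.one_le_exp hε
  have e2 : Real.exp (2 * ε) = Real.exp ε * Real.exp ε := by rw [← Real.exp_add]; ring_nf
  set E := Real.exp ε with hE
  rw [e2]
  -- `X b ≤ E X a`, so `X a ≥ X b / E`
  have k1 : Dl a w α β ≤ E * (D b w + X b (true :: w) β) - X a (false :: w) α := by
    unfold Dl; linarith
  have k2 : E * (D b w + X b (true :: w) β) = E * Dl b w α β + E * X b (false :: w) α := by
    unfold Dl; ring
  rw [k2] at k1
  -- it remains: `E X b - X a ≤ E (E - 1) Dl b`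
  have k3 : E * X b (false :: w) α - X a (false :: w) α ≤ (E - 1) * (E + 1) * X b (false :: w) α := by
    have hE0 : 0 < E := by linarith
    have t1 : 0 ≤ (E - 1) * (E + 1) * X b (false :: w) α :=
      mul_nonneg (mul_nonneg (by linarith) (by linarith)) h8
    have t2 : E * (E * X b (false :: w) α - X a (false :: w) α) ≤
        E * ((E - 1) * (E + 1) * X b (false :: w) α) := by
      nlinarith
    exact le_of_mul_le_mul_left t2 hE0
  have k4 : (E + 1) * X b (false :: w) α ≤ E * Dl b w α β := by
    nlinarith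
  have k5 : 0 ≤ E - 1 := by linarith
  have k6 := mul_le_mul_of_nonneg_left k4 k5
  nlinarith

end Pool.Agent.H789R2.Green
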