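import Pool.Agent.H789R2.GB

set_option autoImplicit false

open MeasureTheory Filter Topology Set
open scoped ENNReal

namespace Pool.Agent.H789R2.Green

variable {a b : Cfg}

/-- distance between the point with tail `σ` in the child `e` and the point with tail `τ` in the
other child -/
noncomputable def E (a : Cfg) (v : List Bool) (e : Bool) (σ τ : Sq) : ℝ :=
  if e then Dl a v τ σ else Dl a v σ τ

noncomputable def sg (e : Bool) : ℝ := if e then 1 else -1

lemma abs_sg (e : Bool) : |sg e| = 1 := by cases e <;> simp [sg]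

lemma E_ge (ha : Small a) (v : List Bool) (e : Bool) (σ τ : Sq) : 0.998 * D a v ≤ E a v e σ τ := by
  unfold E; split_ifs
  · exact Dl_ge ha _ _ _
  · exact Dl_ge ha _ _ _

lemma E_le (ha : Small a) (v : List Bool) (e : Bool) (σ τ : Sq) : E a v e σ τ ≤ 1.002 * D a v := by
  unfold E; split_ifs
  · exact Dl_le ha _ _ _
  · exact Dl_le ha _ _ _

lemma E_pos (ha : Small a) (v : List Bool) (e : Bool) (σ τ : Sq) : 0 < E a v e σ τ := by
  unfold E; split_ifs
  · exact Dl_pos ha _ _ _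
  · exact Dl_pos ha _ _ _

lemma E_cl {ε : ℝ} (hε : 0 ≤ ε) (ha : Small a) (hb : Small b) (h : Cl ε a b) (v : List Bool)
    (e : Bool) (σ τ : Sq) : E a v e σ τ ≤ Real.exp (2 * ε) * E b v e σ τ := by
  unfold E; split_ifs
  · exact Dl_cl hε ha hb h _ _ _
  · exact Dl_cl hε ha hb h _ _ _

lemma continuous_E (ha : Small a) (v : List Bool) (e : Bool) (σ : Sq) :
    Continuous fun τ => E a v e σ τ := by
  unfold E; cases e
  · exact continuous_Dl_right ha v σ
  · exact continuous_Dl_left ha v σ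

lemma log_diff {x y c : ℝ} (hc : 0 < c) (hx : c ≤ x) (hy : c ≤ y) :
    |Real.log x - Real.log y| ≤ |x - y| / c := by
  have key : ∀ x y : ℝ, c ≤ x → c ≤ y → Real.log x - Real.log y ≤ |x - y| / c := by
    intro x y hx hy
    have hx0 : 0 < x := lt_of_lt_of_le hc hx
    have hy0 : 0 < y := lt_of_lt_of_le hc hy
    rw [← Real.log_div hx0.ne' hy0.ne']
    calc Real.log (x / y) ≤ x / y - 1 := Real.log_le_sub_one_of_pos (by positivity)
      _ = (x - y) / y := by field_simp
      _ ≤ |x - y| / y := by gcongr; exact le_abs_self _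
      _ ≤ |x - y| / c := by gcongr
  rw [abs_le]
  constructor
  · have := key y x hy hx
    rw [abs_sub_comm] at this
    linarith
  · exact key x y hx hy

lemma exp_sub_one_le {x : ℝ} (h0 : 0 ≤ x) (h1 : x ≤ 1 / 2) : Real.exp x ≤ 1 + 2 * x := by
  have := Real.one_sub_le_exp_neg x
  rw [Real.exp_neg] at this
  have h2 : Real.exp x ≤ (1 - x)⁻¹ := by
    rw [le_inv_comm₀ (Real.exp_pos _) (by linarith)]
    exact this
  refine h2.trans ?_
  rw [inv_le_iff_one_le_mul₀ (by linarith)]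
  nlinarith

lemma cmp_sub {x y B e : ℝ} (he : 0 ≤ e) (he' : e ≤ 1 / 2) (hx0 : 0 ≤ x) (hy0 : 0 ≤ y)
    (hx : x ≤ B) (hy : y ≤ B)
    (h1 : x ≤ Real.exp e * y) (h2 : y ≤ Real.exp e * x) : |x - y| ≤ 2 * e * B := by
  have h3 := exp_sub_one_le he he'
  rw [abs_le]
  constructor
  · nlinarith [mul_le_mul_of_nonneg_right h3 hx0]
  · nlinarith [mul_le_mul_of_nonneg_right h3 hy0]

lemma abs_integral_le {f : Sq → ℝ} {C : ℝ} (h : ∀ τ, |f τ| ≤ C) : |∫ τ, f τ ∂mu| ≤ C := by
  have := norm_integral_le_of_norm_le_const (μ := mu) (f := f) (C := C)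
    (Eventually.of_forall fun τ => h τ)
  simpa using this

lemma abs_integral_sub_le {f g : Sq → ℝ} (hf : Continuous f) (hg : Continuous g) {C : ℝ}
    (h : ∀ τ, |f τ - g τ| ≤ C) : |∫ τ, f τ ∂mu - ∫ τ, g τ ∂mu| ≤ C := by
  rw [← integral_sub (integrable_of_cont hf) (integrable_of_cont hg)]
  exact abs_integral_le h

/-! ### weighted sums -/

noncomputable def WS (f : ℕ → ℝ) : ℝ := ∑' j, (1 / 2 : ℝ) ^ (j + 1) * f j

lemma summable_half : Summable fun j : ℕ => (1 / 2 : ℝ) ^ (j + 1) := by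
  have := summable_geometric_two.mul_left (1 / 2 : ℝ)
  refine this.congr fun j => ?_
  rw [pow_succ]; ring

lemma tsum_half : ∑' j : ℕ, (1 / 2 : ℝ) ^ (j + 1) = 1 := by
  have h : (fun j : ℕ => (1 / 2 : ℝ) ^ (j + 1)) = fun j => (1 / 2 : ℝ) * (1 / 2) ^ j := by
    funext j; rw [pow_succ]; ring
  rw [h, tsum_mul_left, tsum_geometric_two]; norm_num

lemma summable_WS {f : ℕ → ℝ} {C : ℝ} (h : ∀ j, |f j| ≤ C) :
    Summable fun j => (1 / 2 : ℝ) ^ (j + 1) * f j := by
  apply Summable.of_norm_bounded (summable_half.mul_right C)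
  intro j
  rw [norm_mul, Real.norm_of_nonneg (by positivity)]
  exact mul_le_mul_of_nonneg_left (h j) (by positivity)

lemma abs_WS_le {f : ℕ → ℝ} {C : ℝ} (h : ∀ j, |f j| ≤ C) : |WS f| ≤ C := by
  unfold WS
  have h1 := tsum_of_norm_bounded (f := fun j => (1 / 2 : ℝ) ^ (j + 1) * f j)
    (g := fun j => (1 / 2 : ℝ) ^ (j + 1) * C) (a := C) ?_ ?_
  · exact h1
  · have := summable_half.hasSum.mul_right C
    rwa [tsum_half, one_mul] at this
  · intro j
    rw [norm_mul, Real.norm_of_nonneg (by positivity)]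
    exact mul_le_mul_of_nonneg_left (h j) (by positivity)

lemma WS_sub {f g : ℕ → ℝ} {C C' : ℝ} (hf : ∀ j, |f j| ≤ C) (hg : ∀ j, |g j| ≤ C') :
    WS f - WS g = WS fun j => f j - g j := by
  unfold WS
  rw [← (summable_WS hf).tsum_sub (summable_WS hg)]
  exact tsum_congr fun j => by ring

/-! ### the building blocks -/

noncomputable def rb (a : Cfg) (w : List Bool) : ℝ := ∫ τ, Real.log (E a w false zr τ / D a w) ∂mu

noncomputable def lb (a : Cfg) (w : List Bool) : ℝ := ∫ τ, Real.log (E a w true zr τ / D a w) ∂mu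

noncomputable def rs (a : Cfg) (w : List Bool) : ℝ := WS fun j => rb a (pre zr j w)

noncomputable def TT (a : Cfg) (v : List Bool) (e : Bool) (σ : Sq) (y : ℝ) : ℝ :=
  ∫ τ, -Real.log (1 + sg e * (y / E a v e σ τ)) ∂mu

noncomputable def GG (a : Cfg) : List Bool → Sq → ℝ → ℝ
  | [], _, _ => 0
  | (e :: v), σ, y => 2 * GG a v (cns e σ) y + TT a v e σ y

noncomputable def Phi (a : Cfg) : Cfg
  | [] => 0
  | (false :: _) => 0
  | (true :: w) => 4 * (rs a w - lb a w / 2 - rs a (true :: w) / 2 + GG a w zr (D a w))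

lemma ratio_ge (ha : Small a) (w : List Bool) (e : Bool) (σ τ : Sq) :
    0.998 ≤ E a w e σ τ / D a w := by
  rw [le_div_iff₀ (D_pos a w)]; exact E_ge ha w e σ τ

lemma ratio_le (ha : Small a) (w : List Bool) (e : Bool) (σ τ : Sq) :
    E a w e σ τ / D a w ≤ 1.002 := by
  rw [div_le_iff₀ (D_pos a w)]; exact E_le ha w e σ τ

lemma log_ratio_le (ha : Small a) (w : List Bool) (e : Bool) (σ τ : Sq) :
    |Real.log (E a w e σ τ / D a w)| ≤ 0.0021 := by
  have h1 := ratio_ge ha w e σ τ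
  have h2 := ratio_le ha w e σ τ
  have h3 := log_diff (c := 0.998) (by norm_num) h1 (by norm_num : (0.998 : ℝ) ≤ 1)
  rw [Real.log_one, sub_zero] at h3
  refine h3.trans ?_
  rw [div_le_iff₀ (by norm_num)]
  rw [abs_le]
  constructor <;> linarith

lemma continuous_logratio (ha : Small a) (w : List Bool) (e : Bool) (σ : Sq) :
    Continuous fun τ => Real.log (E a w e σ τ / D a w) := by
  apply ((continuous_E ha w e σ).div_const _).log
  intro τ
  have := ratio_ge ha w e σ τ
  linarith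

lemma rb_le (ha : Small a) (w : List Bool) : |rb a w| ≤ 0.0021 :=
  abs_integral_le fun τ => log_ratio_le ha w false zr τ

lemma lb_le (ha : Small a) (w : List Bool) : |lb a w| ≤ 0.0021 :=
  abs_integral_le fun τ => log_ratio_le ha w true zr τ

lemma rs_le (ha : Small a) (w : List Bool) : |rs a w| ≤ 0.0021 :=
  abs_WS_le fun j => rb_le ha _

lemma Xratio_le (ha : Small a) (w : List Bool) (e : Bool) (τ : Sq) :
    X a (e :: w) τ / D a w ≤ 0.00113 := by
  rw [div_le_iff₀ (D_pos a w)]; exact X_child_le ha w e τ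

lemma Xratio_nonneg (a : Cfg) (w : List Bool) (e : Bool) (τ : Sq) :
    0 ≤ X a (e :: w) τ / D a w := div_nonneg (X_nonneg _ _ _) (D_pos _ _).le

lemma Xratio_cl {ε : ℝ} (ha : Small a) (hb : Small b) (h : Cl ε a b)
    (w : List Bool) (e : Bool) (τ : Sq) :
    X a (e :: w) τ / D a w ≤ Real.exp (2 * ε) * (X b (e :: w) τ / D b w) := by
  have h1 := X_cl ha hb h (e :: w) τ
  have h2 := D_cl h.symm w
  have h3 := D_pos a w
  have h4 := D_pos b w
  have h5 := X_nonneg b (e :: w) τ
  rw [div_le_iff₀ h3]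
  have e2 : Real.exp (2 * ε) = Real.exp ε * Real.exp ε := by rw [← Real.exp_add]; ring_nf
  rw [e2]
  have h6 : 0 < Real.exp ε := Real.exp_pos _
  calc X a (e :: w) τ ≤ Real.exp ε * X b (e :: w) τ := h1
    _ = Real.exp ε * (X b (e :: w) τ / D b w) * D b w := by field_simp
    _ ≤ Real.exp ε * (X b (e :: w) τ / D b w) * (Real.exp ε * D a w) := by
        apply mul_le_mul_of_nonneg_left h2
        positivity
    _ = Real.exp ε * Real.exp ε * (X b (e :: w) τ / D b w) * D a w := by ring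

lemma Xratio_sub {ε : ℝ} (hε : 0 ≤ ε) (hε' : ε ≤ 1 / 10) (ha : Small a) (hb : Small b)
    (h : Cl ε a b) (w : List Bool) (e : Bool) (τ : Sq) :
    |X a (e :: w) τ / D a w - X b (e :: w) τ / D b w| ≤ 0.00452 * ε := by
  have := cmp_sub (e := 2 * ε) (B := 0.00113) (by linarith) (by linarith)
    (Xratio_nonneg a w e τ) (Xratio_nonneg b w e τ) (Xratio_le ha w e τ) (Xratio_le hb w e τ)
    (Xratio_cl ha hb h w e τ) (Xratio_cl hb ha h.symm w e τ)
  linarith

lemma ratio_sub {ε : ℝ} (hε : 0 ≤ ε) (hε' : ε ≤ 1 / 10) (ha : Small a) (hb : Small b)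
    (h : Cl ε a b) (w : List Bool) (e : Bool) (σ τ : Sq) :
    |E a w e σ τ / D a w - E b w e σ τ / D b w| ≤ 0.00904 * ε := by
  have key : ∀ α β : Sq, |Dl a w α β / D a w - Dl b w α β / D b w| ≤ 0.00904 * ε := by
    intro α β
    have h1 : ∀ c : Cfg, Dl c w α β / D c w =
        1 + X c (true :: w) β / D c w - X c (false :: w) α / D c w := by
      intro c
      unfold Dl
      have := (D_pos c w).ne'
      field_simp
    rw [h1, h1]
    have h2 := abs_le.mp (Xratio_sub hε hε' ha hb h w true β)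
    have h3 := abs_le.mp (Xratio_sub hε hε' ha hb h w false α)
    rw [abs_le]
    constructor <;> linarith
  unfold E
  split_ifs
  · exact key _ _
  · exact key _ _

lemma log_ratio_sub {ε : ℝ} (hε : 0 ≤ ε) (hε' : ε ≤ 1 / 10) (ha : Small a) (hb : Small b)
    (h : Cl ε a b) (w : List Bool) (e : Bool) (σ τ : Sq) :
    |Real.log (E a w e σ τ / D a w) - Real.log (E b w e σ τ / D b w)| ≤ 0.01 * ε := by
  have h3 := log_diff (c := 0.998) (by norm_num) (ratio_ge ha w e σ τ) (ratio_ge hb w e σ τ)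
  refine h3.trans ?_
  rw [div_le_iff₀ (by norm_num)]
  have := ratio_sub hε hε' ha hb h w e σ τ
  linarith

lemma rb_sub {ε : ℝ} (hε : 0 ≤ ε) (hε' : ε ≤ 1 / 10) (ha : Small a) (hb : Small b)
    (h : Cl ε a b) (w : List Bool) : |rb a w - rb b w| ≤ 0.01 * ε :=
  abs_integral_sub_le (continuous_logratio ha w false zr) (continuous_logratio hb w false zr)
    fun τ => log_ratio_sub hε hε' ha hb h w false zr τ

lemma lb_sub {ε : ℝ} (hε : 0 ≤ ε) (hε' : ε ≤ 1 / 10) (ha : Small a) (hb : Small b)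
    (h : Cl ε a b) (w : List Bool) : |lb a w - lb b w| ≤ 0.01 * ε :=
  abs_integral_sub_le (continuous_logratio ha w true zr) (continuous_logratio hb w true zr)
    fun τ => log_ratio_sub hε hε' ha hb h w true zr τ

lemma rs_sub {ε : ℝ} (hε : 0 ≤ ε) (hε' : ε ≤ 1 / 10) (ha : Small a) (hb : Small b)
    (h : Cl ε a b) (w : List Bool) : |rs a w - rs b w| ≤ 0.01 * ε := by
  unfold rs
  rw [WS_sub (fun j => rb_le ha _) (fun j => rb_le hb _)]
  exact abs_WS_le fun j => rb_sub hε hε' ha hb h _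

/-! ### the interaction with the ancestors -/

lemma D_le' (ha : Small a) (w : List Bool) : D a w ≤ 1.07 * q ^ w.length := by
  have h := D_le ha w
  have h3 : (0 : ℝ) ≤ q ^ w.length := pow_nonneg q_pos.le _
  linarith

lemma yratio_le (ha : Small a) {v : List Bool} {k : ℕ} {y : ℝ}
    (hy : y ≤ 1.07 * q ^ (v.length + 1 + k)) (e : Bool) (σ τ : Sq) :
    y / E a v e σ τ ≤ 1.13 * q ^ (k + 1) := by
  rw [div_le_iff₀ (E_pos ha v e σ τ)]
  have h1 := E_ge ha v e σ τ
  have h2 := D_ge ha v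
  have h3 : (0 : ℝ) ≤ q ^ (k + 1) := pow_nonneg q_pos.le _
  have h4 : q ^ (v.length + 1 + k) = q ^ v.length * q ^ (k + 1) := by
    rw [← pow_add]; congr 1; ring
  rw [h4] at hy
  have h5 : 0.948 * q ^ v.length ≤ E a v e σ τ := by
    have h6 : (0 : ℝ) ≤ q ^ v.length := pow_nonneg q_pos.le _
    nlinarith
  have h7 : (0 : ℝ) ≤ q ^ v.length * q ^ (k + 1) :=
    mul_nonneg (pow_nonneg q_pos.le _) h3
  nlinarith [mul_le_mul_of_nonneg_left h5 h3]

lemma qk_le (k : ℕ) : q ^ (k + 1) ≤ 0.001 := by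
  rw [pow_succ]
  have h1 : q ^ k ≤ 1 := pow_le_one₀ q_pos.le q_lt.le
  have h2 : q = 0.001 := by unfold q; norm_num
  nlinarith [q_pos]

lemma one_add_ge (ha : Small a) {v : List Bool} {k : ℕ} {y : ℝ} (hy0 : 0 ≤ y)
    (hy : y ≤ 1.07 * q ^ (v.length + 1 + k)) (e : Bool) (σ τ : Sq) :
    0.99 ≤ 1 + sg e * (y / E a v e σ τ) := by
  have h1 := yratio_le ha hy e σ τ
  have h2 := qk_le k
  have h3 : 0 ≤ y / E a v e σ τ := div_nonneg hy0 (E_pos ha v e σ τ).le
  cases e
  · simp only [sg, Bool.false_eq_true, if_false]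
    linarith
  · simp only [sg, if_true]
    linarith

lemma continuous_TT_integrand (ha : Small a) {v : List Bool} {k : ℕ} {y : ℝ} (hy0 : 0 ≤ y)
    (hy : y ≤ 1.07 * q ^ (v.length + 1 + k)) (e : Bool) (σ : Sq) :
    Continuous fun τ => -Real.log (1 + sg e * (y / E a v e σ τ)) := by
  apply Continuous.neg
  apply Continuous.log
  · exact continuous_const.add (continuous_const.mul (continuous_const.div (continuous_E ha v e σ)
      fun τ => (E_pos ha v e σ τ).ne'))
  · intro τ
    have := one_add_ge ha hy0 hy e σ τ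
    linarith

lemma TT_le (ha : Small a) {v : List Bool} {k : ℕ} {y : ℝ} (hy0 : 0 ≤ y)
    (hy : y ≤ 1.07 * q ^ (v.length + 1 + k)) (e : Bool) (σ : Sq) :
    |TT a v e σ y| ≤ 1.142 * q ^ (k + 1) := by
  apply abs_integral_le
  intro τ
  rw [abs_neg]
  have h3 := log_diff (c := 0.99) (by norm_num) (one_add_ge ha hy0 hy e σ τ)
    (by norm_num : (0.99 : ℝ) ≤ 1)
  rw [Real.log_one, sub_zero] at h3
  refine h3.trans ?_
  rw [div_le_iff₀ (by norm_num)]
  have h4 : 0 ≤ y / E a v e σ τ := div_nonneg hy0 (E_pos ha v e σ τ).le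
  rw [add_sub_cancel_left, abs_mul, abs_sg, one_mul, abs_of_nonneg h4]
  have := yratio_le ha hy e σ τ
  have h5 : (0 : ℝ) ≤ q ^ (k + 1) := pow_nonneg q_pos.le _
  nlinarith

lemma TT_sub {ε : ℝ} (hε : 0 ≤ ε) (hε' : ε ≤ 1 / 10) (ha : Small a) (hb : Small b)
    (h : Cl ε a b) {v : List Bool} {k : ℕ} {y y' : ℝ} (hy0 : 0 ≤ y) (hy0' : 0 ≤ y')
    (hy : y ≤ 1.07 * q ^ (v.length + 1 + k)) (hy' : y' ≤ 1.07 * q ^ (v.length + 1 + k))
    (hyy : y ≤ Real.exp ε * y') (hyy' : y' ≤ Real.exp ε * y) (e : Bool) (σ : Sq) :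
    |TT a v e σ y - TT b v e σ y'| ≤ 6.85 * q ^ (k + 1) * ε := by
  apply abs_integral_sub_le (continuous_TT_integrand ha hy0 hy e σ)
    (continuous_TT_integrand hb hy0' hy' e σ)
  intro τ
  have hr0 : 0 ≤ y / E a v e σ τ := div_nonneg hy0 (E_pos ha v e σ τ).le
  have hr0' : 0 ≤ y' / E b v e σ τ := div_nonneg hy0' (E_pos hb v e σ τ).le
  have hgen : ∀ (a b : Cfg) (y y' : ℝ), Small a → Small b → Cl ε a b → 0 ≤ y → 0 ≤ y' →
      y ≤ Real.exp ε * y' →
      y / E a v e σ τ ≤ Real.exp (3 * ε) * (y' / E b v e σ τ) := by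
    intro a b y y' ha hb h hy0 hy0' hyy
    have h1 := E_cl hε hb ha h.symm v e σ τ
    have h2 := E_pos ha v e σ τ
    have h3 := E_pos hb v e σ τ
    rw [div_le_iff₀ h2]
    have e3 : Real.exp (3 * ε) = Real.exp ε * Real.exp (2 * ε) := by
      rw [← Real.exp_add]; ring_nf
    rw [e3]
    calc y ≤ Real.exp ε * y' := hyy
      _ = Real.exp ε * (y' / E b v e σ τ) * E b v e σ τ := by field_simp
      _ ≤ Real.exp ε * (y' / E b v e σ τ) * (Real.exp (2 * ε) * E a v e σ τ) := by
          apply mul_le_mul_of_nonneg_left h1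
          have := Real.exp_pos ε
          positivity
      _ = Real.exp ε * Real.exp (2 * ε) * (y' / E b v e σ τ) * E a v e σ τ := by ring
  have h1 := cmp_sub (e := 3 * ε) (B := 1.13 * q ^ (k + 1)) (by linarith) (by linarith)
    hr0 hr0' (yratio_le ha hy e σ τ) (yratio_le hb hy' e σ τ)
    (hgen a b y y' ha hb h hy0 hy0' hyy) (hgen b a y' y hb ha h.symm hy0' hy0 hyy')
  have h2 := log_diff (c := 0.99) (by norm_num) (one_add_ge hb hy0' hy' e σ τ)
    (one_add_ge ha hy0 hy e σ τ)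
  have e1 : -Real.log (1 + sg e * (y / E a v e σ τ)) - -Real.log (1 + sg e * (y' / E b v e σ τ)) =
      Real.log (1 + sg e * (y' / E b v e σ τ)) - Real.log (1 + sg e * (y / E a v e σ τ)) := by ring
  rw [e1]
  refine h2.trans ?_
  rw [div_le_iff₀ (by norm_num)]
  have e2 : 1 + sg e * (y' / E b v e σ τ) - (1 + sg e * (y / E a v e σ τ)) =
      sg e * (y' / E b v e σ τ - y / E a v e σ τ) := by ring
  rw [e2, abs_mul, abs_sg, one_mul, abs_sub_comm]
  refine h1.trans ?_
  have h5 : (0 : ℝ) ≤ q ^ (k + 1) * ε := mul_nonneg (pow_nonneg q_pos.le _) hε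
  nlinarith

lemma GG_le (ha : Small a) {y : ℝ} (hy0 : 0 ≤ y) (w : List Bool) : ∀ (k : ℕ) (σ : Sq),
    y ≤ 1.07 * q ^ (w.length + k) → |GG a w σ y| ≤ 1.15 * q ^ (k + 1) := by
  induction w with
  | nil =>
    intro k σ _
    simp only [GG, abs_zero]
    have := pow_nonneg q_pos.le (k + 1)
    positivity
  | cons e v ih =>
    intro k σ hy
    rw [List.length_cons] at hy
    have h1 := ih (k + 1) (cns e σ) (by
      rw [show v.length + (k + 1) = v.length + 1 + k by ring]; exact hy)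
    have h2 := TT_le ha hy0 hy e σ
    rw [GG]
    have h3 : |2 * GG a v (cns e σ) y + TT a v e σ y| ≤
        2 * |GG a v (cns e σ) y| + |TT a v e σ y| := by
      refine (abs_add_le _ _).trans ?_
      rw [abs_mul, abs_two]
    refine h3.trans ?_
    have h4 : q ^ (k + 1 + 1) = 0.001 * q ^ (k + 1) := by
      rw [pow_succ]; unfold q; ring
    rw [h4] at h1
    have h5 : (0 : ℝ) ≤ q ^ (k + 1) := pow_nonneg q_pos.le _
    linarith

lemma GG_sub {ε : ℝ} (hε : 0 ≤ ε) (hε' : ε ≤ 1 / 10) (ha : Small a) (hb : Small b)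
    (h : Cl ε a b) {y y' : ℝ} (hy0 : 0 ≤ y) (hy0' : 0 ≤ y')
    (hyy : y ≤ Real.exp ε * y') (hyy' : y' ≤ Real.exp ε * y) (w : List Bool) :
    ∀ (k : ℕ) (σ : Sq), y ≤ 1.07 * q ^ (w.length + k) → y' ≤ 1.07 * q ^ (w.length + k) →
      |GG a w σ y - GG b w σ y'| ≤ 7 * q ^ (k + 1) * ε := by
  induction w with
  | nil =>
    intro k σ _ _
    simp only [GG, sub_zero, abs_zero]
    have := pow_nonneg q_pos.le (k + 1)
    positivity
  | cons e v ih =>
    intro k σ hy hy'
    rw [List.length_cons] at hy hy'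
    have h1 := ih (k + 1) (cns e σ) (by
      rw [show v.length + (k + 1) = v.length + 1 + k by ring]; exact hy) (by
      rw [show v.length + (k + 1) = v.length + 1 + k by ring]; exact hy')
    have h2 := TT_sub hε hε' ha hb h hy0 hy0' hy hy' hyy hyy' e σ
    rw [GG, GG]
    have h3 : |2 * GG a v (cns e σ) y + TT a v e σ y -
        (2 * GG b v (cns e σ) y' + TT b v e σ y')| ≤
        2 * |GG a v (cns e σ) y - GG b v (cns e σ) y'| + |TT a v e σ y - TT b v e σ y'| := by
      rw [show 2 * GG a v (cns e σ) y + TT a v e σ y -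
        (2 * GG b v (cns e σ) y' + TT b v e σ y') =
        2 * (GG a v (cns e σ) y - GG b v (cns e σ) y') + (TT a v e σ y - TT b v e σ y') by ring]
      refine (abs_add_le _ _).trans ?_
      rw [abs_mul, abs_two]
    refine h3.trans ?_
    have h4 : q ^ (k + 1 + 1) = 0.001 * q ^ (k + 1) := by
      rw [pow_succ]; unfold q; ring
    rw [h4] at h1
    have h5 : (0 : ℝ) ≤ q ^ (k + 1) * ε := mul_nonneg (pow_nonneg q_pos.le _) hε
    nlinarith

lemma Phi_small (ha : Small a) : Small (Phi a) := by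
  intro w
  match w with
  | [] => simp [Phi]
  | (false :: w) => simp [Phi]
  | (true :: w) =>
    rw [Phi]
    have h1 := abs_le.mp (rs_le ha w)
    have h2 := abs_le.mp (lb_le ha w)
    have h3 := abs_le.mp (rs_le ha (true :: w))
    have h4 := abs_le.mp (GG_le ha (D_pos a w).le w 0 zr (by simpa using D_le' ha w))
    have h5 : q ^ (0 + 1) = 0.001 := by unfold q; norm_num
    rw [h5] at h4
    rw [abs_le]
    constructor <;> linarith

lemma Phi_cl {ε : ℝ} (hε : 0 ≤ ε) (hε' : ε ≤ 1 / 10) (ha : Small a) (hb : Small b)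
    (h : Cl ε a b) : Cl (ε / 2) (Phi a) (Phi b) := by
  intro w
  match w with
  | [] => simp [Phi]; linarith
  | (false :: w) => simp [Phi]; linarith
  | (true :: w) =>
    rw [Phi, Phi]
    have h1 := abs_le.mp (rs_sub hε hε' ha hb h w)
    have h2 := abs_le.mp (lb_sub hε hε' ha hb h w)
    have h3 := abs_le.mp (rs_sub hε hε' ha hb h (true :: w))
    have h4 := abs_le.mp (GG_sub hε hε' ha hb h (D_pos a w).le (D_pos b w).le
      (D_cl h w) (D_cl h.symm w) w 0 zr (by simpa using D_le' ha w) (by simpa using D_le' hb w))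
    have h5 : q ^ (0 + 1) = 0.001 := by unfold q; norm_num
    rw [h5] at h4
    rw [abs_le]
    constructor <;> linarith

/-- the fixed point -/
theorem exists_fixed : ∃ a : Cfg, Small a ∧ Phi a = a := by
  set s : ℕ → Cfg := fun k => Phi^[k] (fun _ => 0) with hs
  have hs_succ : ∀ k, s (k + 1) = Phi (s k) := fun k => Function.iterate_succ_apply' _ _ _
  have hsmall : ∀ k, Small (s k) := by
    intro k
    induction k with
    | zero => intro w; simp [hs]
    | succ k ih => rw [hs_succ]; exact Phi_small ih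
  have hcl : ∀ k, Cl ((1 / 20) * (1 / 2) ^ k) (s k) (s (k + 1)) := by
    intro k
    induction k with
    | zero =>
      intro w
      have h1 := hsmall 1 w
      have h0 : s 0 w = 0 := rfl
      rw [h0, zero_sub, abs_neg]
      simpa using h1
    | succ k ih =>
      rw [hs_succ k, hs_succ (k + 1)]
      have h1 : (1 / 20 : ℝ) * (1 / 2) ^ k ≤ 1 / 10 := by
        have : (1 / 2 : ℝ) ^ k ≤ 1 := pow_le_one₀ (by norm_num) (by norm_num)
        linarith
      have := Phi_cl (by positivity) h1 (hsmall k) (hsmall (k + 1)) ih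
      rw [pow_succ, show (1 / 20 : ℝ) * ((1 / 2) ^ k * (1 / 2)) = (1 / 20) * (1 / 2) ^ k / 2 by ring,
        ← hs_succ]
      rw [← hs_succ] at this
      exact this
  have hdist : ∀ w k, dist (s k w) (s (k + 1) w) ≤ (1 / 20) * (1 / 2) ^ k := fun w k => by
    rw [Real.dist_eq]; exact hcl k w
  have hcau : ∀ w, CauchySeq fun k => s k w := fun w =>
    cauchySeq_of_le_geometric (1 / 2) (1 / 20) (by norm_num) (hdist w)
  choose A hA using fun w => cauchySeq_tendsto_of_complete (hcau w)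
  have hAsmall : Small A := by
    intro w
    have h1 : Tendsto (fun k => |s k w|) atTop (𝓝 |A w|) := (hA w).abs
    exact le_of_tendsto' h1 fun k => hsmall k w
  have hAcl : ∀ k, Cl ((1 / 10) * (1 / 2) ^ k) (s k) A := by
    intro k w
    have := dist_le_of_le_geometric_of_tendsto (1 / 2) (1 / 20) (by norm_num) (hdist w) (hA w) k
    rw [Real.dist_eq] at this
    refine this.trans (le_of_eq ?_)
    ring
  refine ⟨A, hAsmall, ?_⟩
  funext w
  have h1 : Tendsto (fun k => s (k + 1) w) atTop (𝓝 (A w)) := (tendsto_add_atTop_iff_nat 1).mpr (hA w)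
  have h2 : Tendsto (fun k => s (k + 1) w) atTop (𝓝 (Phi A w)) := by
    rw [tendsto_iff_dist_tendsto_zero]
    apply squeeze_zero (fun _ => dist_nonneg) (g := fun k => (1 / 10 : ℝ) * (1 / 2) ^ k / 2)
    · intro k
      rw [Real.dist_eq, hs_succ]
      have h3 : (1 / 10 : ℝ) * (1 / 2) ^ k ≤ 1 / 10 := by
        have : (1 / 2 : ℝ) ^ k ≤ 1 := pow_le_one₀ (by norm_num) (by norm_num)
        linarith
      exact Phi_cl (by positivity) h3 (hsmall k) hAsmall (hAcl k) w
    · have : Tendsto (fun k : ℕ => (1 / 2 : ℝ) ^ k) atTop (𝓝 0) :=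
        tendsto_pow_atTop_nhds_zero_of_lt_one (by norm_num) (by norm_num)
      have := (this.const_mul (1 / 10)).div_const 2
      simpa using this
  exact tendsto_nhds_unique h2 h1

end Pool.Agent.H789R2.Green
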