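import Pool.Agent.H789R2.GC

set_option autoImplicit false

open MeasureTheory Filter Topology Set
open scoped ENNReal

namespace Pool.Agent.H789R2.Green

variable {a b : Cfg}

/-! ### the potential at the points of the Cantor set -/

noncomputable def LR (a : Cfg) (v : List Bool) (e : Bool) (σ : Sq) : ℝ :=
  ∫ τ, Real.log (E a v e σ τ / D a v) ∂mu

noncomputable def Tn (a : Cfg) (v : List Bool) (e : Bool) (σ : Sq) : ℝ :=
  ∫ τ, Real.log (E a v e σ τ) ∂mu

lemma LR_le (ha : Small a) (v : List Bool) (e : Bool) (σ : Sq) : |LR a v e σ| ≤ 0.0021 :=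
  abs_integral_le fun τ => log_ratio_le ha v e σ τ

lemma log_D (a : Cfg) (v : List Bool) : Real.log (D a v) = v.length * Real.log q + a v := by
  unfold D
  rw [Real.log_mul (pow_ne_zero _ q_pos.ne') (Real.exp_pos _).ne', Real.log_pow, Real.log_exp]

lemma continuous_logE (ha : Small a) (v : List Bool) (e : Bool) (σ : Sq) :
    Continuous fun τ => Real.log (E a v e σ τ) :=
  (continuous_E ha v e σ).log fun τ => (E_pos ha v e σ τ).ne'

lemma Tn_eq (ha : Small a) (v : List Bool) (e : Bool) (σ : Sq) :
    Tn a v e σ = v.length * Real.log q + (a v + LR a v e σ) := by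
  unfold Tn LR
  have h : ∀ τ, Real.log (E a v e σ τ) =
      Real.log (D a v) + Real.log (E a v e σ τ / D a v) := by
    intro τ
    rw [Real.log_div (E_pos ha v e σ τ).ne' (D_pos a v).ne']
    ring
  rw [integral_congr_ae (Eventually.of_forall h),
    integral_add (integrable_const _) (integrable_of_cont (continuous_logratio ha v e σ)), log_D]
  simp
  ring

/-- tail after position `j` -/
def tl : ℕ → Sq → Sq
  | 0, σ => σ
  | (j + 1), σ => tl j (shf σ)

noncomputable def Ub (a : Cfg) (w : List Bool) (σ : Sq) (j : ℕ) : ℝ :=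
  a (pre σ j w) + LR a (pre σ j w) (σ j) (tl (j + 1) σ)

lemma Ub_le (ha : Small a) (w : List Bool) (σ : Sq) (j : ℕ) : |Ub a w σ j| ≤ 0.0521 := by
  unfold Ub
  refine (abs_add_le _ _).trans ?_
  have h1 := ha (pre σ j w)
  have h2 := LR_le ha (pre σ j w) (σ j) (tl (j + 1) σ)
  linarith

noncomputable def U (a : Cfg) (w : List Bool) (σ : Sq) : ℝ :=
  (w.length + 1) * Real.log q + WS (Ub a w σ)

lemma U_bound (ha : Small a) (w : List Bool) (σ : Sq) :
    |U a w σ - (w.length + 1) * Real.log q| ≤ 0.0521 := by
  unfold U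
  rw [add_sub_cancel_left]
  exact abs_WS_le (Ub_le ha w σ)

lemma WS_succ {f : ℕ → ℝ} {C : ℝ} (hf : ∀ j, |f j| ≤ C) :
    WS f = f 0 / 2 + WS (fun j => f (j + 1)) / 2 := by
  unfold WS
  rw [(summable_WS hf).tsum_eq_zero_add, ← tsum_div_const]
  congr 1
  · simp; ring
  · refine tsum_congr fun j => ?_
    rw [pow_succ]; ring

lemma U_cns (ha : Small a) (w : List Bool) (b : Bool) (σ : Sq) :
    U a w (cns b σ) = Tn a w b σ / 2 + U a (b :: w) σ / 2 := by
  rw [Tn_eq ha]
  unfold U
  rw [WS_succ (Ub_le ha w (cns b σ))]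
  have h1 : Ub a w (cns b σ) 0 = a w + LR a w b σ := rfl
  have h2 : (fun j => Ub a w (cns b σ) (j + 1)) = Ub a (b :: w) σ := by
    funext j
    unfold Ub
    rw [pre_cns]
    rfl
  rw [h1, h2, List.length_cons]
  push_cast
  ring

/-- the complete sequence with given (reversed) prefix and given tail -/
def full : List Bool → Sq → Sq
  | [], σ => σ
  | (b :: w), σ => full w (cns b σ)

lemma E_shift (w : List Bool) (e : Bool) {σ σ' : Sq} {y : ℝ}
    (h : X a (e :: w) σ' = X a (e :: w) σ + y) (τ : Sq) :
    E a w e σ' τ = E a w e σ τ + sg e * y := by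
  unfold E Dl sg
  cases e
  · simp only [Bool.false_eq_true, if_false]
    rw [h]; ring
  · simp only [if_true]
    rw [h]; ring

lemma TT_eq (ha : Small a) (w : List Bool) (e : Bool) {σ σ' : Sq} {y : ℝ}
    (h : X a (e :: w) σ' = X a (e :: w) σ + y) : TT a w e σ y = Tn a w e σ - Tn a w e σ' := by
  unfold TT Tn
  rw [← integral_sub (integrable_of_cont (continuous_logE ha w e σ))
    (integrable_of_cont (continuous_logE ha w e σ'))]
  refine integral_congr_ae (Eventually.of_forall fun τ => ?_)
  have h1 := E_shift w e h τ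
  have h2 := E_pos ha w e σ τ
  have h3 := E_pos ha w e σ' τ
  have h4 : 1 + sg e * (y / E a w e σ τ) = E a w e σ' τ / E a w e σ τ := by
    rw [h1]; field_simp
  show -Real.log (1 + sg e * (y / E a w e σ τ)) = _
  rw [h4, Real.log_div h3.ne' h2.ne']
  ring

lemma pot_diff (ha : Small a) (w : List Bool) : ∀ {σ σ' : Sq} {y : ℝ},
    X a w σ' = X a w σ + y →
    2 ^ w.length * (U a [] (full w σ) - U a [] (full w σ')) =
      U a w σ - U a w σ' + GG a w σ y := by
  induction w with
  | nil => intro σ σ' y _; simp [full, GG]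
  | cons e v ih =>
    intro σ σ' y h
    have h1 : X a v (cns e σ') = X a v (cns e σ) + y := by
      rw [X_cns ha, X_cns ha, h]; ring
    have h2 := ih h1
    rw [List.length_cons, pow_succ, full, full, GG, TT_eq ha v e h]
    rw [U_cns ha, U_cns ha] at h2
    linear_combination 2 * h2

lemma U_zr (ha : Small a) (hfix : Phi a = a) (w : List Bool) :
    U a w zr = (w.length + 1) * Real.log q + a w / 2 + rs a w := by
  have hf : ∀ v, a (false :: v) = 0 := by
    intro v
    have := congrFun hfix (false :: v)
    rw [← this, Phi]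
  have htl : ∀ j, tl j zr = zr := by
    intro j
    induction j with
    | zero => rfl
    | succ j ih => exact ih
  unfold U rs
  have h1 : Ub a w zr = fun j => (if j = 0 then a w else 0) + rb a (pre zr j w) := by
    funext j
    unfold Ub
    rw [htl]
    have h2 : LR a (pre zr j w) (zr j) zr = rb a (pre zr j w) := rfl
    rw [h2]
    congr 1
    cases j with
    | zero => rfl
    | succ j =>
      simp only [Nat.succ_ne_zero, if_false]
      exact hf _
  have h3 : WS (Ub a w zr) = a w / 2 + WS (fun j => rb a (pre zr j w)) := by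
    have h4 := WS_sub (Ub_le ha w zr) (fun j => rb_le ha (pre zr j w))
    have h5 : (fun j => Ub a w zr j - rb a (pre zr j w)) = fun j => if j = 0 then a w else 0 := by
      funext j
      rw [h1]; ring
    rw [h5] at h4
    have h6 : WS (fun j => if j = 0 then a w else 0) = a w / 2 := by
      unfold WS
      rw [tsum_eq_single 0]
      · simp; ring
      · intro j hj
        simp [hj]
    linarith
  rw [h3]
  ring

lemma step_eq (ha : Small a) (hfix : Phi a = a) (w : List Bool) :
    U a [] (full w zr) = U a [] (full w (cns true zr)) := by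
  have h1 : X a w (cns true zr) = X a w zr + D a w := by
    rw [X_cns ha, X_zr, X_zr]; simp
  have h2 := pot_diff ha w h1
  have h3 : a (true :: w) =
      4 * (rs a w - lb a w / 2 - rs a (true :: w) / 2 + GG a w zr (D a w)) := by
    have := congrFun hfix (true :: w)
    rw [← this, Phi]
  have h4 : LR a w true zr = lb a w := rfl
  rw [U_cns ha, U_zr ha hfix, U_zr ha hfix, Tn_eq ha, h4, List.length_cons] at h2
  push_cast at h2
  have h5 : (2 : ℝ) ^ w.length * (U a [] (full w zr) - U a [] (full w (cns true zr))) = 0 := by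
    rw [h2, h3]; ring
  have h6 : (2 : ℝ) ^ w.length ≠ 0 := by positivity
  have := (mul_eq_zero.mp h5).resolve_left h6
  linarith

lemma U_full_zr (ha : Small a) (hfix : Phi a = a) (w : List Bool) :
    U a [] (full w zr) = U a [] zr := by
  induction w with
  | nil => rfl
  | cons e v ih =>
    cases e
    · show U a [] (full v (cns false zr)) = _
      rw [cns_zr]; exact ih
    · show U a [] (full v (cns true zr)) = _
      rw [← step_eq ha hfix]; exact ih

lemma full_pre (σ : Sq) (n : ℕ) (w : List Bool) : full (pre σ n w) (tl n σ) = full w σ := by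
  induction n generalizing σ w with
  | zero => rfl
  | succ n ih =>
    have h1 : pre σ (n + 1) w = pre (shf σ) n (σ 0 :: w) := by
      rw [← pre_cns, cns_shf]
    rw [h1]
    show full (pre (shf σ) n (σ 0 :: w)) (tl n (shf σ)) = _
    rw [ih]
    show full w (cns (σ 0) (shf σ)) = _
    rw [cns_shf]

/-- the potential is constant on the Cantor set -/
theorem U_const (ha : Small a) (hfix : Phi a = a) (σ : Sq) : U a [] σ = U a [] zr := by
  have key : ∀ n : ℕ, |U a [] zr - U a [] σ| ≤ 2 * (1 / 2) ^ n := by
    intro n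
    set w := pre σ n [] with hw
    set σ' := tl n σ with hσ'
    have hlen : w.length = n := by simp [hw]
    have h1 : X a w σ' = X a w zr + X a w σ' := by rw [X_zr]; ring
    have h2 := pot_diff ha w h1
    rw [U_full_zr ha hfix, hw, hσ', full_pre, ← hw, ← hσ', hlen] at h2
    have h3 := abs_le.mp (GG_le ha (X_nonneg a w σ') w 0 zr (by simpa using X_le ha w σ'))
    have h4 := abs_le.mp (U_bound ha w zr)
    have h5 := abs_le.mp (U_bound ha w σ')
    have h6 : q ^ (0 + 1) = 0.001 := by unfold q; norm_num
    rw [h6] at h3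
    have h7 : |(2 : ℝ) ^ n * (U a [] zr - U a [] (full [] σ))| ≤ 2 := by
      rw [h2, abs_le]
      constructor <;> linarith
    rw [abs_mul, abs_of_pos (by positivity : (0 : ℝ) < 2 ^ n)] at h7
    have h8 : (1 / 2 : ℝ) ^ n * (2 ^ n * |U a [] zr - U a [] (full [] σ)|) ≤
        (1 / 2 : ℝ) ^ n * 2 := mul_le_mul_of_nonneg_left h7 (by positivity)
    rw [← mul_assoc, ← mul_pow] at h8
    norm_num at h8
    have h9 : full [] σ = σ := rfl
    rw [h9] at h8
    rw [one_div]
    linarith
  have h1 : Tendsto (fun n : ℕ => 2 * (1 / 2 : ℝ) ^ n) atTop (𝓝 0) := by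
    have := (tendsto_pow_atTop_nhds_zero_of_lt_one (r := (1 / 2 : ℝ)) (by norm_num)
      (by norm_num)).const_mul 2
    simpa using this
  have h2 : |U a [] zr - U a [] σ| ≤ 0 := ge_of_tendsto' h1 key
  have h3 := abs_nonpos_iff.mp h2
  linarith

end Pool.Agent.H789R2.Green
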