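import Pool.Agent.H789R2.GD

set_option autoImplicit false

open MeasureTheory Filter Topology Set
open scoped ENNReal

namespace Pool.Agent.H789R2.Green

variable {a b : Cfg}

noncomputable def pt (a : Cfg) (w : List Bool) (c : ℝ) (τ : Sq) : ℂ := ((c + X a w τ : ℝ) : ℂ)

lemma pt_cns (ha : Small a) (w : List Bool) (c : ℝ) (b : Bool) (τ : Sq) :
    pt a w c (cns b τ) = pt a (b :: w) (c + bit b * D a w) τ := by
  unfold pt
  rw [X_cns ha]
  congr 1
  ring

lemma continuous_pt (ha : Small a) (w : List Bool) (c : ℝ) : Continuous (pt a w c) :=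
  Complex.continuous_ofReal.comp (continuous_const.add (continuous_X ha w))

noncomputable def pot (a : Cfg) (w : List Bool) (c : ℝ) (z : ℂ) : ℝ :=
  ∫ τ, Real.log ‖z - pt a w c τ‖ ∂mu

lemma continuous_logpt (ha : Small a) {w : List Bool} {c : ℝ} {z : ℂ}
    (hz : ∀ τ, z ≠ pt a w c τ) : Continuous fun τ => Real.log ‖z - pt a w c τ‖ := by
  apply Continuous.log
  · exact (continuous_const.sub (continuous_pt ha w c)).norm
  · intro τ
    rw [norm_ne_zero_iff, sub_ne_zero]
    exact hz τ

lemma ne_child (ha : Small a) {w : List Bool} {c : ℝ} {z : ℂ}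
    (hz : ∀ τ, z ≠ pt a w c τ) (b : Bool) : ∀ τ, z ≠ pt a (b :: w) (c + bit b * D a w) τ := by
  intro τ
  rw [← pt_cns ha]
  exact hz _

lemma pot_split (ha : Small a) {w : List Bool} {c : ℝ} {z : ℂ}
    (hz : ∀ τ, z ≠ pt a w c τ) (b : Bool) :
    pot a w c z = pot a (b :: w) (c + bit b * D a w) z / 2 +
      pot a ((!b) :: w) (c + bit (!b) * D a w) z / 2 := by
  unfold pot
  rw [integral_cns (continuous_logpt ha hz)]
  simp only [pt_cns ha]
  cases b
  · simp only [Bool.not_false]; ring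
  · simp only [Bool.not_true]; ring

lemma norm_E (ha : Small a) (w : List Bool) (c : ℝ) (b : Bool) (σ τ : Sq) :
    ‖pt a (b :: w) (c + bit b * D a w) σ - pt a ((!b) :: w) (c + bit (!b) * D a w) τ‖ =
      E a w b σ τ := by
  unfold pt
  rw [← Complex.ofReal_sub, Complex.norm_real, Real.norm_eq_abs]
  have h := E_pos ha w b σ τ
  unfold E Dl at *
  cases b
  · simp only [Bool.false_eq_true, if_false, bit_false, Bool.not_false, bit_true] at *
    rw [abs_of_neg (by linarith)]
    ring
  · simp only [if_true, bit_false, Bool.not_true, bit_true] at *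
    rw [abs_of_pos (by linarith)]
    ring

lemma norm_piece (ha : Small a) (w : List Bool) (c : ℝ) (σ τ : Sq) :
    ‖pt a w c σ - pt a w c τ‖ ≤ 1.07 * q ^ w.length := by
  unfold pt
  rw [← Complex.ofReal_sub, Complex.norm_real, Real.norm_eq_abs, abs_le]
  have h1 := X_le ha w σ
  have h2 := X_le ha w τ
  have h3 := X_nonneg a w σ
  have h4 := X_nonneg a w τ
  constructor <;> linarith

lemma log_q : Real.log q = -Real.log 1000 := by
  unfold q
  rw [one_div, Real.log_inv]

lemma E_ge' (ha : Small a) (v : List Bool) (e : Bool) (σ τ : Sq) :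
    0.948 * q ^ v.length ≤ E a v e σ τ := by
  have h1 := E_ge ha v e σ τ
  have h2 := D_ge ha v
  have h6 : (0 : ℝ) ≤ q ^ v.length := pow_nonneg q_pos.le _
  nlinarith

lemma integral_le_const {f : Sq → ℝ} (hf : Continuous f) {C : ℝ} (h : ∀ τ, f τ ≤ C) :
    ∫ τ, f τ ∂mu ≤ C := by
  have := integral_mono (integrable_of_cont hf) (integrable_const C) h
  simpa using this

lemma const_le_integral {f : Sq → ℝ} (hf : Continuous f) {C : ℝ} (h : ∀ τ, C ≤ f τ) :
    C ≤ ∫ τ, f τ ∂mu := by
  have := integral_mono (integrable_const C) (integrable_of_cont hf) h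
  simpa using this

/-- comparison with the sibling potential, upper -/
lemma sib_upper (ha : Small a) {w : List Bool} {c : ℝ} {z : ℂ} {b : Bool} {σ : Sq} {δ : ℝ}
    (hz : ∀ τ, z ≠ pt a w c τ)
    (hδ : ‖z - pt a (b :: w) (c + bit b * D a w) σ‖ ≤ δ) :
    pot a ((!b) :: w) (c + bit (!b) * D a w) z - Tn a w b σ ≤ δ / (0.948 * q ^ w.length) := by
  have hz' := ne_child ha hz (!b)
  unfold pot Tn
  rw [← integral_sub (integrable_of_cont (continuous_logpt ha hz'))
    (integrable_of_cont (continuous_logE ha w b σ))]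
  apply integral_le_const ((continuous_logpt ha hz').sub (continuous_logE ha w b σ))
  intro τ
  have hE := E_pos ha w b σ τ
  have hE' := E_ge' ha w b σ τ
  have h0 : 0 < ‖z - pt a ((!b) :: w) (c + bit (!b) * D a w) τ‖ := by
    rw [norm_pos_iff, sub_ne_zero]; exact hz' τ
  have hδ0 : 0 ≤ δ := (norm_nonneg _).trans hδ
  have h1 : ‖z - pt a ((!b) :: w) (c + bit (!b) * D a w) τ‖ ≤ δ + E a w b σ τ := by
    rw [← norm_E ha w c b σ τ]
    calc ‖z - pt a ((!b) :: w) (c + bit (!b) * D a w) τ‖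
        = ‖(z - pt a (b :: w) (c + bit b * D a w) σ) +
          (pt a (b :: w) (c + bit b * D a w) σ - pt a ((!b) :: w) (c + bit (!b) * D a w) τ)‖ := by
          congr 1; ring
      _ ≤ _ := (norm_add_le _ _).trans (by gcongr)
  show Real.log _ - Real.log _ ≤ _
  rw [← Real.log_div h0.ne' hE.ne']
  have hq : 0 < 0.948 * q ^ w.length := by have := q_pos; positivity
  calc Real.log (‖z - pt a ((!b) :: w) (c + bit (!b) * D a w) τ‖ / E a w b σ τ)
      ≤ ‖z - pt a ((!b) :: w) (c + bit (!b) * D a w) τ‖ / E a w b σ τ - 1 :=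
        Real.log_le_sub_one_of_pos (by positivity)
    _ ≤ (δ + E a w b σ τ) / E a w b σ τ - 1 := by gcongr
    _ = δ / E a w b σ τ := by field_simp; ring
    _ ≤ δ / (0.948 * q ^ w.length) := by gcongr

/-- comparison with the sibling potential, lower -/
lemma sib_lower (ha : Small a) {w : List Bool} {c : ℝ} {z : ℂ} {b : Bool} {σ : Sq} {δ : ℝ}
    (hz : ∀ τ, z ≠ pt a w c τ) (hδq : 5 * δ ≤ q ^ w.length)
    (hδ : ‖z - pt a (b :: w) (c + bit b * D a w) σ‖ ≤ δ) :
    -(4 / 3) * (δ / (0.948 * q ^ w.length)) ≤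
      pot a ((!b) :: w) (c + bit (!b) * D a w) z - Tn a w b σ := by
  have hz' := ne_child ha hz (!b)
  unfold pot Tn
  rw [← integral_sub (integrable_of_cont (continuous_logpt ha hz'))
    (integrable_of_cont (continuous_logE ha w b σ))]
  apply const_le_integral ((continuous_logpt ha hz').sub (continuous_logE ha w b σ))
  intro τ
  have hE := E_pos ha w b σ τ
  have hE' := E_ge' ha w b σ τ
  have hq : 0 < 0.948 * q ^ w.length := by have := q_pos; positivity
  have hδ0 : 0 ≤ δ := (norm_nonneg _).trans hδ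
  have hδE : δ / E a w b σ τ ≤ 1 / 4 := by
    rw [div_le_iff₀ hE]
    linarith
  have h1 : E a w b σ τ - δ ≤ ‖z - pt a ((!b) :: w) (c + bit (!b) * D a w) τ‖ := by
    rw [← norm_E ha w c b σ τ]
    have : ‖pt a (b :: w) (c + bit b * D a w) σ - pt a ((!b) :: w) (c + bit (!b) * D a w) τ‖ ≤
        ‖z - pt a (b :: w) (c + bit b * D a w) σ‖ +
        ‖z - pt a ((!b) :: w) (c + bit (!b) * D a w) τ‖ := by
      rw [norm_sub_rev z (pt a (b :: w) (c + bit b * D a w) σ)]
      calc _ = ‖(pt a (b :: w) (c + bit b * D a w) σ - z) +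
            (z - pt a ((!b) :: w) (c + bit (!b) * D a w) τ)‖ := by congr 1; ring
        _ ≤ _ := norm_add_le _ _
    linarith
  show _ ≤ Real.log _ - Real.log _
  have h3 : 0 < E a w b σ τ - δ := by
    have := (div_le_iff₀ hE).mp hδE
    linarith
  have h4 : Real.log (E a w b σ τ - δ) ≤
      Real.log ‖z - pt a ((!b) :: w) (c + bit (!b) * D a w) τ‖ := Real.log_le_log h3 h1
  have h5 : Real.log (E a w b σ τ) - Real.log (E a w b σ τ - δ) ≤ 4 / 3 * (δ / E a w b σ τ) := by
    rw [← Real.log_div hE.ne' h3.ne']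
    calc Real.log (E a w b σ τ / (E a w b σ τ - δ)) ≤ E a w b σ τ / (E a w b σ τ - δ) - 1 :=
          Real.log_le_sub_one_of_pos (by positivity)
      _ = δ / (E a w b σ τ - δ) := by field_simp; ring
      _ ≤ 4 / 3 * (δ / E a w b σ τ) := by
          rw [div_le_iff₀ h3]
          have h6 : 4 / 3 * (δ / E a w b σ τ) * (E a w b σ τ - δ) =
              4 / 3 * δ * (1 - δ / E a w b σ τ) := by field_simp
          rw [h6]
          nlinarith
  have h7 : δ / E a w b σ τ ≤ δ / (0.948 * q ^ w.length) := by gcongr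
  linarith

lemma upper_est (ha : Small a) {z : ℂ} {δ : ℝ} (hδ0 : 0 < δ) (k : ℕ) :
    ∀ (w : List Bool) (c : ℝ) (σ : Sq), (∀ τ, z ≠ pt a w c τ) → ‖z - pt a w c σ‖ ≤ δ →
      δ ≤ q ^ (w.length + k) →
      pot a w c z - U a w σ ≤ 8 * (1 / 2) ^ k - 0.002 * q ^ k := by
  induction k with
  | zero =>
    intro w c σ hz h1 h2
    rw [add_zero] at h2
    have hq : 0 < q ^ w.length := pow_pos q_pos _
    have h3 : pot a w c z ≤ Real.log (2.07 * q ^ w.length) := by
      apply integral_le_const (continuous_logpt ha hz)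
      intro τ
      apply Real.log_le_log
      · rw [norm_pos_iff, sub_ne_zero]; exact hz τ
      · have := norm_piece ha w c σ τ
        calc ‖z - pt a w c τ‖ = ‖(z - pt a w c σ) + (pt a w c σ - pt a w c τ)‖ := by
              congr 1; ring
          _ ≤ ‖z - pt a w c σ‖ + ‖pt a w c σ - pt a w c τ‖ := norm_add_le _ _
          _ ≤ 2.07 * q ^ w.length := by linarith
    rw [Real.log_mul (by norm_num) hq.ne', Real.log_pow] at h3
    have h4 := (abs_le.mp (U_bound ha w σ)).1
    have h5 : Real.log 2.07 + Real.log 1000 ≤ 7.7 := by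
      rw [← Real.log_mul (by norm_num) (by norm_num)]
      have h6 : (2.07 : ℝ) * 1000 = 2 ^ 11 * (2070 / 2048) := by norm_num
      rw [h6, Real.log_mul (by norm_num) (by norm_num), Real.log_pow]
      have h7 := Real.log_le_sub_one_of_pos (by norm_num : (0 : ℝ) < 2070 / 2048)
      have h8 := Real.log_two_lt_d9
      push_cast
      linarith
    rw [log_q] at *
    simp only [pow_zero, mul_one]
    linarith
  | succ k ih =>
    intro w c σ hz h1 h2
    obtain ⟨b, σ', rfl⟩ : ∃ b σ', σ = cns b σ' := ⟨σ 0, shf σ, (cns_shf σ).symm⟩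
    rw [pt_cns ha] at h1
    have h3 := ih (b :: w) _ σ' (ne_child ha hz b) h1 (by
      rw [List.length_cons, show w.length + 1 + k = w.length + (k + 1) by ring]; exact h2)
    have h4 := sib_upper ha hz h1
    rw [pot_split ha hz b, U_cns ha]
    have h5 : δ / (0.948 * q ^ w.length) ≤ 0.00106 * q ^ k := by
      have hq : 0 < q ^ w.length := pow_pos q_pos _
      rw [div_le_iff₀ (by positivity)]
      have h6 : q ^ (w.length + (k + 1)) = 0.001 * (q ^ w.length * q ^ k) := by
        rw [pow_add, pow_succ]; unfold q; ring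
      rw [h6] at h2
      have h7 : 0 < q ^ w.length * q ^ k := mul_pos hq (pow_pos q_pos _)
      nlinarith
    have h6 : q ^ (k + 1) = 0.001 * q ^ k := by rw [pow_succ]; unfold q; ring
    have h7 : 0 < q ^ k := pow_pos q_pos _
    rw [h6, pow_succ]
    linarith

lemma lower_est (ha : Small a) {z : ℂ} {δ : ℝ} (hδ0 : 0 < δ) (k : ℕ) :
    ∀ (w : List Bool) (c : ℝ) (σ : Sq), (∀ τ, δ ≤ ‖z - pt a w c τ‖) → ‖z - pt a w c σ‖ ≤ δ →
      q ^ (w.length + k) < 5 * δ → (∀ j < k, 5 * δ ≤ q ^ (w.length + j)) →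
      4 * (1 / 2) ^ k + 0.3 * q ^ k ≤ pot a w c z - U a w σ := by
  induction k with
  | zero =>
    intro w c σ hz h1 h2 _
    rw [add_zero] at h2
    have hq : 0 < q ^ w.length := pow_pos q_pos _
    have hz' : ∀ τ, z ≠ pt a w c τ := by
      intro τ h
      have := hz τ
      rw [← h, sub_self, norm_zero] at this
      linarith
    have h3 : Real.log δ ≤ pot a w c z :=
      const_le_integral (continuous_logpt ha hz') fun τ => Real.log_le_log hδ0 (hz τ)
    have h4 := (abs_le.mp (U_bound ha w σ)).2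
    have h5 : w.length * Real.log q ≤ Real.log 5 + Real.log δ := by
      rw [← Real.log_pow, ← Real.log_mul (by norm_num) hδ0.ne']
      exact Real.log_le_log hq h2.le
    have h6 : 4.8 ≤ Real.log 1000 - Real.log 5 := by
      rw [← Real.log_div (by norm_num) (by norm_num)]
      have h7 : (2 : ℝ) ^ 7 ≤ 1000 / 5 := by norm_num
      have h8 := Real.log_le_log (by norm_num) h7
      rw [Real.log_pow] at h8
      have h9 := Real.log_two_gt_d9
      push_cast at h8
      linarith
    rw [log_q] at *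
    simp only [pow_zero, mul_one]
    linarith
  | succ k ih =>
    intro w c σ hz h1 h2 h3
    obtain ⟨b, σ', rfl⟩ : ∃ b σ', σ = cns b σ' := ⟨σ 0, shf σ, (cns_shf σ).symm⟩
    have hz' : ∀ τ, z ≠ pt a w c τ := by
      intro τ h
      have := hz τ
      rw [← h, sub_self, norm_zero] at this
      linarith
    rw [pt_cns ha] at h1
    have h4 := ih (b :: w) (c + bit b * D a w) σ' (fun τ => by rw [← pt_cns ha]; exact hz _) h1
      (by rw [List.length_cons, show w.length + 1 + k = w.length + (k + 1) by ring]; exact h2)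
      (fun j hj => by
        rw [List.length_cons, show w.length + 1 + j = w.length + (j + 1) by ring]
        exact h3 (j + 1) (by omega))
    have hk := h3 k (by omega)
    have hq : 0 < q ^ w.length := pow_pos q_pos _
    have hqk : 0 < q ^ k := pow_pos q_pos _
    have hk' : 5 * δ ≤ q ^ w.length := by
      refine hk.trans ?_
      rw [pow_add]
      have : q ^ k ≤ 1 := pow_le_one₀ q_pos.le q_lt.le
      nlinarith
    have h5 := sib_lower ha hz' hk' h1
    rw [pot_split ha hz' b, U_cns ha]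
    have h6 : δ / (0.948 * q ^ w.length) ≤ 0.2111 * q ^ k := by
      rw [div_le_iff₀ (by positivity)]
      rw [pow_add] at hk
      have h7 : 0 < q ^ w.length * q ^ k := mul_pos hq hqk
      nlinarith
    have h7 : q ^ (k + 1) = 0.001 * q ^ k := by rw [pow_succ]; unfold q; ring
    rw [h7, pow_succ]
    linarith

/-! ### the exponent -/

noncomputable def al : ℝ := Real.log 2 / Real.log 1000

lemma al_pos : 0 < al := div_pos (Real.log_pos (by norm_num)) (Real.log_pos (by norm_num))

lemma q_rpow : q ^ al = 1 / 2 := by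
  rw [Real.rpow_def_of_pos q_pos, log_q, al]
  have h : Real.log 1000 ≠ 0 := (Real.log_pos (by norm_num)).ne'
  have h2 : -Real.log 1000 * (Real.log 2 / Real.log 1000) = -Real.log 2 := by field_simp
  rw [h2, Real.exp_neg, Real.exp_log (by norm_num)]
  norm_num

lemma qn_rpow (n : ℕ) : (q ^ n) ^ al = (1 / 2) ^ n := by
  rw [← Real.rpow_natCast q n, ← Real.rpow_mul q_pos.le, mul_comm, Real.rpow_mul q_pos.le, q_rpow,
    Real.rpow_natCast]

theorem upper_final (ha : Small a) {z : ℂ} {δ : ℝ} (hδ0 : 0 < δ) (hδ1 : δ ≤ 1 / 10)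
    {σ : Sq} (hz : ∀ τ, z ≠ pt a [] 0 τ) (h : ‖z - pt a [] 0 σ‖ ≤ δ) :
    pot a [] 0 z - U a [] σ ≤ 16 * δ ^ al := by
  obtain ⟨n, h1, h2⟩ := exists_nat_pow_near_of_lt_one hδ0 (by linarith : δ ≤ 1) q_pos q_lt
  have h3 := upper_est ha hδ0 n [] 0 σ hz h (by simpa using h2)
  have h4 : (q ^ (n + 1)) ^ al ≤ δ ^ al :=
    Real.rpow_le_rpow (pow_nonneg q_pos.le _) h1.le al_pos.le
  rw [qn_rpow, pow_succ] at h4
  have h5 : 0 < q ^ n := pow_pos q_pos _
  linarith

theorem lower_final (ha : Small a) {z : ℂ} {δ : ℝ} (hδ0 : 0 < δ) (hδ1 : δ ≤ 1 / 10)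
    {σ : Sq} (hz : ∀ τ, δ ≤ ‖z - pt a [] 0 τ‖) (h : ‖z - pt a [] 0 σ‖ ≤ δ) :
    2 * δ ^ al ≤ pot a [] 0 z - U a [] σ := by
  obtain ⟨n, h1, h2⟩ := exists_nat_pow_near_of_lt_one (by linarith : 0 < 5 * δ)
    (by linarith : 5 * δ ≤ 1) q_pos q_lt
  have h3 := lower_est ha hδ0 (n + 1) [] 0 σ hz h (by simpa using h1) (fun j hj => by
    refine h2.trans ?_
    simp only [List.length_nil, zero_add]
    exact pow_le_pow_of_le_one q_pos.le q_lt.le (by omega))
  have h4 : δ ^ al ≤ (q ^ n) ^ al :=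
    Real.rpow_le_rpow hδ0.le (by linarith) al_pos.le
  rw [qn_rpow] at h4
  rw [pow_succ] at h3
  have h5 : 0 < q ^ (n + 1) := pow_pos q_pos _
  have h6 : q ^ (n + 1) = q ^ n * q := pow_succ _ _
  rw [h6] at h5
  linarith

end Pool.Agent.H789R2.Green
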