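import Pool.Agent.H789R2.GE

set_option autoImplicit false

open MeasureTheory Filter Topology Set
open scoped ENNReal

namespace Pool.Agent.H789R2.Green

variable {a b : Cfg}

noncomputable def PN (a : Cfg) : ℕ → List Bool → ℝ → Polynomial ℂ
  | 0, _, c => Polynomial.X - Polynomial.C (c : ℂ)
  | (N + 1), w, c => PN a N (false :: w) (c + bit false * D a w) *
      PN a N (true :: w) (c + bit true * D a w)

noncomputable def ND (a : Cfg) : ℕ → List Bool → ℝ → Finset ℂ
  | 0, _, c => {(c : ℂ)}
  | (N + 1), w, c => ND a N (false :: w) (c + bit false * D a w) ∪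
      ND a N (true :: w) (c + bit true * D a w)

lemma PN_succ (a : Cfg) (N : ℕ) (w : List Bool) (c : ℝ) (b : Bool) :
    PN a (N + 1) w c = PN a N (b :: w) (c + bit b * D a w) *
      PN a N ((!b) :: w) (c + bit (!b) * D a w) := by
  cases b
  · rfl
  · rw [PN, mul_comm]; rfl

lemma pt_zr (a : Cfg) (w : List Bool) (c : ℝ) : pt a w c zr = (c : ℂ) := by
  unfold pt; rw [X_zr, add_zero]

/-- derivative bound at the nodes (and nodes are points of the piece) -/
lemma node_pt (ha : Small a) (N : ℕ) : ∀ (w : List Bool) (c : ℝ), ∀ t ∈ ND a N w c,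
    ∃ σ, t = pt a w c σ := by
  induction N with
  | zero =>
    intro w c t ht
    simp only [ND, Finset.mem_singleton] at ht
    exact ⟨zr, by rw [pt_zr, ht]⟩
  | succ N ih =>
    intro w c t ht
    simp only [ND, Finset.mem_union] at ht
    rcases ht with ht | ht
    · obtain ⟨σ, hσ⟩ := ih _ _ t ht
      exact ⟨cns false σ, by rw [pt_cns ha]; exact hσ⟩
    · obtain ⟨σ, hσ⟩ := ih _ _ t ht
      exact ⟨cns true σ, by rw [pt_cns ha]; exact hσ⟩

lemma pt_ne (ha : Small a) (w : List Bool) (c : ℝ) (b : Bool) (σ τ : Sq) :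
    pt a (b :: w) (c + bit b * D a w) σ ≠ pt a ((!b) :: w) (c + bit (!b) * D a w) τ := by
  intro h
  have h1 := norm_E ha w c b σ τ
  rw [h, sub_self, norm_zero] at h1
  have := E_pos ha w b σ τ
  linarith

lemma ND_disj (ha : Small a) (N : ℕ) (w : List Bool) (c : ℝ) :
    Disjoint (ND a N (false :: w) (c + bit false * D a w))
      (ND a N (true :: w) (c + bit true * D a w)) := by
  rw [Finset.disjoint_left]
  intro t h1 h2
  obtain ⟨σ, hσ⟩ := node_pt ha N _ _ t h1
  obtain ⟨τ, hτ⟩ := node_pt ha N _ _ t h2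
  exact pt_ne ha w c false σ τ (hσ.symm.trans hτ)

lemma card_ND (ha : Small a) (N : ℕ) : ∀ (w : List Bool) (c : ℝ), (ND a N w c).card = 2 ^ N := by
  induction N with
  | zero => intro w c; simp [ND]
  | succ N ih =>
    intro w c
    rw [ND, Finset.card_union_of_disjoint (ND_disj ha N w c), ih, ih, pow_succ]
    ring

lemma PN_eq (ha : Small a) (N : ℕ) : ∀ (w : List Bool) (c : ℝ),
    PN a N w c = Lagrange.nodal (ND a N w c) id := by
  induction N with
  | zero =>
    intro w c
    simp [ND, PN, Lagrange.nodal]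
  | succ N ih =>
    intro w c
    rw [PN, ND, ih, ih]
    unfold Lagrange.nodal
    rw [Finset.prod_union (ND_disj ha N w c)]

lemma eval_PN_ne (N : ℕ) (ha : Small a) : ∀ (w : List Bool) (c : ℝ) (z : ℂ),
    (∀ τ, z ≠ pt a w c τ) → (PN a N w c).eval z ≠ 0 := by
  induction N with
  | zero =>
    intro w c z hz
    rw [PN]
    simp only [Polynomial.eval_sub, Polynomial.eval_X, Polynomial.eval_C]
    rw [sub_ne_zero, ← pt_zr a w c]
    exact hz _
  | succ N ih =>
    intro w c z hz
    rw [PN_succ a N w c false, Polynomial.eval_mul]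
    exact mul_ne_zero (ih _ _ _ (ne_child ha hz false)) (ih _ _ _ (ne_child ha hz _))

lemma PN_pot (ha : Small a) {z : ℂ} {d : ℝ} (hd : 0 < d) (N : ℕ) :
    ∀ (w : List Bool) (c : ℝ), (∀ τ, d ≤ ‖z - pt a w c τ‖) →
      |Real.log ‖(PN a N w c).eval z‖ - 2 ^ N * pot a w c z| ≤
        2 ^ N * (1.07 * q ^ (w.length + N) / d) := by
  induction N with
  | zero =>
    intro w c hz
    have hz' : ∀ τ, z ≠ pt a w c τ := by
      intro τ h
      have := hz τ
      rw [← h, sub_self, norm_zero] at this
      linarith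
    have h1 : (PN a 0 w c).eval z = z - pt a w c zr := by
      rw [pt_zr, PN]; simp
    have h2 : Real.log ‖(PN a 0 w c).eval z‖ = ∫ _τ, Real.log ‖z - pt a w c zr‖ ∂mu := by
      rw [h1]; simp
    rw [h2, pow_zero, one_mul, one_mul, add_zero]
    apply abs_integral_sub_le continuous_const (continuous_logpt ha hz')
    intro τ
    have h3 := log_diff hd (hz zr) (hz τ)
    refine h3.trans ?_
    gcongr
    have h4 := norm_piece ha w c τ zr
    refine (abs_norm_sub_norm_le _ _).trans ?_
    rw [show z - pt a w c zr - (z - pt a w c τ) = pt a w c τ - pt a w c zr by ring]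
    exact h4
  | succ N ih =>
    intro w c hz
    have hz' : ∀ τ, z ≠ pt a w c τ := by
      intro τ h
      have := hz τ
      rw [← h, sub_self, norm_zero] at this
      linarith
    have h1 : ∀ b, ∀ τ, d ≤ ‖z - pt a (b :: w) (c + bit b * D a w) τ‖ := by
      intro b τ
      rw [← pt_cns ha]; exact hz _
    have h2 := ih _ _ (h1 false)
    have h3 := ih _ _ (h1 true)
    rw [PN, Polynomial.eval_mul, norm_mul, Real.log_mul
      (norm_ne_zero_iff.mpr (eval_PN_ne N ha _ _ _ (ne_child ha hz' false)))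
      (norm_ne_zero_iff.mpr (eval_PN_ne N ha _ _ _ (ne_child ha hz' true))),
      pot_split ha hz' false]
    simp only [List.length_cons, Bool.not_false] at *
    rw [show w.length + 1 + N = w.length + (N + 1) by ring] at h2 h3
    rw [pow_succ]
    rw [abs_le] at *
    constructor <;> linarith

/-- the logarithm of the sibling factor at a point of the set -/
lemma sib_factor (ha : Small a) (N : ℕ) (w : List Bool) (c : ℝ) (b : Bool) (σ : Sq) :
    |Real.log ‖(PN a N ((!b) :: w) (c + bit (!b) * D a w)).eval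
      (pt a (b :: w) (c + bit b * D a w) σ)‖ - 2 ^ N * Tn a w b σ| ≤ (1 / 2) ^ (N + 1) := by
  have hq : 0 < q ^ w.length := pow_pos q_pos _
  have h1 := PN_pot ha (z := pt a (b :: w) (c + bit b * D a w) σ)
    (d := 0.948 * q ^ w.length) (by positivity) N ((!b) :: w) (c + bit (!b) * D a w)
    (fun τ => by rw [norm_E ha]; exact E_ge' ha w b σ τ)
  have h2 : pot a ((!b) :: w) (c + bit (!b) * D a w) (pt a (b :: w) (c + bit b * D a w) σ) =
      Tn a w b σ := by
    unfold pot Tn
    refine integral_congr_ae (Eventually.of_forall fun τ => ?_)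
    show Real.log _ = _
    rw [norm_E ha]
  rw [h2] at h1
  refine h1.trans ?_
  have h3 : 1.07 * q ^ (((!b) :: w).length + N) / (0.948 * q ^ w.length) ≤ 0.00113 * q ^ N := by
    rw [div_le_iff₀ (by positivity), List.length_cons]
    have h6 : q ^ (w.length + 1 + N) = 0.001 * (q ^ w.length * q ^ N) := by
      rw [pow_add, pow_succ]; unfold q; ring
    rw [h6]
    have h7 : 0 < q ^ w.length * q ^ N := mul_pos hq (pow_pos q_pos _)
    nlinarith
  calc (2 : ℝ) ^ N * (1.07 * q ^ (((!b) :: w).length + N) / (0.948 * q ^ w.length))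
      ≤ 2 ^ N * (0.00113 * q ^ N) := by gcongr
    _ = 0.00113 * (2 * q) ^ N := by rw [mul_pow]; ring
    _ ≤ 0.00113 * (1 / 2) ^ N := by
        gcongr
        · have := q_pos; positivity
        · unfold q; norm_num
    _ ≤ (1 / 2) ^ (N + 1) := by
        rw [pow_succ]
        have : (0 : ℝ) < (1 / 2) ^ N := by positivity
        linarith

/-- upper bound on the set -/
lemma PN_K (ha : Small a) (N : ℕ) : ∀ (w : List Bool) (c : ℝ) (σ : Sq),
    ‖(PN a N w c).eval (pt a w c σ)‖ ≤ Real.exp (2 ^ N * U a w σ + (9 - (1 / 2) ^ N)) := by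
  induction N with
  | zero =>
    intro w c σ
    have h1 : (PN a 0 w c).eval (pt a w c σ) = pt a w c σ - pt a w c zr := by
      rw [pt_zr, PN]; simp
    rw [h1]
    refine (norm_piece ha w c σ zr).trans ?_
    have h2 := (abs_le.mp (U_bound ha w σ)).1
    have h3 : (1.07 : ℝ) * q ^ w.length ≤
        Real.exp (Real.log 1.07 + w.length * Real.log q) := by
      rw [Real.exp_add, Real.exp_log (by norm_num), ← Real.log_pow,
        Real.exp_log (pow_pos q_pos _)]
    refine h3.trans (Real.exp_le_exp.mpr ?_)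
    have h5 : Real.log 1.07 + Real.log 1000 ≤ 7.7 := by
      rw [← Real.log_mul (by norm_num) (by norm_num)]
      have h6 : (1.07 : ℝ) * 1000 = 2 ^ 10 * (1070 / 1024) := by norm_num
      rw [h6, Real.log_mul (by norm_num) (by norm_num), Real.log_pow]
      have h7 := Real.log_le_sub_one_of_pos (by norm_num : (0 : ℝ) < 1070 / 1024)
      have h8 := Real.log_two_lt_d9
      push_cast
      linarith
    rw [log_q] at *
    simp only [pow_zero, one_mul]
    linarith
  | succ N ih =>
    intro w c σ
    obtain ⟨b, σ', rfl⟩ : ∃ b σ', σ = cns b σ' := ⟨σ 0, shf σ, (cns_shf σ).symm⟩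
    rw [PN_succ a N w c b, Polynomial.eval_mul, norm_mul, pt_cns ha]
    have h1 := ih (b :: w) (c + bit b * D a w) σ'
    have h2 := (abs_le.mp (sib_factor ha N w c b σ')).2
    have h3 : 0 < ‖(PN a N ((!b) :: w) (c + bit (!b) * D a w)).eval
        (pt a (b :: w) (c + bit b * D a w) σ')‖ := by
      rw [norm_pos_iff]
      exact eval_PN_ne N ha _ _ _ fun τ => pt_ne ha w c b σ' τ
    have h4 : ‖(PN a N ((!b) :: w) (c + bit (!b) * D a w)).eval
        (pt a (b :: w) (c + bit b * D a w) σ')‖ ≤
        Real.exp (2 ^ N * Tn a w b σ' + (1 / 2) ^ (N + 1)) := by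
      rw [← Real.exp_log h3]
      exact Real.exp_le_exp.mpr (by linarith)
    refine (mul_le_mul h1 h4 (norm_nonneg _) (Real.exp_pos _).le).trans (le_of_eq ?_)
    rw [← Real.exp_add, U_cns ha]
    congr 1
    rw [pow_succ 2 N, pow_succ (1 / 2 : ℝ) N]
    ring

/-- lower bound of the derivative at the nodes -/
lemma PN_der (ha : Small a) (N : ℕ) : ∀ (w : List Bool) (c : ℝ), ∀ t ∈ ND a N w c,
    ∃ σ, t = pt a w c σ ∧
      Real.exp (2 ^ N * U a w σ - (1 - (1 / 2) ^ N)) ≤
        ‖(Polynomial.derivative (PN a N w c)).eval t‖ := by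
  induction N with
  | zero =>
    intro w c t ht
    simp only [ND, Finset.mem_singleton] at ht
    refine ⟨zr, by rw [pt_zr, ht], ?_⟩
    have h1 : ‖(Polynomial.derivative (PN a 0 w c)).eval t‖ = 1 := by
      rw [PN]; simp
    rw [h1]
    apply Real.exp_le_one_iff.mpr
    have h2 := (abs_le.mp (U_bound ha w zr)).2
    have h3 : (1 : ℝ) ≤ Real.log 1000 := by
      have h8 := Real.log_le_log (by norm_num) (by norm_num : (2 : ℝ) ^ 2 ≤ 1000)
      rw [Real.log_pow] at h8
      have h9 := Real.log_two_gt_d9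
      push_cast at h8
      linarith
    have h4 : (0 : ℝ) ≤ w.length := Nat.cast_nonneg _
    rw [log_q] at h2
    simp only [pow_zero, one_mul]
    nlinarith
  | succ N ih =>
    intro w c t ht
    have key : ∀ b, t ∈ ND a N (b :: w) (c + bit b * D a w) →
        ∃ σ, t = pt a w c σ ∧
      Real.exp (2 ^ (N + 1) * U a w σ - (1 - (1 / 2) ^ (N + 1))) ≤
        ‖(Polynomial.derivative (PN a (N + 1) w c)).eval t‖ := by
      intro b htb
      obtain ⟨σ, hσ, hder⟩ := ih _ _ t htb
      refine ⟨cns b σ, by rw [pt_cns ha]; exact hσ, ?_⟩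
      have hroot : (PN a N (b :: w) (c + bit b * D a w)).eval t = 0 := by
        rw [PN_eq ha]
        exact Lagrange.eval_nodal_at_node (v := id) htb
      rw [PN_succ a N w c b, Polynomial.derivative_mul, Polynomial.eval_add, Polynomial.eval_mul,
        Polynomial.eval_mul, hroot, zero_mul, add_zero, norm_mul]
      have h2 := (abs_le.mp (sib_factor ha N w c b σ)).1
      have h3 : 0 < ‖(PN a N ((!b) :: w) (c + bit (!b) * D a w)).eval
          (pt a (b :: w) (c + bit b * D a w) σ)‖ := by
        rw [norm_pos_iff]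
        exact eval_PN_ne N ha _ _ _ fun τ => pt_ne ha w c b σ τ
      have h4 : Real.exp (2 ^ N * Tn a w b σ - (1 / 2) ^ (N + 1)) ≤
          ‖(PN a N ((!b) :: w) (c + bit (!b) * D a w)).eval t‖ := by
        rw [hσ, ← Real.exp_log h3]
        exact Real.exp_le_exp.mpr (by linarith)
      refine (le_of_eq ?_).trans (mul_le_mul hder h4 (Real.exp_pos _).le (norm_nonneg _))
      rw [← Real.exp_add, U_cns ha]
      congr 1
      rw [pow_succ 2 N, pow_succ (1 / 2 : ℝ) N]
      ring
    simp only [ND, Finset.mem_union] at ht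
    rcases ht with ht | ht
    · exact key false ht
    · exact key true ht

end Pool.Agent.H789R2.Green
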