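import Pool.Agent.H789R2.GF

set_option autoImplicit false

open MeasureTheory Filter Topology Set
open scoped ENNReal

namespace Pool.Agent.H789R2.Green

variable {a : Cfg}

/-- the Bernstein-Walsh type upper bound -/
lemma bw_upper (ha : Small a) {V : ℝ} (hV : ∀ σ, U a [] σ = V) {z : ℂ} {δ : ℝ} (hδ : 0 < δ)
    (hz : ∀ τ, δ ≤ ‖z - pt a [] 0 τ‖) (hG : 0 ≤ pot a [] 0 z - V)
    {p : Polynomial ℂ} (hp : 1 ≤ p.natDegree) (hpK : ∀ τ, ‖p.eval (pt a [] 0 τ)‖ ≤ 1) :
    Real.log ‖p.eval z‖ / (p.natDegree : ℝ) ≤ pot a [] 0 z - V := by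
  set n := p.natDegree with hn
  set L := Real.log ‖p.eval z‖ with hL
  have hn0 : (0 : ℝ) < n := by exact_mod_cast hp
  rcases le_or_gt L 0 with hL0 | hL0
  · exact (div_nonpos_of_nonpos_of_nonneg hL0 hn0.le).trans hG
  have hpz : 0 < ‖p.eval z‖ := by
    rcases (norm_nonneg (p.eval z)).lt_or_eq with h | h
    · exact h
    · rw [hL, ← h, Real.log_zero] at hL0
      exact absurd hL0 (lt_irrefl _)
  have hz' : ∀ τ, z ≠ pt a [] 0 τ := by
    intro τ h
    have := hz τ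
    rw [← h, sub_self, norm_zero] at this
    linarith
  have key : ∀ N : ℕ, L / n - (pot a [] 0 z - V) ≤
      N * (1 / 2) ^ N + (L + 1 - Real.log δ + 1.07 / δ) * (1 / 2) ^ N := by
    intro N
    set m := (2 ^ N - 1) / n with hm
    have h2N : 1 ≤ 2 ^ N := Nat.one_le_two_pow
    have hmn : n * m ≤ 2 ^ N - 1 := Nat.mul_div_le _ _
    have hmn' : 2 ^ N ≤ n * (m + 1) := by
      have := Nat.lt_mul_div_succ (2 ^ N - 1) (show 0 < n from hp)
      rw [← hm] at this
      omega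
    set s := ND a N [] 0 with hs
    have hcard : s.card = 2 ^ N := card_ND ha N _ _
    set F := p ^ m with hF
    have hdeg : F.degree < (s.card : WithBot ℕ) := by
      rw [hcard]
      refine Polynomial.degree_le_natDegree.trans_lt ?_
      rw [hF, Polynomial.natDegree_pow, ← hn]
      have : m * n < 2 ^ N := by rw [mul_comm]; omega
      exact_mod_cast this
    have hint := Lagrange.eq_interpolate (v := id) (s := s) (f := F) (injOn_id _) hdeg
    have hzs : ∀ t ∈ s, z ≠ id t := by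
      intro t ht
      obtain ⟨σ, hσ⟩ := node_pt ha N _ _ t ht
      rw [id, hσ]; exact hz' σ
    have hev : F.eval z = (Lagrange.nodal s id).eval z *
        ∑ t ∈ s, Lagrange.nodalWeight s id t * (z - id t)⁻¹ * F.eval (id t) := by
      conv_lhs => rw [hint]
      exact Lagrange.eval_interpolate_not_at_node _ hzs
    have hbound : ‖F.eval z‖ ≤ ‖(PN a N [] 0).eval z‖ *
        (2 ^ N * (Real.exp (-(2 ^ N * V - 1)) * δ⁻¹)) := by
      rw [hev, norm_mul, ← PN_eq ha]
      apply mul_le_mul_of_nonneg_left _ (norm_nonneg _)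
      refine (norm_sum_le _ _).trans ?_
      have hterm : ∀ t ∈ s, ‖Lagrange.nodalWeight s id t * (z - id t)⁻¹ * F.eval (id t)‖ ≤
          Real.exp (-(2 ^ N * V - 1)) * δ⁻¹ := by
        intro t ht
        obtain ⟨σ, hσ, hder⟩ := PN_der ha N _ _ t ht
        rw [hV] at hder
        rw [Lagrange.nodalWeight_eq_eval_derivative_nodal ht, ← PN_eq ha, norm_mul, norm_mul,
          norm_inv, norm_inv]
        have h1 : ‖F.eval (id t)‖ ≤ 1 := by
          rw [hF, Polynomial.eval_pow, norm_pow]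
          apply pow_le_one₀ (norm_nonneg _)
          rw [id, hσ]; exact hpK σ
        have h2 : ‖z - id t‖⁻¹ ≤ δ⁻¹ := by
          apply inv_anti₀ hδ
          rw [id, hσ]; exact hz σ
        have h3 : ‖Polynomial.eval (id t) (Polynomial.derivative (PN a N [] 0))‖⁻¹ ≤
            Real.exp (-(2 ^ N * V - 1)) := by
          rw [Real.exp_neg]
          apply inv_anti₀ (Real.exp_pos _)
          refine le_trans (Real.exp_le_exp.mpr ?_) hder
          have : (0 : ℝ) ≤ (1 / 2) ^ N := by positivity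
          linarith
        calc ‖Polynomial.eval (id t) (Polynomial.derivative (PN a N [] 0))‖⁻¹ * ‖z - id t‖⁻¹ *
              ‖F.eval (id t)‖ ≤ Real.exp (-(2 ^ N * V - 1)) * δ⁻¹ * 1 := by
              gcongr
          _ = _ := mul_one _
      refine (Finset.sum_le_sum hterm).trans (le_of_eq ?_)
      rw [Finset.sum_const, hcard, nsmul_eq_mul]
      push_cast
      rfl
    have hPpos : 0 < ‖(PN a N [] 0).eval z‖ := by
      rw [norm_pos_iff]; exact eval_PN_ne N ha _ _ _ hz'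
    have hFpos : 0 < ‖F.eval z‖ := by
      rw [hF, Polynomial.eval_pow, norm_pow]; positivity
    have hlog := Real.log_le_log hFpos hbound
    rw [Real.log_mul hPpos.ne' (by positivity), Real.log_mul (by positivity) (by positivity),
      Real.log_mul (by positivity) (by positivity), Real.log_exp, Real.log_inv, Real.log_pow, hF,
      Polynomial.eval_pow, norm_pow, Real.log_pow, ← hL] at hlog
    have hP := (abs_le.mp (PN_pot ha hδ N [] 0 hz)).2
    simp only [List.length_nil, zero_add] at hP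
    have hq1 : 1.07 * q ^ N / δ ≤ 1.07 / δ * (1 / 2) ^ N := by
      have : q ^ N ≤ (1 / 2) ^ N := pow_le_pow_left₀ q_pos.le (by unfold q; norm_num) N
      calc 1.07 * q ^ N / δ = 1.07 / δ * q ^ N := by ring
        _ ≤ 1.07 / δ * (1 / 2) ^ N := by gcongr
    have h2 : (2 : ℝ) ^ N * (1 / 2) ^ N = 1 := by rw [← mul_pow]; norm_num
    have h3 : (0 : ℝ) < (1 / 2) ^ N := by positivity
    have h4 : (2 : ℝ) ^ N * (1.07 * q ^ N / δ) ≤ 1.07 / δ := by
      calc (2 : ℝ) ^ N * (1.07 * q ^ N / δ) ≤ 2 ^ N * (1.07 / δ * (1 / 2) ^ N) := by gcongr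
        _ = 1.07 / δ * (2 ^ N * (1 / 2) ^ N) := by ring
        _ = 1.07 / δ := by rw [h2, mul_one]
    have h5 : (N : ℝ) * Real.log 2 ≤ N := by
      have := Real.log_two_lt_d9
      have hN : (0 : ℝ) ≤ N := Nat.cast_nonneg _
      nlinarith
    have h6 : (m : ℝ) * L ≤ 2 ^ N * (pot a [] 0 z - V) + N + 1 - Real.log δ + 1.07 / δ := by
      linarith
    have h7 : (2 : ℝ) ^ N / n - 1 ≤ m := by
      have h8 : ((2 ^ N : ℕ) : ℝ) ≤ ((n * (m + 1) : ℕ) : ℝ) := by exact_mod_cast hmn'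
      push_cast at h8
      rw [sub_le_iff_le_add, div_le_iff₀ hn0]
      linarith
    have h8 : ((2 : ℝ) ^ N / n - 1) * L ≤ m * L := mul_le_mul_of_nonneg_right h7 hL0.le
    have h9 : (2 : ℝ) ^ N * (L / n - (pot a [] 0 z - V)) ≤
        N + (L + 1 - Real.log δ + 1.07 / δ) := by
      have : (2 : ℝ) ^ N * (L / n - (pot a [] 0 z - V)) =
          ((2 : ℝ) ^ N / n - 1) * L + L - 2 ^ N * (pot a [] 0 z - V) := by ring
      rw [this]
      linarith
    calc L / n - (pot a [] 0 z - V) =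
        (2 ^ N * (1 / 2) ^ N) * (L / n - (pot a [] 0 z - V)) := by rw [h2, one_mul]
      _ = (1 / 2) ^ N * (2 ^ N * (L / n - (pot a [] 0 z - V))) := by ring
      _ ≤ (1 / 2) ^ N * (N + (L + 1 - Real.log δ + 1.07 / δ)) := by gcongr
      _ = _ := by ring
  have hlim : Tendsto (fun N : ℕ => N * (1 / 2 : ℝ) ^ N +
      (L + 1 - Real.log δ + 1.07 / δ) * (1 / 2) ^ N) atTop (𝓝 0) := by
    have h1 := tendsto_self_mul_const_pow_of_lt_one (r := (1 / 2 : ℝ)) (by norm_num) (by norm_num)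
    have h2 := (tendsto_pow_atTop_nhds_zero_of_lt_one (r := (1 / 2 : ℝ)) (by norm_num)
      (by norm_num)).const_mul (L + 1 - Real.log δ + 1.07 / δ)
    have := h1.add h2
    simpa using this
  have := ge_of_tendsto' hlim key
  linarith

/-- the extremal polynomials -/
lemma ext_lower (ha : Small a) {V : ℝ} (hV : ∀ σ, U a [] σ = V) {z : ℂ} {δ : ℝ} (hδ : 0 < δ)
    (hz : ∀ τ, δ ≤ ‖z - pt a [] 0 τ‖) {t : ℝ} (ht : t < pot a [] 0 z - V) :
    ∃ p : Polynomial ℂ, 1 ≤ p.natDegree ∧ (∀ τ, ‖p.eval (pt a [] 0 τ)‖ ≤ 1) ∧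
      t < Real.log ‖p.eval z‖ / (p.natDegree : ℝ) := by
  have hz' : ∀ τ, z ≠ pt a [] 0 τ := by
    intro τ h
    have := hz τ
    rw [← h, sub_self, norm_zero] at this
    linarith
  have hlim : Tendsto (fun N : ℕ => pot a [] 0 z - V - 9 * (1 / 2 : ℝ) ^ N -
      1.07 / δ * (1 / 2) ^ N) atTop (𝓝 (pot a [] 0 z - V)) := by
    have h1 := tendsto_pow_atTop_nhds_zero_of_lt_one (r := (1 / 2 : ℝ)) (by norm_num)
      (by norm_num)
    have := ((tendsto_const_nhds (x := pot a [] 0 z - V)).sub (h1.const_mul 9)).sub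
      (h1.const_mul (1.07 / δ))
    simpa using this
  obtain ⟨N, hN⟩ := (hlim.eventually (lt_mem_nhds ht)).exists
  have hmonic : (PN a N [] 0).Monic := by
    rw [PN_eq ha]; exact Lagrange.nodal_monic
  have hdeg : (PN a N [] 0).natDegree = 2 ^ N := by
    rw [PN_eq ha, Lagrange.natDegree_nodal, card_ND ha]
  set κ : ℝ := Real.exp (-(2 ^ N * V + 9)) with hκ
  have hκ0 : (κ : ℂ) ≠ 0 := by
    rw [Complex.ofReal_ne_zero]; exact (Real.exp_pos _).ne'
  refine ⟨Polynomial.C (κ : ℂ) * PN a N [] 0, ?_, ?_, ?_⟩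
  · rw [Polynomial.natDegree_C_mul hκ0, hdeg]
    exact Nat.one_le_two_pow
  · intro τ
    rw [Polynomial.eval_mul, Polynomial.eval_C, norm_mul, Complex.norm_real, Real.norm_eq_abs,
      abs_of_pos (Real.exp_pos _)]
    have h1 := PN_K ha N [] 0 τ
    rw [hV] at h1
    calc κ * ‖(PN a N [] 0).eval (pt a [] 0 τ)‖ ≤
        κ * Real.exp (2 ^ N * V + (9 - (1 / 2) ^ N)) := by
          have := (Real.exp_pos (-(2 ^ N * V + 9))).le
          gcongr
      _ = Real.exp (-(1 / 2) ^ N) := by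
          rw [hκ, ← Real.exp_add]
          congr 1
          ring
      _ ≤ 1 := by
          apply Real.exp_le_one_iff.mpr
          have : (0 : ℝ) ≤ (1 / 2) ^ N := by positivity
          linarith
  · rw [Polynomial.natDegree_C_mul hκ0, hdeg, Polynomial.eval_mul, Polynomial.eval_C, norm_mul,
      Complex.norm_real, Real.norm_eq_abs, abs_of_pos (Real.exp_pos _)]
    have hPpos : 0 < ‖(PN a N [] 0).eval z‖ := by
      rw [norm_pos_iff]; exact eval_PN_ne N ha _ _ _ hz'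
    rw [Real.log_mul (Real.exp_pos _).ne' hPpos.ne', Real.log_exp]
    have hP := (abs_le.mp (PN_pot ha hδ N [] 0 hz)).1
    simp only [List.length_nil, zero_add] at hP
    have h2N : (0 : ℝ) < 2 ^ N := by positivity
    have hq1 : 1.07 * q ^ N / δ ≤ 1.07 / δ * (1 / 2) ^ N := by
      have : q ^ N ≤ (1 / 2) ^ N := pow_le_pow_left₀ q_pos.le (by unfold q; norm_num) N
      calc 1.07 * q ^ N / δ = 1.07 / δ * q ^ N := by ring
        _ ≤ 1.07 / δ * (1 / 2) ^ N := by gcongr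
    have h2 : (2 : ℝ) ^ N * (1 / 2) ^ N = 1 := by rw [← mul_pow]; norm_num
    push_cast
    rw [lt_div_iff₀ h2N]
    have h3 : t * 2 ^ N < (pot a [] 0 z - V - 9 * (1 / 2 : ℝ) ^ N -
      1.07 / δ * (1 / 2) ^ N) * 2 ^ N := mul_lt_mul_of_pos_right hN h2N
    have h4 : (2 : ℝ) ^ N * (1.07 * q ^ N / δ) ≤ 2 ^ N * (1.07 / δ * (1 / 2) ^ N) := by gcongr
    have h5 : (pot a [] 0 z - V - 9 * (1 / 2 : ℝ) ^ N - 1.07 / δ * (1 / 2) ^ N) * 2 ^ N =
        2 ^ N * pot a [] 0 z - 2 ^ N * V - 9 * (2 ^ N * (1 / 2) ^ N) -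
          2 ^ N * (1.07 / δ * (1 / 2) ^ N) := by ring
    rw [h5, h2] at h3
    linarith

theorem main :
    ∃ K : Set ℝ, IsCompact K ∧ K.Nonempty ∧
      ∃ α : ℝ, 0 < α ∧ ∃ C₁ : ℝ, 0 < C₁ ∧ ∃ C₂ : ℝ, 0 < C₂ ∧ ∃ ε : ℝ, 0 < ε ∧
        ∀ z : ℂ,
          0 < Metric.infDist z ((fun x : ℝ => (x : ℂ)) '' K) →
          Metric.infDist z ((fun x : ℝ => (x : ℂ)) '' K) < ε →
          (∀ p : Polynomial ℂ, 1 ≤ p.natDegree →
              (∀ x ∈ K, ‖p.eval (x : ℂ)‖ ≤ 1) →
              Real.log ‖p.eval z‖ / (p.natDegree : ℝ)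
                ≤ C₂ * (Metric.infDist z ((fun x : ℝ => (x : ℂ)) '' K)) ^ α) ∧
          (∀ t : ℝ, t < C₁ * (Metric.infDist z ((fun x : ℝ => (x : ℂ)) '' K)) ^ α →
              ∃ p : Polynomial ℂ, 1 ≤ p.natDegree ∧
                (∀ x ∈ K, ‖p.eval (x : ℂ)‖ ≤ 1) ∧
                t < Real.log ‖p.eval z‖ / (p.natDegree : ℝ)) := by
  obtain ⟨a, ha, hfix⟩ := exists_fixed
  have hV : ∀ σ, U a [] σ = U a [] zr := U_const ha hfix
  have hcompact : IsCompact (Set.range (X a [])) := isCompact_range (continuous_X ha [])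
  have hne : (Set.range (X a [])).Nonempty := ⟨_, zr, rfl⟩
  have himg : ∀ τ, pt a [] 0 τ ∈ (fun x : ℝ => (x : ℂ)) '' (Set.range (X a [])) := by
    intro τ
    refine ⟨X a [] τ, ⟨τ, rfl⟩, ?_⟩
    simp [pt]
  refine ⟨Set.range (X a []), hcompact, hne, al, al_pos, 2, two_pos, 16, by norm_num, 1 / 10,
    by norm_num, ?_⟩
  intro z hz0 hz1
  set δ := Metric.infDist z ((fun x : ℝ => (x : ℂ)) '' (Set.range (X a []))) with hδ
  have hcomp' : IsCompact ((fun x : ℝ => (x : ℂ)) '' (Set.range (X a []))) :=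
    hcompact.image Complex.continuous_ofReal
  obtain ⟨y, ⟨x, ⟨σ, rfl⟩, rfl⟩, hy⟩ := hcomp'.exists_infDist_eq_dist (hne.image _) z
  have hle : ∀ τ, δ ≤ ‖z - pt a [] 0 τ‖ := by
    intro τ
    rw [← dist_eq_norm]
    exact Metric.infDist_le_dist_of_mem (himg τ)
  have hσ : ‖z - pt a [] 0 σ‖ ≤ δ := by
    rw [hδ, hy, dist_eq_norm]
    simp [pt]
  have hz' : ∀ τ, z ≠ pt a [] 0 τ := by
    intro τ h
    have := hle τ
    rw [← h, sub_self, norm_zero] at this
    linarith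
  have hup := upper_final ha hz0 hz1.le hz' hσ
  have hlo := lower_final ha hz0 hz1.le hle hσ
  rw [hV] at hup hlo
  have hpow : 0 < δ ^ al := Real.rpow_pos_of_pos hz0 _
  constructor
  · intro p hp hpK
    refine (bw_upper ha hV hz0 hle (by linarith) hp ?_).trans hup
    intro τ
    have := hpK (X a [] τ) ⟨τ, rfl⟩
    simpa [pt] using this
  · intro t ht
    obtain ⟨p, hp1, hp2, hp3⟩ := ext_lower ha hV hz0 hle (lt_of_lt_of_le ht hlo)
    refine ⟨p, hp1, ?_, hp3⟩
    rintro x ⟨τ, rfl⟩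
    have := hp2 τ
    simpa [pt] using this

end Pool.Agent.H789R2.Green
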